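import Pool.Agent.MP_56e4d4_pr.Entropy

/-!
If almost stationary measures concentrate on small balls, then the limit walk preserves a
finite set.
-/

open Filter Topology Finset

namespace Pool.Agent.MP_56e4d4_pr

variable {G X : Type*} [Group G] [MulAction G X]

lemma exists_max_invariant (a : X → ℝ)
    (hsum : ∀ F : Finset X, ∑ p ∈ F, a p ≤ 1) {η : ℝ} (hη : 0 < η) (p₀ : X) (hp₀ : η ≤ a p₀)
    (μ : MonoidAlgebra ℝ G) (hμ : IsProb μ) (hst : ∀ p, a p ≤ Ex μ (fun s => a (s⁻¹ • p))) :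
    ∃ F : Finset X, F.Nonempty ∧ ∀ s ∈ μ.coeff.support, ∀ p ∈ F, s⁻¹ • p ∈ F := by
  classical
  have hfin : {p | η ≤ a p}.Finite := by
    by_contra hinf
    obtain ⟨n, hn⟩ := exists_nat_gt (1 / η)
    obtain ⟨F, hF, hcard⟩ := Set.Infinite.exists_subset_card_eq hinf n
    have h1 : ∑ _p ∈ F, η ≤ ∑ p ∈ F, a p := Finset.sum_le_sum fun p hp => hF hp
    have h2 := hsum F
    rw [Finset.sum_const, hcard, nsmul_eq_mul] at h1
    rw [div_lt_iff₀ hη] at hn
    linarith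
  obtain ⟨q, hq, hmax⟩ := hfin.toFinset.exists_max_image a ⟨p₀, by simpa using hp₀⟩
  have hq' : η ≤ a q := by simpa using hq
  have hle : ∀ p, a p ≤ a q := by
    intro p
    by_cases h : η ≤ a p
    · exact hmax p (by simpa using h)
    · linarith [not_le.mp h]
  refine ⟨hfin.toFinset.filter (fun p => a p = a q), ⟨q, by simpa using hq'⟩, ?_⟩
  intro s hs p hp
  have hpq : a p = a q := (Finset.mem_filter.mp hp).2
  have h1 : a (s⁻¹ • p) = a q := by
    by_contra hne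
    have hlt : a (s⁻¹ • p) < a q := lt_of_le_of_ne (hle _) hne
    have : Ex μ (fun s => a (s⁻¹ • p)) < Ex μ (fun _ => a q) := by
      refine Finset.sum_lt_sum (fun t _ => mul_le_mul_of_nonneg_left (hle _) (hμ.nonneg t))
        ⟨s, hs, mul_lt_mul_of_pos_left hlt (hμ.pos hs)⟩
    rw [hμ.Ex_const] at this
    linarith [hst p]
  simp only [Finset.mem_filter, Set.Finite.mem_toFinset, Set.mem_ofPred_eq]
  exact ⟨h1 ▸ hq', h1⟩

open Classical in
theorem exists_finite_invariant (d : X → X → ℝ) (d_symm : ∀ p q, d p q = d q p)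
    (d_tri : ∀ p q r, d p r ≤ d p q + d q r) (d_pos : ∀ p q, p ≠ q → 0 < d p q)
    (d_cpt : ∀ (U : Ultrafilter ℕ) (u : ℕ → X), ∃ p, Tendsto (fun j => d (u j) p) U (𝓝 0))
    (ξ : X) (μ : MonoidAlgebra ℝ G) (hμ : IsProb μ)
    (μs νs : ℕ → MonoidAlgebra ℝ G) (hμs : ∀ j, IsProb (μs j)) (hνs : ∀ j, IsProb (νs j))
    (e : ℕ → ℝ) (he : Tendsto e atTop (𝓝 0))
    (hstat : ∀ j (φ : G → ℝ), (∀ x, 0 ≤ φ x) → (∀ x, φ x ≤ 1) →
      Ex (νs j) φ ≤ Ex (μs j) (fun s => Ex (νs j) (fun y => φ (s * y))) + e j)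
    (σ : ℕ → G → G)
    (hσw : ∀ s ∈ μ.coeff.support,
      Tendsto (fun j => (μs j).coeff (σ j s)) atTop (𝓝 (μ.coeff s)))
    (hσinj : ∀ᶠ j in atTop, Set.InjOn (σ j) μ.coeff.support)
    (hσc : ∀ s ∈ μ.coeff.support, ∀ p, ∀ ρ > 0, ∃ ρ' > 0, ∀ᶠ j in atTop,
      ∀ q, d (σ j s • q) p < ρ' → d q (s⁻¹ • p) < ρ)
    {η : ℝ} (hη : 0 < η) (u : ℕ → X) (δ : ℕ → ℝ) (hδ : Tendsto δ atTop (𝓝 0))
    (hbig : ∀ j, η ≤ Ex (νs j) (fun y => if d (y • ξ) (u j) < δ j then 1 else 0)) :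
    ∃ F : Finset X, F.Nonempty ∧ ∀ s ∈ μ.coeff.support, ∀ p ∈ F, s⁻¹ • p ∈ F := by
  set U : Ultrafilter ℕ := Ultrafilter.of atTop with hU
  have hUle : (U : Filter ℕ) ≤ atTop := Ultrafilter.of_le _
  set M : ℕ → X → ℝ → ℝ := fun j p ρ =>
    Ex (νs j) (fun y => if d (y • ξ) p < ρ then 1 else 0) with hM
  have hM0 : ∀ j p ρ, 0 ≤ M j p ρ := fun j p ρ =>
    Ex_nonneg (hνs j).nonneg fun y _ => by split_ifs <;> norm_num
  have hM1 : ∀ j p ρ, M j p ρ ≤ 1 := fun j p ρ =>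
    (hνs j).Ex_le fun y _ => by split_ifs <;> norm_num
  have hMmono : ∀ j p ρ p' ρ', (∀ q, d q p < ρ → d q p' < ρ') → M j p ρ ≤ M j p' ρ' := by
    intro j p ρ p' ρ' h
    refine Ex_mono (hνs j).nonneg fun y _ => ?_
    by_cases h1 : d (y • ξ) p < ρ
    · simp [h1, h _ h1]
    · simp only [h1, if_false]
      split_ifs <;> norm_num
  have hlim : ∀ p ρ, ∃ L, Tendsto (fun j => M j p ρ) U (𝓝 L) := by
    intro p ρ
    obtain ⟨L, -, hL⟩ := (isCompact_Icc (a := (0 : ℝ)) (b := 1)).ultrafilter_le_nhds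
      (U.map fun j => M j p ρ) (by
        rw [Ultrafilter.coe_map, le_principal_iff, Filter.mem_map]
        exact Eventually.of_forall fun j => ⟨hM0 j p ρ, hM1 j p ρ⟩)
    exact ⟨L, hL⟩
  choose L hL using hlim
  have hL0 : ∀ p ρ, 0 ≤ L p ρ := fun p ρ => ge_of_tendsto' (hL p ρ) fun j => hM0 j p ρ
  have hLmono : ∀ p ρ ρ', ρ ≤ ρ' → L p ρ ≤ L p ρ' := fun p ρ ρ' h =>
    le_of_tendsto_of_tendsto' (hL p ρ) (hL p ρ') fun j =>
      hMmono j p ρ p ρ' fun q hq => hq.trans_le h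
  set a : X → ℝ := fun p => sInf (L p '' Set.Ioi 0) with ha
  have hbdd : ∀ p, BddBelow (L p '' Set.Ioi 0) := fun p =>
    ⟨0, by rintro _ ⟨ρ, -, rfl⟩; exact hL0 p ρ⟩
  have hne : ∀ p, (L p '' Set.Ioi 0).Nonempty := fun p => ⟨_, 1, by simp, rfl⟩
  have ha1 : ∀ p ρ, 0 < ρ → a p ≤ L p ρ := fun p ρ h => csInf_le (hbdd p) ⟨ρ, h, rfl⟩
  have ha0 : ∀ p, 0 ≤ a p := fun p =>
    le_csInf (hne p) (by rintro _ ⟨ρ, -, rfl⟩; exact hL0 p ρ)
  have ha2 : ∀ p ε, 0 < ε → ∀ᶠ ρ in 𝓝[>] (0 : ℝ), L p ρ < a p + ε := by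
    intro p ε hε
    obtain ⟨_, ⟨ρ₀, hρ₀, rfl⟩, h⟩ := exists_lt_of_csInf_lt (hne p) (lt_add_of_pos_right _ hε)
    filter_upwards [Ioo_mem_nhdsGT hρ₀] with ρ hρ
    exact (hLmono p ρ ρ₀ hρ.2.le).trans_lt h
  have hsum : ∀ F : Finset X, ∑ p ∈ F, a p ≤ 1 := by
    intro F
    have h1 : ∀ᶠ ρ in 𝓝[>] (0 : ℝ), ∀ p ∈ F, ∀ q ∈ F, p ≠ q → 2 * ρ < d p q := by
      rw [eventually_all_finset]
      intro p _
      rw [eventually_all_finset]
      intro q _
      by_cases h : p = q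
      · simp [h]
      · have hd := d_pos p q h
        filter_upwards [Ioo_mem_nhdsGT (show (0 : ℝ) < d p q / 2 by linarith)] with ρ hρ _
        linarith [hρ.2]
    obtain ⟨ρ, hρ, hρ0⟩ := (h1.and self_mem_nhdsWithin).exists
    have hρ0' : 0 < ρ := hρ0
    refine (Finset.sum_le_sum fun p _ => ha1 p ρ hρ0').trans ?_
    refine le_of_tendsto' (tendsto_finsetSum F fun p _ => hL p ρ) fun j => ?_
    simp only [hM]
    rw [← Ex_sum]
    refine (hνs j).Ex_le fun y _ => ?_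
    rw [← Finset.sum_filter, Finset.sum_const, nsmul_eq_mul, mul_one, Nat.cast_le_one,
      Finset.card_le_one]
    intro p hp q hq
    rw [Finset.mem_filter] at hp hq
    by_contra hpq
    have h2 := hρ p hp.1 q hq.1 hpq
    have h3 := d_tri p (y • ξ) q
    rw [d_symm p (y • ξ)] at h3
    linarith [hp.2, hq.2]
  have hst : ∀ p, a p ≤ Ex μ (fun s => a (s⁻¹ • p)) := by
    intro p
    refine le_of_forall_pos_le_add fun ε hε => ?_
    have h1 : ∀ᶠ ρ in 𝓝[>] (0 : ℝ), ∀ s ∈ μ.coeff.support, L (s⁻¹ • p) ρ < a (s⁻¹ • p) + ε := by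
      rw [eventually_all_finset]
      exact fun s _ => ha2 _ ε hε
    obtain ⟨ρ, hρ, hρ0⟩ := (h1.and self_mem_nhdsWithin).exists
    have hρ0' : 0 < ρ := hρ0
    have h2 : ∀ᶠ ρ' in 𝓝[>] (0 : ℝ), ∀ s ∈ μ.coeff.support, ∀ᶠ j in atTop,
        ∀ q, d (σ j s • q) p < ρ' → d q (s⁻¹ • p) < ρ := by
      rw [eventually_all_finset]
      intro s hs
      obtain ⟨ρ₀, hρ₀, h⟩ := hσc s hs p ρ hρ0'
      filter_upwards [Ioo_mem_nhdsGT hρ₀] with ρ' hρ'
      filter_upwards [h] with j hj q hq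
      exact hj q (hq.trans hρ'.2)
    obtain ⟨ρ', hρ', hρ'0⟩ := (h2.and self_mem_nhdsWithin).exists
    have hρ'0' : 0 < ρ' := hρ'0
    rw [← eventually_all_finset] at hρ'
    have h3 : ∀ᶠ j in atTop, M j p ρ' ≤
        ∑ s ∈ μ.coeff.support, (μs j).coeff (σ j s) * M j (s⁻¹ • p) ρ +
          (1 - ∑ s ∈ μ.coeff.support, (μs j).coeff (σ j s)) + e j := by
      filter_upwards [hρ', hσinj] with j hj hinj
      have h4 := hstat j (fun y => if d (y • ξ) p < ρ' then 1 else 0)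
        (fun x => by split_ifs <;> norm_num) (fun x => by split_ifs <;> norm_num)
      refine h4.trans (add_le_add ?_ le_rfl)
      set T := μ.coeff.support.image (σ j) with hT
      rw [Ex_eq_sum (μs j) _ ((μs j).coeff.support ∪ T) Finset.subset_union_left,
        ← Finset.sum_sdiff (Finset.subset_union_right (s₁ := (μs j).coeff.support) (s₂ := T)),
        add_comm]
      refine add_le_add ?_ ?_
      · rw [hT, Finset.sum_image hinj]
        refine Finset.sum_le_sum fun s hs => mul_le_mul_of_nonneg_left ?_ ((hμs j).nonneg _)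
        refine Ex_mono (hνs j).nonneg fun y _ => ?_
        by_cases h5 : d ((σ j s * y) • ξ) p < ρ'
        · have h6 := hj s hs (y • ξ) (by rwa [← mul_smul])
          simp [h5, h6]
        · simp only [h5, if_false]
          split_ifs <;> norm_num
      · have h5 := (hμs j).sum_le_one ((μs j).coeff.support ∪ T)
        rw [← Finset.sum_sdiff
          (Finset.subset_union_right (s₁ := (μs j).coeff.support) (s₂ := T))] at h5
        have h6 : ∑ x ∈ T, (μs j).coeff x = ∑ s ∈ μ.coeff.support, (μs j).coeff (σ j s) := by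
          rw [hT, Finset.sum_image hinj]
        refine le_trans (Finset.sum_le_sum (g := fun x => (μs j).coeff x) fun x _ => ?_)
          (by linarith)
        refine mul_le_of_le_one_right ((hμs j).nonneg x) ((hνs j).Ex_le fun y _ => ?_)
        split_ifs <;> norm_num
    have h7 : Tendsto (fun j =>
        ∑ s ∈ μ.coeff.support, (μs j).coeff (σ j s) * M j (s⁻¹ • p) ρ +
          (1 - ∑ s ∈ μ.coeff.support, (μs j).coeff (σ j s)) + e j) U
        (𝓝 (∑ s ∈ μ.coeff.support, μ.coeff s * L (s⁻¹ • p) ρ +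
          (1 - ∑ s ∈ μ.coeff.support, μ.coeff s) + 0)) := by
      refine Tendsto.add (Tendsto.add ?_ (tendsto_const_nhds.sub ?_)) (he.mono_left hUle)
      · exact tendsto_finsetSum _ fun s hs => ((hσw s hs).mono_left hUle).mul (hL _ _)
      · exact tendsto_finsetSum _ fun s hs => (hσw s hs).mono_left hUle
    have h8 := le_of_tendsto_of_tendsto (hL p ρ') h7 (hUle h3)
    rw [hμ.total, sub_self, add_zero, add_zero] at h8
    refine (ha1 p ρ' hρ'0').trans (h8.trans ?_)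
    rw [← hμ.Ex_const ε, ← Ex_add]
    exact Ex_mono (φ := fun s => L (s⁻¹ • p) ρ) hμ.nonneg fun s hs => by
      simpa [hμ.Ex_const] using (hρ s hs).le
  obtain ⟨p₀, hp₀⟩ := d_cpt U u
  have hbig' : η ≤ a p₀ := by
    refine le_csInf (hne p₀) ?_
    rintro _ ⟨ρ, hρ, rfl⟩
    have hρ' : (0 : ℝ) < ρ / 2 := by have : 0 < ρ := hρ; linarith
    refine ge_of_tendsto (hL p₀ ρ) ?_
    filter_upwards [hp₀.eventually (gt_mem_nhds hρ'),
      (hδ.mono_left hUle).eventually (gt_mem_nhds hρ')] with j h1 h2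
    refine (hbig j).trans (hMmono j (u j) (δ j) p₀ ρ fun q hq => ?_)
    linarith [d_tri q (u j) p₀]
  exact exists_max_invariant a hsum hη p₀ hbig' μ hμ hst

end Pool.Agent.MP_56e4d4_pr
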