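import Pool.Agent.MP_56e4d4_pr.Entropy

/-!
Convergence of convolution powers along asymptotic homomorphisms, and upper semicontinuity.
-/

open Filter Topology Finset

namespace Pool.Agent.MP_56e4d4_pr

variable {G : Type*} [Group G]

/-- Asymptotic injective homomorphisms. -/
structure Asym (Γ : Subgroup G) (ψ : ℕ → G → G) : Prop where
  mul : ∀ y ∈ Γ, ∀ y' ∈ Γ, ∀ᶠ n in atTop, ψ n (y * y') = ψ n y * ψ n y'
  inj : ∀ T : Finset G, (∀ y ∈ T, y ∈ Γ) → ∀ᶠ n in atTop, Set.InjOn (ψ n) T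

/-- Convergence of weights. -/
def Conv (Γ : Subgroup G) (ψ : ℕ → G → G) (fs : ℕ → MonoidAlgebra ℝ G) (f : MonoidAlgebra ℝ G) :
    Prop :=
  ∀ y ∈ Γ, Tendsto (fun n => (fs n).coeff (ψ n y)) atTop (𝓝 (f.coeff y))

variable {Γ : Subgroup G} {ψ : ℕ → G → G}

lemma Asym.sum_le_one (hψ : Asym Γ ψ) {fs : ℕ → MonoidAlgebra ℝ G} (hfs : ∀ n, IsProb (fs n))
    (T : Finset G) (hT : ∀ y ∈ T, y ∈ Γ) :
    ∀ᶠ n in atTop, ∑ y ∈ T, (fs n).coeff (ψ n y) ≤ 1 := by
  classical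
  filter_upwards [hψ.inj T hT] with n hn
  rw [← Finset.sum_image (f := fun x => (fs n).coeff x) hn]
  exact (hfs n).sum_le_one _

lemma conv_of_lower (hψ : Asym Γ ψ) {fs : ℕ → MonoidAlgebra ℝ G} {f : MonoidAlgebra ℝ G}
    (hfs : ∀ n, IsProb (fs n)) (hf : IsProb f) (hΓ : ∀ y ∈ f.coeff.support, y ∈ Γ)
    (g : ℕ → G → ℝ) (hg : ∀ y ∈ f.coeff.support, Tendsto (fun n => g n y) atTop (𝓝 (f.coeff y)))
    (hle : ∀ y ∈ f.coeff.support, ∀ᶠ n in atTop, g n y ≤ (fs n).coeff (ψ n y)) :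
    Conv Γ ψ fs f := by
  classical
  intro y hy
  set T := f.coeff.support.erase y with hT
  have hup : Tendsto (fun n => 1 - ∑ z ∈ T, g n z) atTop (𝓝 (f.coeff y)) := by
    have h1 : f.coeff y = 1 - ∑ z ∈ T, f.coeff z := by
      have := hf.sum_eq_one (T := insert y T) (by rw [hT]; exact Finset.subset_insert_iff.mpr le_rfl)
      rw [Finset.sum_insert (Finset.notMem_erase _ _)] at this
      linarith
    rw [h1]
    exact tendsto_const_nhds.sub
      (tendsto_finsetSum _ fun z hz => hg z (Finset.mem_of_mem_erase hz))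
  have hup' : ∀ᶠ n in atTop, (fs n).coeff (ψ n y) ≤ 1 - ∑ z ∈ T, g n z := by
    have h2 : ∀ᶠ n in atTop, ∀ z ∈ T, g n z ≤ (fs n).coeff (ψ n z) :=
      (eventually_all_finset T).mpr fun z hz => hle z (Finset.mem_of_mem_erase hz)
    filter_upwards [h2, hψ.sum_le_one hfs (insert y T) (by
      intro z hz
      rcases Finset.mem_insert.mp hz with rfl | hz
      · exact hy
      · exact hΓ z (Finset.mem_of_mem_erase hz))] with n h2 h3
    rw [Finset.sum_insert (Finset.notMem_erase _ _)] at h3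
    have := Finset.sum_le_sum h2
    linarith
  by_cases hmem : y ∈ f.coeff.support
  · exact tendsto_of_tendsto_of_tendsto_of_le_of_le' (hg y hmem) hup (hle y hmem) hup'
  · refine tendsto_of_tendsto_of_tendsto_of_le_of_le' (g := fun _ => 0) ?_ hup
      (Eventually.of_forall fun n => (hfs n).nonneg _) hup'
    rw [Finsupp.notMem_support_iff.mp hmem]
    exact tendsto_const_nhds

lemma support_mul_mem {f g : MonoidAlgebra ℝ G} (hf : ∀ y ∈ f.coeff.support, y ∈ Γ)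
    (hg : ∀ y ∈ g.coeff.support, y ∈ Γ) : ∀ y ∈ (f * g).coeff.support, y ∈ Γ := by
  intro y hy
  obtain ⟨a, ha, b, hb, rfl⟩ := mem_support_mul hy
  exact Γ.mul_mem (hf a ha) (hg b hb)

lemma mem_support_one {x : G} (hx : x ∈ (1 : MonoidAlgebra ℝ G).coeff.support) : x = 1 := by
  rw [MonoidAlgebra.one_def, MonoidAlgebra.coeff_single] at hx
  simpa using Finsupp.support_single_subset hx

lemma support_pow_mem {f : MonoidAlgebra ℝ G} (hf : ∀ y ∈ f.coeff.support, y ∈ Γ) (m : ℕ) :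
    ∀ y ∈ (f ^ m).coeff.support, y ∈ Γ := by
  induction m with
  | zero =>
    intro y hy
    rw [pow_zero] at hy
    rw [mem_support_one hy]
    exact Γ.one_mem
  | succ m ih => rw [pow_succ]; exact support_mul_mem ih hf

lemma card_support_pow_le {f : MonoidAlgebra ℝ G} {N : ℕ} (hN : f.coeff.support.card ≤ N)
    (m : ℕ) : (f ^ m).coeff.support.card ≤ N ^ m := by
  classical
  induction m with
  | zero =>
    rw [pow_zero, pow_zero, Finset.card_le_one]
    intro a ha b hb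
    rw [mem_support_one ha, mem_support_one hb]
  | succ m ih =>
    have : (f ^ (m + 1)).coeff.support ⊆
        ((f ^ m).coeff.support ×ˢ f.coeff.support).image fun p => p.1 * p.2 := by
      intro y hy
      rw [pow_succ] at hy
      obtain ⟨a, ha, b, hb, rfl⟩ := mem_support_mul hy
      exact Finset.mem_image.mpr ⟨(a, b), Finset.mem_product.mpr ⟨ha, hb⟩, rfl⟩
    refine (Finset.card_le_card this).trans (Finset.card_image_le.trans ?_)
    rw [Finset.card_product, pow_succ]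
    exact Nat.mul_le_mul ih hN

lemma Conv.mul (hψ : Asym Γ ψ) {fs gs : ℕ → MonoidAlgebra ℝ G} {f g : MonoidAlgebra ℝ G}
    (hfs : ∀ n, IsProb (fs n)) (hgs : ∀ n, IsProb (gs n)) (hf : IsProb f) (hg : IsProb g)
    (hfΓ : ∀ y ∈ f.coeff.support, y ∈ Γ) (hgΓ : ∀ y ∈ g.coeff.support, y ∈ Γ)
    (h1 : Conv Γ ψ fs f) (h2 : Conv Γ ψ gs g) : Conv Γ ψ (fun n => fs n * gs n) (f * g) := by
  classical
  refine conv_of_lower hψ (fun n => (hfs n).mul (hgs n)) (hf.mul hg) (support_mul_mem hfΓ hgΓ)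
    (fun n y => ∑ a ∈ f.coeff.support, (fs n).coeff (ψ n a) * (gs n).coeff (ψ n (a⁻¹ * y)))
    (fun y hy => ?_) (fun y hy => ?_)
  · rw [coeff_mul_eq]
    have hyΓ := support_mul_mem hfΓ hgΓ y hy
    exact tendsto_finsetSum _ fun a ha =>
      (h1 a (hfΓ a ha)).mul (h2 _ (Γ.mul_mem (Γ.inv_mem (hfΓ a ha)) hyΓ))
  · have hyΓ := support_mul_mem hfΓ hgΓ y hy
    have h3 : ∀ᶠ n in atTop, ∀ a ∈ f.coeff.support,
        ψ n (a * (a⁻¹ * y)) = ψ n a * ψ n (a⁻¹ * y) :=
      (eventually_all_finset _).mpr fun a ha =>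
        hψ.mul a (hfΓ a ha) _ (Γ.mul_mem (Γ.inv_mem (hfΓ a ha)) hyΓ)
    filter_upwards [h3, hψ.inj _ hfΓ] with n h3 h4
    rw [coeff_mul_eq, Ex_eq_sum (fs n) _ ((fs n).coeff.support ∪ f.coeff.support.image (ψ n))
      Finset.subset_union_left]
    refine le_trans (le_of_eq ?_) (Finset.sum_le_sum_of_subset_of_nonneg
      (s := f.coeff.support.image (ψ n)) Finset.subset_union_right
      fun x _ _ => mul_nonneg ((hfs n).nonneg _) ((hgs n).nonneg _))
    rw [Finset.sum_image h4]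
    refine Finset.sum_congr rfl fun a ha => ?_
    have := h3 a ha
    rw [mul_inv_cancel_left] at this
    rw [this, inv_mul_cancel_left]

lemma conv_one (hψ : Asym Γ ψ) : Conv Γ ψ (fun _ => 1) 1 := by
  refine conv_of_lower hψ (fun _ => isProb_one) isProb_one
    (fun y hy => mem_support_one hy ▸ Γ.one_mem) (fun _ y => (1 : MonoidAlgebra ℝ G).coeff y)
    (fun _ _ => tendsto_const_nhds) fun y hy => ?_
  filter_upwards [hψ.mul 1 Γ.one_mem 1 Γ.one_mem] with n hn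
  rw [mul_one] at hn
  have : ψ n 1 = 1 := by simpa using hn
  rw [mem_support_one hy, this]

lemma Conv.pow (hψ : Asym Γ ψ) {fs : ℕ → MonoidAlgebra ℝ G} {f : MonoidAlgebra ℝ G}
    (hfs : ∀ n, IsProb (fs n)) (hf : IsProb f) (hfΓ : ∀ y ∈ f.coeff.support, y ∈ Γ)
    (h1 : Conv Γ ψ fs f) (m : ℕ) : Conv Γ ψ (fun n => fs n ^ m) (f ^ m) := by
  induction m with
  | zero => simpa using conv_one hψ
  | succ m ih =>
    simp only [pow_succ]
    exact Conv.mul hψ (fun n => (hfs n).pow m) hfs (hf.pow m) hf (support_pow_mem hfΓ m) hfΓ ih h1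

lemma Conv.tendsto_ent {fs : ℕ → MonoidAlgebra ℝ G} {f : MonoidAlgebra ℝ G}
    (hfΓ : ∀ y ∈ f.coeff.support, y ∈ Γ) (h1 : Conv Γ ψ fs f) :
    Tendsto (fun n => ∑ y ∈ f.coeff.support, Real.negMulLog ((fs n).coeff (ψ n y))) atTop
      (𝓝 (Ent f)) :=
  tendsto_finsetSum _ fun y hy => (Real.continuous_negMulLog.tendsto _).comp (h1 y (hfΓ y hy))

lemma Conv.tendsto_mass {fs : ℕ → MonoidAlgebra ℝ G} {f : MonoidAlgebra ℝ G} (hf : IsProb f)
    (hfΓ : ∀ y ∈ f.coeff.support, y ∈ Γ) (h1 : Conv Γ ψ fs f) :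
    Tendsto (fun n => 1 - ∑ y ∈ f.coeff.support, (fs n).coeff (ψ n y)) atTop (𝓝 0) := by
  have := (tendsto_const_nhds (x := (1 : ℝ))).sub
    (tendsto_finsetSum f.coeff.support fun y hy => h1 y (hfΓ y hy))
  rwa [hf.total, sub_self] at this

lemma Conv.ent_le (hψ : Asym Γ ψ) {fs : ℕ → MonoidAlgebra ℝ G} {f : MonoidAlgebra ℝ G}
    (hfs : ∀ n, IsProb (fs n)) (hf : IsProb f) (hfΓ : ∀ y ∈ f.coeff.support, y ∈ Γ)
    (h1 : Conv Γ ψ fs f) {N : ℕ} (hN : ∀ n, (fs n).coeff.support.card ≤ N) {ε : ℝ}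
    (hε : 0 < ε) : ∀ᶠ n in atTop, Ent (fs n) < Ent f + ε := by
  classical
  have hε' : 0 < ε / 2 / (N + 1) := by positivity
  obtain ⟨r, hr, hr'⟩ : ∃ r > 0, ∀ t : ℝ, |t| < r → Real.negMulLog t ≤ ε / 2 / (N + 1) := by
    have := Real.continuous_negMulLog.tendsto 0
    rw [Real.negMulLog_zero] at this
    obtain ⟨r, hr, h⟩ := Metric.eventually_nhds_iff.mp (this.eventually (ge_mem_nhds hε'))
    exact ⟨r, hr, fun t ht => h (by simpa using ht)⟩
  filter_upwards [hψ.inj _ hfΓ,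
    (Conv.tendsto_ent hfΓ h1).eventually (gt_mem_nhds (lt_add_of_pos_right _ (half_pos hε))),
    (Conv.tendsto_mass hf hfΓ h1).eventually (gt_mem_nhds hr)] with n hinj h2 h3
  set T := f.coeff.support.image (ψ n) with hT
  rw [Ent_eq_sum (fs n) ((fs n).coeff.support ∪ T) Finset.subset_union_left,
    ← Finset.sum_sdiff (Finset.subset_union_right (s₁ := (fs n).coeff.support) (s₂ := T))]
  have e1 : ∑ x ∈ T, Real.negMulLog ((fs n).coeff x) =
      ∑ y ∈ f.coeff.support, Real.negMulLog ((fs n).coeff (ψ n y)) := by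
    rw [hT, Finset.sum_image hinj]
  have e2 : ∑ x ∈ T, (fs n).coeff x = ∑ y ∈ f.coeff.support, (fs n).coeff (ψ n y) := by
    rw [hT, Finset.sum_image hinj]
  have h4 : ∑ x ∈ ((fs n).coeff.support ∪ T) \ T, Real.negMulLog ((fs n).coeff x) ≤
      ∑ _x ∈ ((fs n).coeff.support ∪ T) \ T, ε / 2 / (N + 1) := by
    refine Finset.sum_le_sum fun x hx => hr' _ ?_
    rw [abs_of_nonneg ((hfs n).nonneg x)]
    have h5 := (hfs n).sum_le_one (insert x T)
    rw [Finset.sum_insert (Finset.mem_sdiff.mp hx).2] at h5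
    linarith
  rw [Finset.sum_const, nsmul_eq_mul] at h4
  have h6 : ((((fs n).coeff.support ∪ T) \ T).card : ℝ) ≤ N + 1 := by
    have : (((fs n).coeff.support ∪ T) \ T).card ≤ N := by
      refine le_trans (Finset.card_le_card ?_) (hN n)
      intro x hx
      rw [Finset.mem_sdiff, Finset.mem_union] at hx
      tauto
    have : ((((fs n).coeff.support ∪ T) \ T).card : ℝ) ≤ N := by exact_mod_cast this
    linarith
  have h7 : ((((fs n).coeff.support ∪ T) \ T).card : ℝ) * (ε / 2 / (N + 1)) ≤ ε / 2 := by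
    calc _ ≤ (N + 1) * (ε / 2 / (N + 1)) := by gcongr
      _ = ε / 2 := by field_simp
  linarith

/-- Upper semicontinuity. -/
theorem hh_upper (hψ : Asym Γ ψ) {fs : ℕ → MonoidAlgebra ℝ G} {f : MonoidAlgebra ℝ G}
    (hfs : ∀ n, IsProb (fs n)) (hf : IsProb f) (hfΓ : ∀ y ∈ f.coeff.support, y ∈ Γ)
    (h1 : Conv Γ ψ fs f) {N : ℕ} (hN : ∀ n, (fs n).coeff.support.card ≤ N) {c : ℝ}
    (hc : hh f < c) : ∀ᶠ n in atTop, hh (fs n) < c := by
  obtain ⟨m, hm, hm0⟩ :=
    (((tendsto_hh hf).eventually (gt_mem_nhds hc)).and (eventually_gt_atTop 0)).exists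
  have hm' : (0 : ℝ) < m := by exact_mod_cast hm0
  rw [div_lt_iff₀ hm'] at hm
  filter_upwards [Conv.ent_le hψ (fun n => (hfs n).pow m) (hf.pow m) (support_pow_mem hfΓ m)
    (h1.pow hψ hfs hf hfΓ m) (fun n => card_support_pow_le (hN n) m) (sub_pos.mpr hm)] with n hn
  refine (hh_le (hfs n) hm0.ne').trans_lt ?_
  rw [div_lt_iff₀ hm']
  linarith

end Pool.Agent.MP_56e4d4_pr
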