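import Pool.Agent.MP_56e4d4_pr.Entropy

/-!
A walk preserving a finite set whose point stabilisers are commutative has zero entropy.
-/

open Filter Topology Finset

namespace Pool.Agent.MP_56e4d4_pr

lemma comm_growth {C : Type*} [CommGroup C] [DecidableEq C] (U : Finset C) (k : ℕ) :
    ∃ W : Finset C, W.card ≤ (k + 1) ^ U.card ∧
      ∀ l : List C, l.length = k → (∀ u ∈ l, u ∈ U) → l.prod ∈ W := by
  classical
  refine ⟨(Fintype.piFinset fun _ : U => Finset.range (k + 1)).image
    fun e => ∏ u : U, (u : C) ^ e u, ?_, ?_⟩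
  · refine Finset.card_image_le.trans ?_
    simp
  · intro l hl hU
    have key : ∀ l : List C, (∀ u ∈ l, u ∈ U) →
        ∃ e : U → ℕ, (∀ u, e u ≤ l.length) ∧ l.prod = ∏ u : U, (u : C) ^ e u := by
      intro l
      induction l with
      | nil => exact fun _ => ⟨fun _ => 0, by simp, by simp⟩
      | cons a l ih =>
        intro h
        obtain ⟨e, he, hp⟩ := ih fun u hu => h u (List.mem_cons_of_mem _ hu)
        have ha : a ∈ U := h a List.mem_cons_self
        refine ⟨fun u => e u + if u = ⟨a, ha⟩ then 1 else 0, fun u => ?_, ?_⟩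
        · have := he u
          simp only [List.length_cons]
          split_ifs <;> omega
        · simp only [List.prod_cons, hp, pow_add, Finset.prod_mul_distrib, pow_ite, pow_one,
            pow_zero, Finset.prod_ite_eq', Finset.mem_univ, if_true]
          exact mul_comm _ _
    obtain ⟨e, he, hp⟩ := key l hU
    refine Finset.mem_image.mpr ⟨e, ?_, hp.symm⟩
    simp only [Fintype.mem_piFinset, Finset.mem_range]
    intro u
    have := he u
    omega

variable {G X : Type*} [Group G] [MulAction G X]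

lemma tendsto_log_poly (a b : ℕ) (ha : a ≠ 0) :
    Tendsto (fun k : ℕ => Real.log ((a : ℝ) * ((k : ℝ) + 1) ^ b) / k) atTop (𝓝 0) := by
  have ha' : (0 : ℝ) < a := by exact_mod_cast Nat.pos_of_ne_zero ha
  have t1 : Tendsto (fun k : ℕ => Real.log a / k) atTop (𝓝 0) :=
    tendsto_const_div_atTop_nhds_zero_nat _
  have t2 : Tendsto (fun x : ℝ => Real.log x / (x - 1)) atTop (𝓝 0) := by
    have := Real.tendsto_pow_log_div_mul_add_atTop 1 (-1) 1 one_ne_zero
    simpa [sub_eq_add_neg] using this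
  have t3 : Tendsto (fun k : ℕ => (k : ℝ) + 1) atTop atTop :=
    tendsto_atTop_add_const_right _ _ tendsto_natCast_atTop_atTop
  have t4 := t1.add ((t2.comp t3).const_mul (b : ℝ))
  simp only [mul_zero, add_zero] at t4
  refine t4.congr fun k => ?_
  have : (0 : ℝ) < (k : ℝ) + 1 := by positivity
  rw [Real.log_mul ha'.ne' (by positivity), Real.log_pow]
  simp only [Function.comp, add_sub_cancel_right]
  ring

theorem hh_eq_zero_of_invariant (μ : MonoidAlgebra ℝ G) (hμ : IsProb μ) (Γ : Subgroup G)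
    (hΓ : ∀ s ∈ μ.coeff.support, s ∈ Γ)
    (hcomm : ∀ p : X, ∀ g ∈ Γ, ∀ h ∈ Γ, g • p = p → h • p = p → g * h = h * g)
    (F : Finset X) (hF : F.Nonempty) (hinv : ∀ s ∈ μ.coeff.support, ∀ p ∈ F, s⁻¹ • p ∈ F) :
    hh μ = 0 := by
  classical
  obtain ⟨p₀, hp₀⟩ := hF
  have hinv' : ∀ s ∈ μ.coeff.support, ∀ p ∈ F, s • p ∈ F := by
    intro s hs p hp
    have hsurj : Set.SurjOn (fun q => s⁻¹ • q) (F : Set X) F :=
      (Finset.surjOn_of_injOn_of_card_le (fun q => s⁻¹ • q) (fun q hq => hinv s hs q hq)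
        (MulAction.injective s⁻¹).injOn le_rfl)
    obtain ⟨q, hq, hqp⟩ := hsurj hp
    have : s • p = q := by rw [← hqp]; simp
    rw [this]
    exact hq
  set C : Subgroup G := Γ ⊓ MulAction.stabilizer G p₀ with hC
  let _ : CommGroup C :=
    { (inferInstance : Group C) with
      mul_comm := fun a b => Subtype.ext (hcomm p₀ a a.2.1 b b.2.1 a.2.2 b.2.2) }
  have ht : ∀ q : X, ∃ t ∈ Γ, (∃ g ∈ Γ, g • p₀ = q) → t • p₀ = q := by
    intro q
    by_cases h : ∃ g ∈ Γ, g • p₀ = q
    · obtain ⟨g, hg, hq⟩ := h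
      exact ⟨g, hg, fun _ => hq⟩
    · exact ⟨1, Γ.one_mem, fun h' => absurd h' h⟩
  choose t htΓ ht using ht
  set v : G → X → C := fun s q =>
    if h : (t (s • q))⁻¹ * s * t q ∈ C then ⟨_, h⟩ else 1 with hv
  set U : Finset C := (μ.coeff.support ×ˢ F).image fun sq => v sq.1 sq.2 with hU
  have key : ∀ k : ℕ, ∀ x ∈ (μ ^ k).coeff.support, x ∈ Γ ∧ x • p₀ ∈ F ∧
      ∃ l : List C, l.length = k ∧ (∀ u ∈ l, u ∈ U) ∧ x * t p₀ = t (x • p₀) * (l.prod : C) := by
    intro k
    induction k with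
    | zero =>
      intro x hx
      have : x = 1 := by
        rw [pow_zero, MonoidAlgebra.one_def, MonoidAlgebra.coeff_single] at hx
        simpa using Finsupp.support_single_subset hx
      subst this
      exact ⟨Γ.one_mem, by simpa using hp₀, [], rfl, by simp, by simp⟩
    | succ k ih =>
      intro x hx
      rw [pow_succ'] at hx
      obtain ⟨s, hs, y, hy, rfl⟩ := mem_support_mul hx
      obtain ⟨hyΓ, hyF, l, hl, hlU, hprod⟩ := ih y hy
      have hsΓ := hΓ s hs
      refine ⟨Γ.mul_mem hsΓ hyΓ, by rw [mul_smul]; exact hinv' s hs _ hyF,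
        v s (y • p₀) :: l, by simp [hl], ?_, ?_⟩
      · intro u hu
        rcases List.mem_cons.mp hu with rfl | hu
        · exact Finset.mem_image.mpr ⟨(s, y • p₀), Finset.mem_product.mpr ⟨hs, hyF⟩, rfl⟩
        · exact hlU u hu
      · have h1 : t (y • p₀) • p₀ = y • p₀ := ht _ ⟨y, hyΓ, rfl⟩
        have h2 : t (s • y • p₀) • p₀ = s • y • p₀ :=
          ht _ ⟨s * y, Γ.mul_mem hsΓ hyΓ, mul_smul _ _ _⟩
        have hmem : (t (s • y • p₀))⁻¹ * s * t (y • p₀) ∈ C := by
          refine ⟨Γ.mul_mem (Γ.mul_mem (Γ.inv_mem (htΓ _)) hsΓ) (htΓ _), ?_⟩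
          change ((t (s • y • p₀))⁻¹ * s * t (y • p₀)) • p₀ = p₀
          rw [mul_smul, mul_smul, h1, inv_smul_eq_iff, h2]
        have h3 : (v s (y • p₀) : G) = (t (s • y • p₀))⁻¹ * s * t (y • p₀) := by
          simp only [hv, dif_pos hmem]
        rw [List.prod_cons, Subgroup.coe_mul, h3, mul_assoc s y, hprod, mul_smul]
        group
  have hcard : ∀ k : ℕ, ((μ ^ k).coeff.support.card : ℝ) ≤ F.card * ((k : ℝ) + 1) ^ U.card := by
    intro k
    obtain ⟨W, hW, hWmem⟩ := comm_growth U k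
    have h1 : (μ ^ k).coeff.support ⊆
        (F ×ˢ W).image fun qw => t qw.1 * (qw.2 : G) * (t p₀)⁻¹ := by
      intro x hx
      obtain ⟨-, hxF, l, hl, hlU, hprod⟩ := key k x hx
      refine Finset.mem_image.mpr ⟨(x • p₀, l.prod), Finset.mem_product.mpr
        ⟨hxF, hWmem l hl hlU⟩, ?_⟩
      simp only
      rw [← hprod]
      group
    have h2 := (Finset.card_le_card h1).trans Finset.card_image_le
    rw [Finset.card_product] at h2
    have h3 : (μ ^ k).coeff.support.card ≤ F.card * (k + 1) ^ U.card :=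
      h2.trans (Nat.mul_le_mul_left _ hW)
    exact_mod_cast h3
  refine le_antisymm ?_ (hh_nonneg hμ)
  refine le_of_tendsto_of_tendsto' (tendsto_hh hμ)
    (tendsto_log_poly F.card U.card (Finset.card_ne_zero.mpr ⟨p₀, hp₀⟩)) fun k => ?_
  exact div_le_div_of_nonneg_right ((hμ.pow k).Ent_le_log_card (hcard k)) (Nat.cast_nonneg k)

end Pool.Agent.MP_56e4d4_pr
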