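import Pool.Agent.MP_56e4d4_pr.Proj
import Pool.Agent.MP_56e4d4_pr.Atoms
import Pool.Agent.MP_56e4d4_pr.Elementary
import Pool.Agent.MP_56e4d4_pr.Conv

/-!
Lower semicontinuity of the asymptotic entropy.
-/

open Filter Topology Finset
open scoped MatrixGroups

namespace Pool.Agent.MP_56e4d4_pr

variable {Γ : Subgroup PSL(2, ℝ)} {ψ : ℕ → PSL(2, ℝ) → PSL(2, ℝ)}

open Classical in
lemma nonconcentration (hψ : Asym Γ ψ) (hψt : ∀ y ∈ Γ, Tendsto (fun n => ψ n y) atTop (𝓝 y))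
    {fs : ℕ → MonoidAlgebra ℝ PSL(2, ℝ)} {f : MonoidAlgebra ℝ PSL(2, ℝ)}
    (hfs : ∀ n, IsProb (fs n)) (hf : IsProb f) (hfΓ : ∀ y ∈ f.coeff.support, y ∈ Γ)
    (h1 : Conv Γ ψ fs f)
    (hne : ¬ ∃ F : Finset P1, F.Nonempty ∧ ∀ s ∈ f.coeff.support, ∀ p ∈ F, s⁻¹ • p ∈ F)
    (ξ : P1) {η : ℝ} (hη : 0 < η) :
    ∃ δ > 0, ∀ᶠ n in atTop, ∀ᶠ K in atTop, ∀ u : P1,
      Ex (ces (fs n) K) (fun y => if dd (y • ξ) u < δ then 1 else 0) ≤ η := by
  by_contra hcon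
  apply hne
  have h2 : ∀ j : ℕ, ∃ n ≥ j, ∃ K ≥ j + 1, ∃ u : P1,
      η ≤ Ex (ces (fs n) K) (fun y => if dd (y • ξ) u < 1 / ((j : ℝ) + 1) then 1 else 0) := by
    intro j
    by_contra h3
    apply hcon
    refine ⟨1 / ((j : ℝ) + 1), by positivity, ?_⟩
    filter_upwards [eventually_ge_atTop j] with n hn
    filter_upwards [eventually_ge_atTop (j + 1)] with K hK u
    by_contra h4
    exact h3 ⟨n, hn, K, hK, u, (not_le.mp h4).le⟩
  choose n hn K hK u hu using h2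
  have hn' : Tendsto n atTop atTop := tendsto_atTop_mono hn tendsto_id
  have hK0 : ∀ j, K j ≠ 0 := fun j => by have := hK j; omega
  refine exists_finite_invariant dd dd_symm dd_tri dd_pos dd_cpt ξ f hf (fun j => fs (n j))
    (fun j => ces (fs (n j)) (K j)) (fun j => hfs _) (fun j => isProb_ces (hfs _) (hK0 j))
    (fun j => 1 / (K j : ℝ)) ?_ (fun j φ h0 h1 => Ex_ces_le (hfs _) (hK0 j) φ h0 h1)
    (fun j => ψ (n j)) (fun s hs => (h1 s (hfΓ s hs)).comp hn') (hn'.eventually (hψ.inj _ hfΓ))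
    (fun s hs p ρ hρ => smul_cont ((hψt s (hfΓ s hs)).comp hn') p ρ hρ) hη u
    (fun j => 1 / ((j : ℝ) + 1)) tendsto_one_div_add_atTop_nhds_zero_nat hu
  exact (tendsto_const_div_atTop_nhds_zero_nat (1 : ℝ)).comp
    (tendsto_atTop_mono (fun j => (Nat.le_succ j).trans (hK j)) tendsto_id)

lemma NN_pow_le {f : MonoidAlgebra ℝ PSL(2, ℝ)} {b : ℕ}
    (hb : ∀ s ∈ f.coeff.support, NN s ≤ 2 ^ b) (m : ℕ) :
    ∀ y ∈ (f ^ m).coeff.support, NN y ≤ 2 ^ (b * m + 1) := by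
  induction m with
  | zero =>
    intro y hy
    rw [pow_zero] at hy
    rw [mem_support_one hy, ← QuotientGroup.mk_one, NN_mk]
    norm_num [Nm]
  | succ m ih =>
    intro y hy
    rw [pow_succ] at hy
    obtain ⟨a, ha, c, hc, rfl⟩ := mem_support_mul hy
    refine (NN_mul a c).trans ?_
    have := one_le_NN c
    calc NN a * NN c ≤ 2 ^ (b * m + 1) * 2 ^ b := by
          gcongr
          · exact ih a ha
          · exact hb c hc
      _ = _ := by ring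

open Classical in
lemma card_good_le (A₀ B : Finset PSL(2, ℝ)) (σ : PSL(2, ℝ) → PSL(2, ℝ)) {θ : ℝ} (hθ : 0 < θ)
    (k : ℕ) (hk : ∀ y ∈ A₀, NN (σ y) < 2 ^ k)
    (hB : ∀ y ∈ A₀, ∀ y' ∈ A₀, NN ((σ y)⁻¹ * σ y') ≤ 16 / θ → y⁻¹ * y' ∈ B) (ξ : P1)
    (z : PSL(2, ℝ)) :
    ((A₀.image σ).filter fun x => θ * NN x ≤ str x ((x⁻¹ * z) • ξ)).card ≤ k * B.card := by
  have hsub : ((A₀.image σ).filter fun x => θ * NN x ≤ str x ((x⁻¹ * z) • ξ)) ⊆
      (Finset.range k).biUnion fun r => (A₀.image σ).filter fun x =>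
        θ * NN x ≤ str x ((x⁻¹ * z) • ξ) ∧ 2 ^ r ≤ NN x ∧ NN x < 2 ^ (r + 1) := by
    intro x hx
    rw [Finset.mem_filter] at hx
    obtain ⟨r, hr1, hr2⟩ := exists_nat_pow_near (one_le_NN x) (one_lt_two (α := ℝ))
    refine Finset.mem_biUnion.mpr ⟨r, ?_, Finset.mem_filter.mpr ⟨hx.1, hx.2, hr1, hr2⟩⟩
    obtain ⟨y, hy, rfl⟩ := Finset.mem_image.mp hx.1
    exact Finset.mem_range.mpr
      ((pow_lt_pow_iff_right₀ (one_lt_two (α := ℝ))).mp (hr1.trans_lt (hk y hy)))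
  refine (Finset.card_le_card hsub).trans ?_
  refine (Finset.card_biUnion_le_card_mul _ _ B.card fun r _ => ?_).trans (by simp)
  rcases ((A₀.image σ).filter fun x =>
        θ * NN x ≤ str x ((x⁻¹ * z) • ξ) ∧ 2 ^ r ≤ NN x ∧ NN x < 2 ^ (r + 1)).eq_empty_or_nonempty
    with h | ⟨x₀, hx₀⟩
  · simp [h]
  · rw [Finset.mem_filter] at hx₀
    obtain ⟨y₀, hy₀, rfl⟩ := Finset.mem_image.mp hx₀.1
    refine le_trans (Finset.card_le_card (t := B.image fun h => σ (y₀ * h)) ?_)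
      Finset.card_image_le
    intro x hx
    rw [Finset.mem_filter] at hx
    obtain ⟨y, hy, rfl⟩ := Finset.mem_image.mp hx.1
    refine Finset.mem_image.mpr ⟨y₀⁻¹ * y, hB y₀ hy₀ y hy ?_, by simp⟩
    obtain ⟨-, a1, a2, a3⟩ := hx₀
    obtain ⟨-, b1, b2, b3⟩ := hx
    rw [pow_succ] at a3 b3
    refine good_count hθ a1 b1 ?_ (by linarith) (by linarith)
    simp [← mul_smul]

open Classical in
lemma bad_le {ν : MonoidAlgebra ℝ PSL(2, ℝ)} (hν : IsProb ν) (ξ : P1) {δ η : ℝ} (hη : 0 ≤ η)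
    (hK : ∀ u : P1, Ex ν (fun y => if dd (y • ξ) u < δ then 1 else 0) ≤ η) (x : PSL(2, ℝ)) :
    Ex ν (fun y => if ¬ (δ / 2 * NN x ≤ str x ((x⁻¹ * (x * y)) • ξ)) then 1 else 0) ≤ η := by
  by_cases hq : ∃ q, str x q < δ / 2 * NN x
  · obtain ⟨q, hq⟩ := hq
    refine le_trans (Ex_mono hν.nonneg fun y _ => ?_) (hK q)
    rw [inv_mul_cancel_left]
    by_cases h2 : δ / 2 * NN x ≤ str x (y • ξ)
    · simp only [h2, not_true, if_false]
      split_ifs <;> norm_num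
    · have h3 := bad_close (not_le.mp h2) hq
      rw [mul_div_cancel₀ _ two_ne_zero] at h3
      simp [h2, h3]
  · push Not at hq
    refine hν.Ex_le fun y _ => ?_
    simp [hq, hη]

theorem hh_lower [DiscreteTopology Γ] (hψ : Asym Γ ψ)
    (hψt : ∀ y ∈ Γ, Tendsto (fun n => ψ n y) atTop (𝓝 y))
    {fs : ℕ → MonoidAlgebra ℝ PSL(2, ℝ)} {f : MonoidAlgebra ℝ PSL(2, ℝ)}
    (hfs : ∀ n, IsProb (fs n)) (hf : IsProb f) (hfΓ : ∀ y ∈ f.coeff.support, y ∈ Γ)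
    (h1 : Conv Γ ψ fs f) {c : ℝ} (hc : c < hh f) : ∀ᶠ n in atTop, c < hh (fs n) := by
  classical
  by_cases hel : ∃ F : Finset P1, F.Nonempty ∧ ∀ s ∈ f.coeff.support, ∀ p ∈ F, s⁻¹ • p ∈ F
  · obtain ⟨F, hF, hinv⟩ := hel
    rw [hh_eq_zero_of_invariant f hf Γ hfΓ (stab_comm Γ) F hF hinv] at hc
    exact Eventually.of_forall fun n => hc.trans_le (hh_nonneg (hfs n))
  obtain ⟨ε, hε⟩ : ∃ ε, ε = hh f - c := ⟨_, rfl⟩
  have hε0 : 0 < ε := by linarith
  obtain ⟨s₀, hs₀⟩ : ∃ s₀, s₀ = f.coeff.support.card := ⟨_, rfl⟩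
  have hs₀1 : (1 : ℝ) ≤ s₀ := by
    have := hf.support_nonempty.card_pos
    rw [hs₀]; exact_mod_cast this
  have hL : 0 < Real.log (2 * s₀) := Real.log_pos (by linarith)
  obtain ⟨ξ⟩ : Nonempty P1 := ⟨Projectivization.mk ℝ ![1, 0] (by simp)⟩
  obtain ⟨η, hη⟩ : ∃ η, η = ε / (4 * Real.log (2 * s₀)) := ⟨_, rfl⟩
  have hη0 : 0 < η := by rw [hη]; positivity
  obtain ⟨δ, hδ, hNC⟩ := nonconcentration hψ hψt hfs hf hfΓ h1 hel ξ hη0
  have hθ : 0 < δ / 2 := half_pos hδ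
  obtain ⟨B, hBdef⟩ : ∃ B, B = (finite_ball Γ (16 / (δ / 2) + 1)).toFinset := ⟨_, rfl⟩
  obtain ⟨b, hb⟩ : ∃ b : ℕ, ∀ s ∈ f.coeff.support, NN s ≤ 2 ^ b := by
    have : ∀ᶠ b : ℕ in atTop, ∀ s ∈ f.coeff.support, NN s ≤ 2 ^ b :=
      (eventually_all_finset _).mpr fun s _ =>
        (tendsto_pow_atTop_atTop_of_one_lt (one_lt_two (α := ℝ))).eventually_ge_atTop _
    exact this.exists
  obtain ⟨m, hm, hm0⟩ := (((tendsto_log_poly (2 * ((b + 2) * (B.card + 1))) 1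
    (by positivity)).eventually (gt_mem_nhds (show 0 < ε / 4 by positivity))).and
      (eventually_gt_atTop 0)).exists
  have hm' : (1 : ℝ) ≤ m := by exact_mod_cast hm0
  rw [div_lt_iff₀ (by linarith)] at hm
  have hA₀ := support_pow_mem hfΓ m
  have hconv := h1.pow hψ hfs hf hfΓ m
  have e1 : ∀ᶠ n in atTop, ∀ y ∈ (f ^ m).coeff.support, NN (ψ n y) < 2 ^ (b * m + 2) := by
    refine (eventually_all_finset _).mpr fun y hy => ?_
    refine ((continuous_NN.tendsto y).comp (hψt y (hA₀ y hy))).eventually (gt_mem_nhds ?_)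
    refine (NN_pow_le hb m y hy).trans_lt ?_
    exact pow_lt_pow_right₀ one_lt_two (by omega)
  have e2 : ∀ᶠ n in atTop, ∀ y ∈ (f ^ m).coeff.support, ∀ y' ∈ (f ^ m).coeff.support,
      NN (y⁻¹ * y') - 1 < NN ((ψ n y)⁻¹ * ψ n y') := by
    refine (eventually_all_finset _).mpr fun y hy => (eventually_all_finset _).mpr fun y' hy' => ?_
    exact ((continuous_NN.tendsto _).comp
      ((hψt y (hA₀ y hy)).inv.mul (hψt y' (hA₀ y' hy')))).eventually (lt_mem_nhds (by linarith))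
  filter_upwards [hNC, e1, e2, hψ.inj _ hA₀,
    (Conv.tendsto_ent hA₀ hconv).eventually
      (lt_mem_nhds (show Ent (f ^ m) - ε / 8 < Ent (f ^ m) by linarith)),
    (Conv.tendsto_mass (hf.pow m) hA₀ hconv).eventually
      (gt_mem_nhds (show 0 < ε / 8 by positivity))] with n hNC e1 e2 hinj e3 e4
  have hcount := card_good_le (f ^ m).coeff.support B (ψ n) hθ (b * m + 2) e1 (by
    intro y hy y' hy' h
    rw [hBdef, Set.Finite.mem_toFinset]
    exact ⟨Γ.mul_mem (Γ.inv_mem (hA₀ y hy)) (hA₀ y' hy'), by linarith [e2 y hy y' hy']⟩) ξ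
  have key := hh_ge_count (hfs n) m ((f ^ m).coeff.support.image (ψ n))
    (fun x z => δ / 2 * NN x ≤ str x ((x⁻¹ * z) • ξ))
    (N := (((b + 2) * (B.card + 1) : ℕ) : ℝ) * ((m : ℝ) + 1)) (M := (s₀ : ℝ) ^ m) (η := η)
    (by
      have : (1 : ℝ) ≤ (((b + 2) * (B.card + 1) : ℕ) : ℝ) := by
        exact_mod_cast Nat.succ_le_of_lt (by positivity)
      nlinarith)
    (one_le_pow₀ hs₀1) hη0.le
    (by
      have := (Finset.card_image_le (f := ψ n)).trans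
        (card_support_pow_le (f := f) (N := s₀) hs₀.ge m)
      exact_mod_cast this)
    (by
      intro z
      have h2 : (b * m + 2) * B.card ≤ (b + 2) * (B.card + 1) * (m + 1) := by
        nlinarith [Nat.zero_le b, Nat.zero_le m, Nat.zero_le B.card, Nat.zero_le (b * m),
          Nat.zero_le (b * B.card), Nat.zero_le (m * B.card)]
      have h3 := (hcount z).trans h2
      have h4 := (Nat.cast_le (α := ℝ)).mpr h3
      rw [Nat.cast_mul _ (m + 1), Nat.cast_add m 1, Nat.cast_one] at h4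
      convert h4)
    (by
      filter_upwards [hNC, eventually_gt_atTop 0] with K hK hK0 x _
      exact bad_le (isProb_ces (hfs n) hK0.ne') ξ hη0.le hK x)
  rw [Finset.sum_image hinj, Finset.sum_image hinj] at key
  have t1 : Real.log (2 * (s₀ : ℝ) ^ m) ≤ m * Real.log (2 * s₀) := by
    rw [← Real.log_pow, mul_pow]
    refine Real.log_le_log (by positivity) ?_
    gcongr
    exact le_self_pow₀ one_le_two hm0.ne'
  have t2 : Real.log (2 * (s₀ : ℝ) ^ m) * η ≤ m * (ε / 4) := by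
    refine (mul_le_mul_of_nonneg_right t1 hη0.le).trans (le_of_eq ?_)
    rw [hη]
    field_simp
  have t3 : Real.log (2 * ((((b + 2) * (B.card + 1) : ℕ) : ℝ) * ((m : ℝ) + 1))) < ε / 4 * m := by
    rw [pow_one, Nat.cast_mul 2, Nat.cast_ofNat, mul_assoc] at hm
    exact hm
  have t4 := hh_le hf hm0.ne'
  rw [le_div_iff₀ (by linarith)] at t4
  by_contra hcon
  push Not at hcon
  have t5 : (m : ℝ) * hh (fs n) ≤ m * c := mul_le_mul_of_nonneg_left hcon (by linarith)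
  have t6 : ε * 1 ≤ ε * m := mul_le_mul_of_nonneg_left hm' hε0.le
  have t7 : hh f * m = m * c + ε * m := by rw [hε]; ring
  linarith

end Pool.Agent.MP_56e4d4_pr
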