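import Pool.Agent.MP_56e4d4_pr.Defs
import Pool.Agent.MP_56e4d4_pr.Lower

/-!
From probability mass functions to the group algebra, and the two semicontinuity theorems.
-/

open Filter Topology Finset
open scoped MatrixGroups

set_option linter.unusedSectionVars false

namespace Pool.Agent.MP_56e4d4_pr

section General

variable {G : Type*} [Group G]

/-- `f` represents `μ`. -/
def Rep (μ : PMF G) (f : MonoidAlgebra ℝ G) : Prop := ∀ x, μ x = ENNReal.ofReal (f.coeff x)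

lemma exists_rep (μ : PMF G) (S : Finset G) (h : μ.support ⊆ (S : Set G)) :
    ∃ f : MonoidAlgebra ℝ G, IsProb f ∧ Rep μ f ∧ f.coeff.support ⊆ S := by
  classical
  have hz : ∀ x, x ∉ S → μ x = 0 := fun x hx => by
    by_contra h'
    exact hx (h ((PMF.mem_support_iff μ x).mpr h'))
  set f : MonoidAlgebra ℝ G := .ofCoeff (Finsupp.onFinset S (fun x => (μ x).toReal)
    fun x hx => by
      by_contra h'
      exact hx (by simp [hz x h'])) with hf
  have hc : ∀ x, f.coeff x = (μ x).toReal := fun x => rfl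
  have hsub : f.coeff.support ⊆ S := fun x hx => by
    by_contra h'
    exact Finsupp.mem_support_iff.mp hx (by simp [hc, hz x h'])
  refine ⟨f, ⟨fun x => ENNReal.toReal_nonneg, ?_⟩,
    fun x => by rw [hc, ENNReal.ofReal_toReal (μ.apply_ne_top x)], hsub⟩
  rw [Finset.sum_subset hsub fun x _ hx => Finsupp.notMem_support_iff.mp hx]
  simp only [hc]
  have h1 : ∑' x, μ x = ∑ x ∈ S, μ x := tsum_eq_sum hz
  rw [← ENNReal.toReal_sum fun x _ => μ.apply_ne_top x, ← h1, μ.tsum_coe]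
  rfl

lemma exists_pmf (f : MonoidAlgebra ℝ G) (hf : IsProb f) : ∃ μ : PMF G, Rep μ f := by
  refine ⟨PMF.ofFinset (fun x => ENNReal.ofReal (f.coeff x)) f.coeff.support ?_ ?_, fun x => rfl⟩
  · rw [← ENNReal.ofReal_sum_of_nonneg fun x _ => hf.nonneg x, hf.total, ENNReal.ofReal_one]
  · intro x hx
    rw [Finsupp.notMem_support_iff.mp hx, ENNReal.ofReal_zero]

lemma Rep.support_eq {μ : PMF G} {f : MonoidAlgebra ℝ G} (h : Rep μ f) (hf : IsProb f) :
    μ.support = (f.coeff.support : Set G) := by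
  ext x
  rw [PMF.mem_support_iff, h x, Finset.mem_coe, Finsupp.mem_support_iff, Ne,
    ENNReal.ofReal_eq_zero, not_le]
  exact ⟨fun h => h.ne', fun h => lt_of_le_of_ne (hf.nonneg x) (Ne.symm h)⟩

lemma Rep.toReal {μ : PMF G} {f : MonoidAlgebra ℝ G} (h : Rep μ f) (hf : IsProb f) (x : G) :
    (μ x).toReal = f.coeff x := by
  rw [h x, ENNReal.toReal_ofReal (hf.nonneg x)]

lemma Rep.convPow {μ : PMF G} {f : MonoidAlgebra ℝ G} (h : Rep μ f) (hf : IsProb f) (k : ℕ) :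
    Rep (convPow μ k) (f ^ k) := by
  classical
  induction k with
  | zero =>
    intro x
    rw [pow_zero, MonoidAlgebra.one_def, MonoidAlgebra.coeff_single, Finsupp.single_apply,
      MP_56e4d4_pr.convPow, PMF.pure_apply]
    by_cases hx : x = 1
    · simp [hx]
    · simp [hx, Ne.symm hx]
  | succ k ih =>
    intro x
    have h1 : ∀ a, (μ.map fun b => a * b) x = μ (a⁻¹ * x) := by
      intro a
      rw [PMF.map_apply, tsum_eq_single (a⁻¹ * x)]
      · simp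
      · intro b hb
        rw [if_neg]
        rintro rfl
        simp at hb
    rw [MP_56e4d4_pr.convPow, PMF.bind_apply, pow_succ, coeff_mul_eq, Ex,
      ENNReal.ofReal_sum_of_nonneg fun a _ => mul_nonneg ((hf.pow k).nonneg a) (hf.nonneg _),
      tsum_eq_sum (s := (f ^ k).coeff.support)]
    · refine Finset.sum_congr rfl fun a _ => ?_
      rw [h1, ih a, h, ENNReal.ofReal_mul ((hf.pow k).nonneg a)]
    · intro a ha
      rw [ih a, Finsupp.notMem_support_iff.mp ha]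
      simp

lemma Rep.shannon_eq {μ : PMF G} {f : MonoidAlgebra ℝ G} (h : Rep μ f) (hf : IsProb f) :
    shannon μ = Ent f := by
  unfold shannon Ent
  simp only [h.toReal hf]
  refine tsum_eq_sum fun x hx => ?_
  rw [Finsupp.notMem_support_iff.mp hx, Real.negMulLog_zero]

lemma Rep.avez_eq {μ : PMF G} {f : MonoidAlgebra ℝ G} (h : Rep μ f) (hf : IsProb f) :
    avez μ = hh f := by
  unfold avez hh
  simp only [(h.convPow hf _).shannon_eq (hf.pow _)]

end General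

lemma exists_asym {Γs : ℕ → Subgroup PSL(2, ℝ)} {Γ : Subgroup PSL(2, ℝ)}
    {Ss : ℕ → Finset PSL(2, ℝ)} {S : Finset PSL(2, ℝ)} {μs : ℕ → PMF PSL(2, ℝ)}
    {μ : PMF PSL(2, ℝ)} (D : IsData Γs Γ Ss S μs μ) :
    ∃ (ψ : ℕ → PSL(2, ℝ) → PSL(2, ℝ)) (fs : ℕ → MonoidAlgebra ℝ PSL(2, ℝ))
      (f : MonoidAlgebra ℝ PSL(2, ℝ)), Asym Γ ψ ∧
      (∀ y ∈ Γ, Tendsto (fun n => ψ n y) atTop (𝓝 y)) ∧ (∀ n, IsProb (fs n)) ∧ IsProb f ∧
      (∀ y ∈ f.coeff.support, y ∈ Γ) ∧ Conv Γ ψ fs f ∧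
      (∀ n, (fs n).coeff.support ⊆ Ss n) ∧ (∀ n, avez (μs n) = hh (fs n)) ∧ avez μ = hh f := by
  classical
  have := D.discrete_lim
  have h1 : ∀ y : PSL(2, ℝ), ∃ a : ℕ → PSL(2, ℝ), (∀ n, a n ∈ Γs n) ∧
      (y ∈ Γ → Tendsto a atTop (𝓝 y)) := by
    intro y
    by_cases hy : y ∈ Γ
    · obtain ⟨a, ha, ha'⟩ := D.conv_group.1 y hy
      exact ⟨a, ha, fun _ => ha'⟩
    · exact ⟨fun _ => 1, fun n => (Γs n).one_mem, fun h => absurd h hy⟩
  choose a ha ha' using h1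
  have hUD : ∀ (u v : ℕ → PSL(2, ℝ)) (y : PSL(2, ℝ)), (∀ n, u n ∈ Γs n) → (∀ n, v n ∈ Γs n) →
      Tendsto u atTop (𝓝 y) → Tendsto v atTop (𝓝 y) → ∀ᶠ n in atTop, u n = v n := by
    intro u v y hu hv hu' hv'
    have h2 := hu'.inv.mul hv'
    rw [inv_mul_cancel] at h2
    filter_upwards [eventually_eq_one Γ Γs D.conv_group.2 _
      (fun n => (Γs n).mul_mem ((Γs n).inv_mem (hu n)) (hv n)) h2] with n hn
    exact inv_mul_eq_one.mp hn
  have hasym : Asym Γ fun n y => a y n := by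
    refine ⟨fun y hy y' hy' => hUD _ _ (y * y') (ha _)
      (fun n => (Γs n).mul_mem (ha y n) (ha y' n)) (ha' _ (Γ.mul_mem hy hy'))
      ((ha' y hy).mul (ha' y' hy')), fun T hT => ?_⟩
    have h3 : ∀ᶠ n in atTop, ∀ y ∈ T, ∀ y' ∈ T, y ≠ y' → a y n ≠ a y' n := by
      refine (eventually_all_finset _).mpr fun y hy => (eventually_all_finset _).mpr fun y' hy' => ?_
      by_cases h : y = y'
      · simp [h]
      · have h4 := ((ha' y (hT y hy)).inv.mul (ha' y' (hT y' hy'))).eventually_ne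
          (show y⁻¹ * y' ≠ 1 from fun e => h (inv_mul_eq_one.mp e))
        filter_upwards [h4] with n hn _ e
        exact hn (inv_mul_eq_one.mpr e)
    filter_upwards [h3] with n hn y hy y' hy' e
    by_contra h
    exact hn y hy y' hy' h e
  choose fs hfs hrep hsub using fun n => exists_rep (μs n) (Ss n) (D.supp_seq n)
  obtain ⟨f, hf, hrepf, hsubf⟩ := exists_rep μ S D.supp_lim
  have hfΓ : ∀ y ∈ f.coeff.support, y ∈ Γ := fun y hy =>
    D.gen_lim ▸ Subgroup.subset_closure (hsubf hy)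
  refine ⟨fun n y => a y n, fs, f, hasym, ha', hfs, hf, hfΓ, ?_, hsub,
    fun n => (hrep n).avez_eq (hfs n), hrepf.avez_eq hf⟩
  refine conv_of_lower hasym hfs hf hfΓ (fun n y => (fs n).coeff (a y n)) (fun y hy => ?_)
    fun y _ => Eventually.of_forall fun n => le_rfl
  obtain ⟨s, hs, hs'⟩ := D.conv_gen.1 y (hsubf hy)
  have h5 := (ENNReal.tendsto_toReal (μ.apply_ne_top y)).comp
    (D.conv_weight s y hs (hsubf hy) hs')
  rw [hrepf.toReal hf] at h5
  refine h5.congr' ?_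
  filter_upwards [hUD s (a y) y (fun n => D.gen_seq n ▸ Subgroup.subset_closure (hs n)) (ha y) hs'
    (ha' y (hfΓ y hy))] with n hn
  simp only [Function.comp]
  rw [(hrep n).toReal (hfs n), hn]

theorem avez_lower {Γs : ℕ → Subgroup PSL(2, ℝ)} {Γ : Subgroup PSL(2, ℝ)}
    {Ss : ℕ → Finset PSL(2, ℝ)} {S : Finset PSL(2, ℝ)} {μs : ℕ → PMF PSL(2, ℝ)}
    {μ : PMF PSL(2, ℝ)} (D : IsData Γs Γ Ss S μs μ) {c : ℝ} (hc : c < avez μ) :
    ∀ᶠ n in atTop, c < avez (μs n) := by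
  obtain ⟨ψ, fs, f, h1, h2, h3, h4, h5, h6, -, h8, h9⟩ := exists_asym D
  have := D.discrete_lim
  simp only [h8]
  exact hh_lower h1 h2 h3 h4 h5 h6 (h9 ▸ hc)

theorem avez_upper {Γs : ℕ → Subgroup PSL(2, ℝ)} {Γ : Subgroup PSL(2, ℝ)}
    {Ss : ℕ → Finset PSL(2, ℝ)} {S : Finset PSL(2, ℝ)} {μs : ℕ → PMF PSL(2, ℝ)}
    {μ : PMF PSL(2, ℝ)} (D : IsData Γs Γ Ss S μs μ) {N : ℕ} (hN : ∀ n, (Ss n).card ≤ N)
    {c : ℝ} (hc : avez μ < c) : ∀ᶠ n in atTop, avez (μs n) < c := by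
  obtain ⟨ψ, fs, f, h1, -, h3, h4, h5, h6, h7, h8, h9⟩ := exists_asym D
  simp only [h8]
  exact hh_upper h1 h3 h4 h5 h6 (fun n => (Finset.card_le_card (h7 n)).trans (hN n)) (h9 ▸ hc)

end Pool.Agent.MP_56e4d4_pr
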