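import Mathlib

/-!
Definitions for MP_56e4d4_pr: geometric convergence, lattices, convolution powers,
Shannon entropy, asymptotic (Avez) entropy and the data of the problem.
-/

open Filter Topology MeasureTheory
open scoped MatrixGroups UpperHalfPlane

namespace Pool.Agent.MP_56e4d4_pr

/-- Geometric (Chabauty) convergence of a sequence of sets `A n` to `B`. -/
def GeomConv {X : Type*} [TopologicalSpace X] (A : ℕ → Set X) (B : Set X) : Prop :=
  (∀ b ∈ B, ∃ a : ℕ → X, (∀ n, a n ∈ A n) ∧ Tendsto a atTop (𝓝 b)) ∧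
  (∀ (φ : ℕ → ℕ) (a : ℕ → X) (b : X), StrictMono φ → (∀ k, a k ∈ A (φ k)) →
    Tendsto a atTop (𝓝 b) → b ∈ B)

/-- A lattice of `PSL(2, ℝ)`: a discrete subgroup such that a measurable set of finite
hyperbolic area meets every orbit in the upper half plane. -/
def IsLattice (Γ : Subgroup PSL(2, ℝ)) : Prop :=
  DiscreteTopology Γ ∧
    ∃ F : Set ℍ, MeasurableSet F ∧ volume F < ⊤ ∧
      ∀ z : ℍ, ∃ g : SL(2, ℝ), (g : PSL(2, ℝ)) ∈ Γ ∧ g • z ∈ F

/-- The convolution power: the law of a product of `k` independent steps of law `μ`. -/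
noncomputable def convPow {G : Type*} [Group G] (μ : PMF G) : ℕ → PMF G
  | 0 => PMF.pure 1
  | k + 1 => (convPow μ k).bind fun a => μ.map fun b => a * b

/-- Shannon entropy. -/
noncomputable def shannon {G : Type*} (ν : PMF G) : ℝ :=
  ∑' g, Real.negMulLog (ν g).toReal

/-- Asymptotic (Avez) entropy. -/
noncomputable def avez {G : Type*} [Group G] (μ : PMF G) : ℝ :=
  limUnder atTop fun k : ℕ => shannon (convPow μ k) / k

/-- The data of the problem, in a topological group `G`, with the limit group only assumed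
discrete. -/
structure IsData {G : Type*} [Group G] [TopologicalSpace G]
    (Γs : ℕ → Subgroup G) (Γ : Subgroup G) (Ss : ℕ → Finset G) (S : Finset G)
    (μs : ℕ → PMF G) (μ : PMF G) : Prop where
  discrete_seq : ∀ n, DiscreteTopology (Γs n)
  discrete_lim : DiscreteTopology Γ
  conv_group : GeomConv (fun n => (Γs n : Set G)) (Γ : Set G)
  gen_seq : ∀ n, Subgroup.closure (Ss n : Set G) = Γs n
  gen_lim : Subgroup.closure (S : Set G) = Γ
  conv_gen : GeomConv (fun n => (Ss n : Set G)) (S : Set G)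
  supp_seq : ∀ n, (μs n).support ⊆ (Ss n : Set G)
  supp_lim : μ.support ⊆ (S : Set G)
  conv_weight : ∀ (s : ℕ → G) (t : G), (∀ n, s n ∈ Ss n) → t ∈ S → Tendsto s atTop (𝓝 t) →
    Tendsto (fun n => μs n (s n)) atTop (𝓝 (μ t))

end Pool.Agent.MP_56e4d4_pr
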