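import Mathlib

/-!
Entropy of finitely supported probability measures on a group, seen as elements of the
group algebra.
-/

open Filter Topology Finset

set_option linter.unusedSectionVars false

namespace Pool.Agent.MP_56e4d4_pr

variable {G : Type*} [Group G]

/-- Expectation of `φ` under `f`. -/
noncomputable def Ex (f : MonoidAlgebra ℝ G) (φ : G → ℝ) : ℝ :=
  ∑ x ∈ f.coeff.support, f.coeff x * φ x

/-- Probability vectors. -/
structure IsProb (f : MonoidAlgebra ℝ G) : Prop where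
  nonneg : ∀ x, 0 ≤ f.coeff x
  total : ∑ x ∈ f.coeff.support, f.coeff x = 1

/-- Entropy. -/
noncomputable def Ent (f : MonoidAlgebra ℝ G) : ℝ :=
  ∑ x ∈ f.coeff.support, Real.negMulLog (f.coeff x)

lemma Ex_eq_sum (f : MonoidAlgebra ℝ G) (φ : G → ℝ) (T : Finset G) (hT : f.coeff.support ⊆ T) :
    Ex f φ = ∑ x ∈ T, f.coeff x * φ x := by
  unfold Ex
  refine Finset.sum_subset hT fun x _ hx => ?_
  rw [Finsupp.notMem_support_iff.mp hx, zero_mul]

lemma Ex_add_left (f g : MonoidAlgebra ℝ G) (φ : G → ℝ) :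
    Ex (f + g) φ = Ex f φ + Ex g φ := by
  classical
  rw [Ex_eq_sum f φ (f.coeff.support ∪ g.coeff.support) Finset.subset_union_left,
    Ex_eq_sum g φ (f.coeff.support ∪ g.coeff.support) Finset.subset_union_right,
    Ex_eq_sum (f + g) φ (f.coeff.support ∪ g.coeff.support)
      (by rw [MonoidAlgebra.coeff_add]; exact Finsupp.support_add), ← Finset.sum_add_distrib]
  refine Finset.sum_congr rfl fun x _ => ?_
  simp [add_mul]

@[simp] lemma Ex_zero_left (φ : G → ℝ) : Ex (0 : MonoidAlgebra ℝ G) φ = 0 := by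
  simp [Ex]

lemma Ex_single (a : G) (r : ℝ) (φ : G → ℝ) : Ex (MonoidAlgebra.single a r) φ = r * φ a := by
  rw [Ex_eq_sum _ φ {a} (by rw [MonoidAlgebra.coeff_single]; exact Finsupp.support_single_subset)]
  simp

lemma Ex_smul_left (c : ℝ) (f : MonoidAlgebra ℝ G) (φ : G → ℝ) :
    Ex (c • f) φ = c * Ex f φ := by
  rw [Ex_eq_sum (c • f) φ f.coeff.support
    (by rw [MonoidAlgebra.coeff_smul]; exact Finsupp.support_smul)]
  unfold Ex
  rw [Finset.mul_sum]
  refine Finset.sum_congr rfl fun x _ => ?_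
  simp [mul_assoc]

lemma Ex_sum_left {ι : Type*} (s : Finset ι) (f : ι → MonoidAlgebra ℝ G) (φ : G → ℝ) :
    Ex (∑ i ∈ s, f i) φ = ∑ i ∈ s, Ex (f i) φ := by
  classical
  induction s using Finset.induction_on with
  | empty => simp
  | insert i s hi ih => rw [Finset.sum_insert hi, Finset.sum_insert hi, Ex_add_left, ih]

lemma Ex_add (f : MonoidAlgebra ℝ G) (φ ψ : G → ℝ) :
    Ex f (fun x => φ x + ψ x) = Ex f φ + Ex f ψ := by
  simp [Ex, mul_add, Finset.sum_add_distrib]

lemma Ex_sub (f : MonoidAlgebra ℝ G) (φ ψ : G → ℝ) :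
    Ex f (fun x => φ x - ψ x) = Ex f φ - Ex f ψ := by
  simp [Ex, mul_sub, Finset.sum_sub_distrib]

lemma Ex_mul_left (f : MonoidAlgebra ℝ G) (c : ℝ) (φ : G → ℝ) :
    Ex f (fun x => c * φ x) = c * Ex f φ := by
  simp only [Ex, Finset.mul_sum]
  refine Finset.sum_congr rfl fun x _ => by ring

lemma Ex_sum {ι : Type*} (f : MonoidAlgebra ℝ G) (s : Finset ι) (φ : ι → G → ℝ) :
    Ex f (fun x => ∑ i ∈ s, φ i x) = ∑ i ∈ s, Ex f (φ i) := by
  simp only [Ex, Finset.mul_sum]
  exact Finset.sum_comm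

lemma Ex_comm (f g : MonoidAlgebra ℝ G) (φ : G → G → ℝ) :
    Ex f (fun x => Ex g (fun y => φ x y)) = Ex g (fun y => Ex f (fun x => φ x y)) := by
  simp only [Ex, Finset.mul_sum]
  rw [Finset.sum_comm]
  refine Finset.sum_congr rfl fun x _ => Finset.sum_congr rfl fun y _ => by ring

lemma Ex_mul (f g : MonoidAlgebra ℝ G) (φ : G → ℝ) :
    Ex (f * g) φ = Ex f (fun x => Ex g (fun y => φ (x * y))) := by
  induction f using MonoidAlgebra.induction_linear with
  | zero => simp
  | add f₁ f₂ h₁ h₂ => rw [add_mul, Ex_add_left, Ex_add_left, h₁, h₂]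
  | single a r =>
    rw [Ex_single]
    induction g using MonoidAlgebra.induction_linear with
    | zero => simp
    | add g₁ g₂ h₁ h₂ => rw [mul_add, Ex_add_left, Ex_add_left, h₁, h₂, mul_add]
    | single b s => rw [MonoidAlgebra.single_mul_single, Ex_single, Ex_single, mul_assoc]

lemma Ex_one (φ : G → ℝ) : Ex (1 : MonoidAlgebra ℝ G) φ = φ 1 := by
  rw [MonoidAlgebra.one_def, Ex_single, one_mul]

lemma Ex_congr {f : MonoidAlgebra ℝ G} {φ ψ : G → ℝ}
    (h : ∀ x ∈ f.coeff.support, φ x = ψ x) : Ex f φ = Ex f ψ :=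
  Finset.sum_congr rfl fun x hx => by rw [h x hx]

lemma Ex_mono {f : MonoidAlgebra ℝ G} (hf : ∀ x, 0 ≤ f.coeff x) {φ ψ : G → ℝ}
    (h : ∀ x ∈ f.coeff.support, φ x ≤ ψ x) : Ex f φ ≤ Ex f ψ :=
  Finset.sum_le_sum fun x hx => mul_le_mul_of_nonneg_left (h x hx) (hf x)

lemma IsProb.Ex_const {f : MonoidAlgebra ℝ G} (hf : IsProb f) (c : ℝ) :
    Ex f (fun _ => c) = c := by
  unfold Ex
  rw [← Finset.sum_mul, hf.total, one_mul]

lemma Ex_nonneg {f : MonoidAlgebra ℝ G} (hf : ∀ x, 0 ≤ f.coeff x) {φ : G → ℝ}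
    (h : ∀ x ∈ f.coeff.support, 0 ≤ φ x) : 0 ≤ Ex f φ :=
  Finset.sum_nonneg fun x hx => mul_nonneg (hf x) (h x hx)

lemma IsProb.Ex_le {f : MonoidAlgebra ℝ G} (hf : IsProb f) {φ : G → ℝ} {c : ℝ}
    (h : ∀ x ∈ f.coeff.support, φ x ≤ c) : Ex f φ ≤ c :=
  (Ex_mono hf.nonneg h).trans_eq (hf.Ex_const c)

lemma IsProb.pos {f : MonoidAlgebra ℝ G} (hf : IsProb f) {x : G} (hx : x ∈ f.coeff.support) :
    0 < f.coeff x :=
  lt_of_le_of_ne (hf.nonneg x) (Finsupp.mem_support_iff.mp hx).symm

lemma IsProb.sum_le_one {f : MonoidAlgebra ℝ G} (hf : IsProb f) (T : Finset G) :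
    ∑ x ∈ T, f.coeff x ≤ 1 := by
  classical
  have h1 : ∑ x ∈ T ∪ f.coeff.support, f.coeff x = 1 := by
    rw [← hf.total]
    refine (Finset.sum_subset Finset.subset_union_right fun x _ hx => ?_).symm
    exact Finsupp.notMem_support_iff.mp hx
  rw [← h1]
  exact Finset.sum_le_sum_of_subset_of_nonneg Finset.subset_union_left fun x _ _ => hf.nonneg x

lemma IsProb.sum_eq_one {f : MonoidAlgebra ℝ G} (hf : IsProb f) {T : Finset G}
    (hT : f.coeff.support ⊆ T) : ∑ x ∈ T, f.coeff x = 1 := by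
  rw [← hf.total]
  refine (Finset.sum_subset hT fun x _ hx => ?_).symm
  exact Finsupp.notMem_support_iff.mp hx

lemma IsProb.le_one {f : MonoidAlgebra ℝ G} (hf : IsProb f) (x : G) : f.coeff x ≤ 1 := by
  simpa using hf.sum_le_one {x}

lemma IsProb.support_nonempty {f : MonoidAlgebra ℝ G} (hf : IsProb f) :
    f.coeff.support.Nonempty := by
  rw [Finset.nonempty_iff_ne_empty]
  intro h
  have := hf.total
  rw [h] at this
  simp at this

lemma coeff_eq_Ex [DecidableEq G] (f : MonoidAlgebra ℝ G) (z : G) :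
    f.coeff z = Ex f (fun x => if x = z then 1 else 0) := by
  rw [Ex_eq_sum f _ (insert z f.coeff.support) (Finset.subset_insert _ _)]
  simp

lemma coeff_mul_eq (f g : MonoidAlgebra ℝ G) (z : G) :
    (f * g).coeff z = Ex f (fun x => g.coeff (x⁻¹ * z)) := by
  rw [MonoidAlgebra.coeff_mul_apply_left]
  rfl

lemma coeff_mul_nonneg {f g : MonoidAlgebra ℝ G} (hf : ∀ x, 0 ≤ f.coeff x)
    (hg : ∀ x, 0 ≤ g.coeff x) (z : G) : 0 ≤ (f * g).coeff z := by
  rw [coeff_mul_eq]
  exact Ex_nonneg hf fun x _ => hg _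

lemma IsProb.mul {f g : MonoidAlgebra ℝ G} (hf : IsProb f) (hg : IsProb g) : IsProb (f * g) := by
  refine ⟨coeff_mul_nonneg hf.nonneg hg.nonneg, ?_⟩
  have := Ex_mul f g (fun _ => 1)
  simp only [hg.Ex_const, hf.Ex_const] at this
  simpa [Ex] using this

lemma isProb_one : IsProb (1 : MonoidAlgebra ℝ G) := by
  classical
  refine ⟨fun x => ?_, ?_⟩
  · rw [MonoidAlgebra.one_def, MonoidAlgebra.coeff_single, Finsupp.single_apply]
    split_ifs <;> norm_num
  · have := Ex_one (G := G) (fun _ => 1)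
    simpa [Ex] using this

lemma IsProb.pow {f : MonoidAlgebra ℝ G} (hf : IsProb f) (k : ℕ) : IsProb (f ^ k) := by
  induction k with
  | zero => simpa using isProb_one
  | succ k ih => rw [pow_succ]; exact ih.mul hf

lemma le_coeff_mul {f g : MonoidAlgebra ℝ G} (hf : ∀ x, 0 ≤ f.coeff x)
    (hg : ∀ x, 0 ≤ g.coeff x) (x y : G) : f.coeff x * g.coeff y ≤ (f * g).coeff (x * y) := by
  classical
  rw [coeff_mul_eq, Ex_eq_sum f _ (insert x f.coeff.support) (Finset.subset_insert _ _)]
  have := Finset.single_le_sum (f := fun a => f.coeff a * g.coeff (a⁻¹ * (x * y)))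
    (s := insert x f.coeff.support) (fun a _ => mul_nonneg (hf a) (hg _))
    (Finset.mem_insert_self x _)
  simpa using this

lemma mem_support_mul {f g : MonoidAlgebra ℝ G} {z : G} (hz : z ∈ (f * g).coeff.support) :
    ∃ x ∈ f.coeff.support, ∃ y ∈ g.coeff.support, z = x * y := by
  rw [Finsupp.mem_support_iff, coeff_mul_eq] at hz
  obtain ⟨x, hx, h⟩ := Finset.exists_ne_zero_of_sum_ne_zero hz
  refine ⟨x, hx, x⁻¹ * z, Finsupp.mem_support_iff.mpr (right_ne_zero_of_mul h), by simp⟩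

lemma Ent_eq_Ex (f : MonoidAlgebra ℝ G) : Ent f = Ex f (fun x => - Real.log (f.coeff x)) := by
  simp [Ent, Ex, Real.negMulLog]

lemma Ent_eq_sum (f : MonoidAlgebra ℝ G) (T : Finset G) (hT : f.coeff.support ⊆ T) :
    Ent f = ∑ x ∈ T, Real.negMulLog (f.coeff x) := by
  unfold Ent
  refine Finset.sum_subset hT fun x _ hx => ?_
  rw [Finsupp.notMem_support_iff.mp hx, Real.negMulLog_zero]

lemma IsProb.Ent_nonneg {f : MonoidAlgebra ℝ G} (hf : IsProb f) : 0 ≤ Ent f :=
  Finset.sum_nonneg fun x _ => Real.negMulLog_nonneg (hf.nonneg x) (hf.le_one x)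

lemma IsProb.Ent_le_log_card {f : MonoidAlgebra ℝ G} (hf : IsProb f) {c : ℝ}
    (hc : (f.coeff.support.card : ℝ) ≤ c) : Ent f ≤ Real.log c := by
  have hpos : (0 : ℝ) < f.coeff.support.card := by exact_mod_cast hf.support_nonempty.card_pos
  have hc0 : 0 < c := hpos.trans_le hc
  have h1 : Ent f - Real.log c = Ex f (fun x => Real.log (1 / (c * f.coeff x))) := by
    rw [Ent_eq_Ex, ← hf.Ex_const (Real.log c), ← Ex_sub]
    refine Ex_congr fun x hx => ?_
    have := hf.pos hx
    rw [one_div, Real.log_inv, Real.log_mul hc0.ne' this.ne']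
    ring
  have h2 : Ex f (fun x => Real.log (1 / (c * f.coeff x))) ≤
      Ex f (fun x => 1 / (c * f.coeff x) - 1) :=
    Ex_mono hf.nonneg fun x hx => Real.log_le_sub_one_of_pos (by have := hf.pos hx; positivity)
  have h3 : Ex f (fun x => 1 / (c * f.coeff x)) = f.coeff.support.card / c := by
    unfold Ex
    rw [Finset.sum_congr rfl (g := fun _ => 1 / c)]
    · simp [div_eq_mul_inv]
    · intro x hx
      have := hf.pos hx
      field_simp
  rw [Ex_sub, h3, hf.Ex_const] at h2
  have : (f.coeff.support.card : ℝ) / c ≤ 1 := (div_le_one hc0).mpr hc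
  linarith

lemma Ent_mul_le {f g : MonoidAlgebra ℝ G} (hf : IsProb f) (hg : IsProb g) :
    Ent (f * g) ≤ Ent f + Ent g := by
  rw [Ent_eq_Ex (f * g), Ex_mul, Ent_eq_Ex f, ← hf.Ex_const (Ent g), ← Ex_add]
  refine Ex_mono hf.nonneg fun x hx => ?_
  rw [Ent_eq_Ex g, ← hg.Ex_const (- Real.log (f.coeff x)), ← Ex_add]
  refine Ex_mono hg.nonneg fun y hy => ?_
  have h1 := hf.pos hx
  have h2 := hg.pos hy
  have := Real.log_le_log (mul_pos h1 h2) (le_coeff_mul hf.nonneg hg.nonneg x y)
  rw [Real.log_mul h1.ne' h2.ne'] at this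
  linarith

/-- Entropy is additive when the product map is injective on the supports. -/
lemma Ent_mul_eq {f g : MonoidAlgebra ℝ G} (hf : IsProb f) (hg : IsProb g)
    (hinj : ∀ x ∈ f.coeff.support, ∀ y ∈ g.coeff.support, ∀ x' ∈ f.coeff.support,
      ∀ y' ∈ g.coeff.support, x * y = x' * y' → x = x') :
    Ent (f * g) = Ent f + Ent g := by
  classical
  rw [Ent_eq_Ex (f * g), Ex_mul, Ent_eq_Ex f, ← hf.Ex_const (Ent g), ← Ex_add]
  refine Ex_congr fun x hx => ?_
  rw [Ent_eq_Ex g, ← hg.Ex_const (- Real.log (f.coeff x)), ← Ex_add]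
  refine Ex_congr fun y hy => ?_
  have h1 := hf.pos hx
  have h2 := hg.pos hy
  have : (f * g).coeff (x * y) = f.coeff x * g.coeff y := by
    rw [coeff_mul_eq, Ex, Finset.sum_eq_single x]
    · simp
    · intro x' hx' hne
      by_contra h
      exact hne (hinj x hx y hy x' hx' (x'⁻¹ * (x * y))
        (Finsupp.mem_support_iff.mpr (right_ne_zero_of_mul h)) (by simp)).symm
    · intro h
      exact absurd hx h
  rw [this, Real.log_mul h1.ne' h2.ne']
  ring

/-- The variational lower bound for the mutual information of `X` and `X Y`. -/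
lemma Ent_mul_sub_ge {α β : MonoidAlgebra ℝ G} (hα : IsProb α) (hβ : IsProb β)
    (F : G → G → ℝ) (hF : ∀ x ∈ α.coeff.support, ∀ z, 0 < F x z) {B : ℝ}
    (hB : ∀ z, Ex α (fun x => F x z) ≤ B) :
    Ex α (fun x => Ex β (fun y => Real.log (F x (x * y)))) - (B - 1) ≤ Ent (α * β) - Ent β := by
  classical
  have hαβ := hα.mul hβ
  have h1 : Ex α (fun x => Ex β (fun y => Real.log (F x (x * y)))) - (Ent (α * β) - Ent β) =
      Ex α (fun x => Ex β (fun y =>
        Real.log ((α * β).coeff (x * y) * F x (x * y) / β.coeff y))) := by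
    rw [Ent_eq_Ex (α * β), Ex_mul, ← hα.Ex_const (Ent β), ← Ex_sub, ← Ex_sub]
    refine Ex_congr fun x hx => ?_
    rw [Ent_eq_Ex β, ← Ex_sub, ← Ex_sub]
    refine Ex_congr fun y hy => ?_
    have p1 := hα.pos hx
    have p2 := hβ.pos hy
    have p3 : 0 < (α * β).coeff (x * y) :=
      (mul_pos p1 p2).trans_le (le_coeff_mul hα.nonneg hβ.nonneg x y)
    have p4 := hF x hx (x * y)
    rw [Real.log_div (mul_pos p3 p4).ne' p2.ne', Real.log_mul p3.ne' p4.ne']
    ring
  have h2 : Ex α (fun x => Ex β (fun y =>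
        Real.log ((α * β).coeff (x * y) * F x (x * y) / β.coeff y))) ≤
      Ex α (fun x => Ex (α * β) (fun z => F x z) - 1) := by
    refine Ex_mono hα.nonneg fun x hx => ?_
    have p1 := hα.pos hx
    calc _ ≤ Ex β (fun y => (α * β).coeff (x * y) * F x (x * y) / β.coeff y - 1) := by
          refine Ex_mono hβ.nonneg fun y hy => Real.log_le_sub_one_of_pos ?_
          have p2 := hβ.pos hy
          have p3 : 0 < (α * β).coeff (x * y) :=
            (mul_pos p1 p2).trans_le (le_coeff_mul hα.nonneg hβ.nonneg x y)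
          have p4 := hF x hx (x * y)
          positivity
      _ ≤ _ := by
          rw [Ex_sub, hβ.Ex_const]
          refine sub_le_sub_right ?_ _
          have e1 : Ex β (fun y => (α * β).coeff (x * y) * F x (x * y) / β.coeff y) =
              ∑ z ∈ β.coeff.support.image (fun y => x * y), (α * β).coeff z * F x z := by
            rw [Finset.sum_image (fun a _ b _ h => mul_left_cancel h)]
            refine Finset.sum_congr rfl fun y hy => ?_
            have p2 := hβ.pos hy
            field_simp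
          rw [e1, Ex_eq_sum (α * β) _
            ((α * β).coeff.support ∪ β.coeff.support.image (fun y => x * y))
            Finset.subset_union_left]
          exact Finset.sum_le_sum_of_subset_of_nonneg Finset.subset_union_right
            fun z _ _ => mul_nonneg (hαβ.nonneg z) (hF x hx z).le
  rw [Ex_sub, hα.Ex_const, Ex_comm α (α * β)] at h2
  have h3 : Ex (α * β) (fun z => Ex α (fun x => F x z)) ≤ B := hαβ.Ex_le fun z _ => hB z
  linarith

open Classical in
/-- The counting form of the previous bound. -/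
lemma Ent_mul_sub_ge_count {α β : MonoidAlgebra ℝ G} (hα : IsProb α) (hβ : IsProb β)
    (A : Finset G) (good : G → G → Prop) {N M : ℝ} (hN : 1 ≤ N) (hM : 1 ≤ M)
    (hAM : (A.card : ℝ) ≤ M) (hgood : ∀ z, ((A.filter fun x => good x z).card : ℝ) ≤ N) :
    ∑ x ∈ A, Real.negMulLog (α.coeff x) - Real.log (2 * N) -
      Real.log (2 * M) *
        Ex α (fun x => Ex β (fun y => if x ∈ A ∧ ¬ good x (x * y) then 1 else 0)) -
      (1 - ∑ x ∈ A, α.coeff x) ≤ Ent (α * β) - Ent β := by
  set F : G → G → ℝ := fun x z =>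
    if x ∈ A then (if good x z then 1 / (2 * N * α.coeff x) else 1 / (2 * M * α.coeff x))
    else 1 with hFdef
  have hN0 : 0 < N := by linarith
  have hM0 : 0 < M := by linarith
  have lN : 0 ≤ Real.log (2 * N) := Real.log_nonneg (by linarith)
  have lM : 0 ≤ Real.log (2 * M) := Real.log_nonneg (by linarith)
  have hF : ∀ x ∈ α.coeff.support, ∀ z, 0 < F x z := by
    intro x hx z
    have := hα.pos hx
    simp only [hFdef]
    split_ifs <;> positivity
  have hA1 : Ex α (fun x => if x ∈ A then 0 else 1) = 1 - ∑ x ∈ A, α.coeff x := by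
    have : Ex α (fun x => if x ∈ A then 1 else 0) = ∑ x ∈ A, α.coeff x := by
      rw [Ex_eq_sum α _ (α.coeff.support ∪ A) Finset.subset_union_left]
      simp only [mul_ite, mul_one, mul_zero]
      rw [← Finset.sum_filter]
      congr 1
      ext x
      simp only [Finset.mem_filter, Finset.mem_union]
      tauto
    rw [← this, ← hα.Ex_const 1, ← Ex_sub]
    refine Ex_congr fun x _ => ?_
    split_ifs <;> simp [hα.Ex_const]
  have hB : ∀ z, Ex α (fun x => F x z) ≤ 1 + (1 - ∑ x ∈ A, α.coeff x) := by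
    intro z
    rw [← hA1]
    have e1 : Ex α (fun x => F x z) ≤
        ∑ x ∈ α.coeff.support, ((if x ∈ A ∧ good x z then 1 / (2 * N) else 0) +
          (if x ∈ A then 1 / (2 * M) else 0) + α.coeff x * (if x ∈ A then 0 else 1)) := by
      refine Finset.sum_le_sum fun x hx => ?_
      have := hα.pos hx
      simp only [hFdef]
      by_cases h1 : x ∈ A
      · by_cases h2 : good x z
        · simp only [h1, h2, if_true, and_self, mul_zero, add_zero]
          have : α.coeff x * (1 / (2 * N * α.coeff x)) = 1 / (2 * N) := by field_simp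
          rw [this]
          have : 0 ≤ 1 / (2 * M) := by positivity
          linarith
        · simp only [h1, h2, if_true, if_false, and_false, mul_zero, add_zero, zero_add]
          have : α.coeff x * (1 / (2 * M * α.coeff x)) = 1 / (2 * M) := by field_simp
          rw [this]
      · simp [h1]
    refine e1.trans ?_
    rw [Finset.sum_add_distrib, Finset.sum_add_distrib]
    refine add_le_add ?_ le_rfl
    have e2 : ∑ x ∈ α.coeff.support, (if x ∈ A ∧ good x z then 1 / (2 * N) else 0) ≤ 1 / 2 := by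
      rw [← Finset.sum_filter, Finset.sum_const, nsmul_eq_mul]
      have : (((α.coeff.support.filter fun x => x ∈ A ∧ good x z).card : ℕ) : ℝ) ≤ N := by
        refine le_trans ?_ (hgood z)
        exact_mod_cast Finset.card_le_card fun x hx => by
          simp only [Finset.mem_filter] at hx ⊢
          exact hx.2
      calc _ ≤ N * (1 / (2 * N)) := by gcongr
        _ = 1 / 2 := by field_simp
    have e3 : ∑ x ∈ α.coeff.support, (if x ∈ A then 1 / (2 * M) else 0) ≤ 1 / 2 := by
      rw [← Finset.sum_filter, Finset.sum_const, nsmul_eq_mul]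
      have : (((α.coeff.support.filter fun x => x ∈ A).card : ℕ) : ℝ) ≤ M := by
        refine le_trans ?_ hAM
        exact_mod_cast Finset.card_le_card fun x hx => by
          simp only [Finset.mem_filter] at hx ⊢
          exact hx.2
      calc _ ≤ M * (1 / (2 * M)) := by gcongr
        _ = 1 / 2 := by field_simp
    linarith
  have key := Ent_mul_sub_ge hα hβ F hF hB
  have hlog : ∑ x ∈ A, Real.negMulLog (α.coeff x) - Real.log (2 * N) -
      Real.log (2 * M) *
        Ex α (fun x => Ex β (fun y => if x ∈ A ∧ ¬ good x (x * y) then 1 else 0)) ≤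
      Ex α (fun x => Ex β (fun y => Real.log (F x (x * y)))) := by
    have e1 : ∑ x ∈ A, Real.negMulLog (α.coeff x) =
        Ex α (fun x => if x ∈ A then - Real.log (α.coeff x) else 0) := by
      rw [Ex_eq_sum α _ (α.coeff.support ∪ A) Finset.subset_union_left]
      simp only [mul_ite, mul_zero]
      rw [← Finset.sum_filter]
      refine Finset.sum_congr ?_ fun x _ => by simp [Real.negMulLog]
      ext x
      simp only [Finset.mem_filter, Finset.mem_union]
      tauto
    rw [e1, ← hα.Ex_const (Real.log (2 * N)), ← Ex_mul_left, ← Ex_sub, ← Ex_sub]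
    refine Ex_mono hα.nonneg fun x hx => ?_
    have p1 := hα.pos hx
    rw [← Ex_mul_left, ← hβ.Ex_const ((if x ∈ A then - Real.log (α.coeff x) else 0) -
      Real.log (2 * N)), ← Ex_sub]
    refine Ex_mono hβ.nonneg fun y _ => ?_
    simp only [hFdef]
    by_cases h1 : x ∈ A
    · by_cases h2 : good x (x * y)
      · simp only [h1, h2, if_true, not_true, and_false, if_false, mul_zero, sub_zero]
        rw [one_div, Real.log_inv, Real.log_mul (by positivity) p1.ne']
        linarith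
      · simp only [h1, h2, if_true, if_false, not_false_iff, and_self, mul_one]
        rw [one_div, Real.log_inv, Real.log_mul (by positivity) p1.ne']
        linarith
    · simp [h1, lN]
  linarith

/-- The asymptotic entropy. -/
noncomputable def hh (f : MonoidAlgebra ℝ G) : ℝ :=
  limUnder atTop fun k : ℕ => Ent (f ^ k) / k

lemma subadditive_Ent {f : MonoidAlgebra ℝ G} (hf : IsProb f) :
    Subadditive fun k => Ent (f ^ k) := fun a b => by
  simp only [pow_add]
  exact Ent_mul_le (hf.pow a) (hf.pow b)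

lemma bddBelow_Ent {f : MonoidAlgebra ℝ G} (hf : IsProb f) :
    BddBelow (Set.range fun k : ℕ => Ent (f ^ k) / k) :=
  ⟨0, by
    rintro _ ⟨k, rfl⟩
    exact div_nonneg (hf.pow k).Ent_nonneg (Nat.cast_nonneg k)⟩

lemma hh_eq {f : MonoidAlgebra ℝ G} (hf : IsProb f) : hh f = (subadditive_Ent hf).lim :=
  ((subadditive_Ent hf).tendsto_lim (bddBelow_Ent hf)).limUnder_eq

lemma tendsto_hh {f : MonoidAlgebra ℝ G} (hf : IsProb f) :
    Tendsto (fun k : ℕ => Ent (f ^ k) / k) atTop (𝓝 (hh f)) := by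
  rw [hh_eq hf]
  exact (subadditive_Ent hf).tendsto_lim (bddBelow_Ent hf)

lemma hh_le {f : MonoidAlgebra ℝ G} (hf : IsProb f) {k : ℕ} (hk : k ≠ 0) :
    hh f ≤ Ent (f ^ k) / k := by
  rw [hh_eq hf]
  exact (subadditive_Ent hf).lim_le_div (bddBelow_Ent hf) hk

lemma hh_nonneg {f : MonoidAlgebra ℝ G} (hf : IsProb f) : 0 ≤ hh f :=
  ge_of_tendsto' (tendsto_hh hf) fun k => div_nonneg (hf.pow k).Ent_nonneg (Nat.cast_nonneg k)

lemma tendsto_cesaro_diff {u : ℕ → ℝ} {h : ℝ}
    (hu : Tendsto (fun k : ℕ => u k / k) atTop (𝓝 h)) (m : ℕ) :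
    Tendsto (fun K : ℕ => (∑ k ∈ Finset.range K, (u (m + k) - u k)) / K) atTop (𝓝 (m * h)) := by
  have e : ∀ K : ℕ, ∑ k ∈ Finset.range K, (u (m + k) - u k) =
      ∑ j ∈ Finset.range m, (u (K + j) - u j) := by
    intro K
    have h1 := Finset.sum_range_add u m K
    have h2 := Finset.sum_range_add u K m
    rw [add_comm K m] at h2
    rw [Finset.sum_sub_distrib, Finset.sum_sub_distrib]
    linarith
  simp only [e, Finset.sum_div]
  have : (m : ℝ) * h = ∑ _j ∈ Finset.range m, h := by simp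
  rw [this]
  refine tendsto_finsetSum _ fun j _ => ?_
  have t1 : Tendsto (fun K : ℕ => u (K + j) / ((K + j : ℕ) : ℝ)) atTop (𝓝 h) :=
    hu.comp (tendsto_add_atTop_nat j)
  have t2 : Tendsto (fun K : ℕ => 1 + (j : ℝ) / K) atTop (𝓝 (1 + 0)) :=
    tendsto_const_nhds.add (tendsto_const_div_atTop_nhds_zero_nat _)
  have t3 : Tendsto (fun K : ℕ => u j / K) atTop (𝓝 0) := tendsto_const_div_atTop_nhds_zero_nat _
  have t4 := (t1.mul t2).sub t3
  simp only [add_zero, mul_one, sub_zero] at t4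
  refine t4.congr' ?_
  filter_upwards [eventually_gt_atTop 0] with K hK
  have hK' : (0 : ℝ) < K := by exact_mod_cast hK
  have : ((K + j : ℕ) : ℝ) ≠ 0 := by positivity
  push_cast at this ⊢
  field_simp

/-- The Cesaro average of the convolution powers. -/
noncomputable def ces (f : MonoidAlgebra ℝ G) (K : ℕ) : MonoidAlgebra ℝ G :=
  (K : ℝ)⁻¹ • ∑ k ∈ Finset.range K, f ^ k

lemma Ex_ces (f : MonoidAlgebra ℝ G) (K : ℕ) (φ : G → ℝ) :
    Ex (ces f K) φ = (∑ k ∈ Finset.range K, Ex (f ^ k) φ) / K := by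
  rw [ces, Ex_smul_left, Ex_sum_left, div_eq_inv_mul]

lemma isProb_ces {f : MonoidAlgebra ℝ G} (hf : IsProb f) {K : ℕ} (hK : K ≠ 0) :
    IsProb (ces f K) := by
  classical
  refine ⟨fun x => ?_, ?_⟩
  · rw [coeff_eq_Ex, Ex_ces]
    refine div_nonneg (Finset.sum_nonneg fun k _ => Ex_nonneg (hf.pow k).nonneg fun y _ => ?_)
      (Nat.cast_nonneg K)
    split_ifs <;> norm_num
  · have := Ex_ces f K (fun _ => 1)
    simp only [(hf.pow _).Ex_const, Finset.sum_const, Finset.card_range, nsmul_eq_mul,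
      mul_one] at this
    rw [div_self (by exact_mod_cast hK)] at this
    simpa [Ex] using this

lemma Ex_ces_le {f : MonoidAlgebra ℝ G} (hf : IsProb f) {K : ℕ} (hK : K ≠ 0) (φ : G → ℝ)
    (h0 : ∀ x, 0 ≤ φ x) (h1 : ∀ x, φ x ≤ 1) :
    Ex (ces f K) φ ≤ Ex f (fun s => Ex (ces f K) (fun y => φ (s * y))) + 1 / K := by
  have hK' : (0 : ℝ) < K := by exact_mod_cast Nat.pos_of_ne_zero hK
  have e1 : Ex f (fun s => Ex (ces f K) (fun y => φ (s * y))) =
      (∑ k ∈ Finset.range K, Ex (f ^ (k + 1)) φ) / K := by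
    simp only [Ex_ces, div_eq_inv_mul]
    rw [Ex_mul_left, Ex_sum]
    congr 1
    refine Finset.sum_congr rfl fun k _ => ?_
    rw [pow_succ', Ex_mul]
  rw [e1, Ex_ces, ← add_div]
  refine div_le_div_of_nonneg_right ?_ hK'.le
  have h2 := Finset.sum_range_succ (fun k => Ex (f ^ k) φ) K
  have h3 := Finset.sum_range_succ' (fun k => Ex (f ^ k) φ) K
  have h4 : 0 ≤ Ex (f ^ K) φ := Ex_nonneg (hf.pow K).nonneg fun x _ => h0 x
  have h5 : Ex (f ^ 0) φ ≤ 1 := (hf.pow 0).Ex_le fun x _ => h1 x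
  linarith

lemma Ex_ite_mem [DecidableEq G] (α : MonoidAlgebra ℝ G) (A : Finset G) (c : ℝ) :
    Ex α (fun x => if x ∈ A then c else 0) = c * ∑ x ∈ A, α.coeff x := by
  rw [Ex_eq_sum α _ (α.coeff.support ∪ A) Finset.subset_union_left]
  simp only [mul_ite, mul_zero]
  rw [← Finset.sum_filter, Finset.mul_sum]
  refine Finset.sum_congr ?_ fun x _ => mul_comm _ _
  ext x
  simp only [Finset.mem_filter, Finset.mem_union]
  tauto

open Classical in
/-- Lower bound for the asymptotic entropy. -/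
lemma hh_ge_count' {f : MonoidAlgebra ℝ G} (hf : IsProb f) (m : ℕ)
    (A : Finset G) (good : G → G → Prop) {N M η : ℝ} (hN : 1 ≤ N) (hM : 1 ≤ M)
    (hAM : (A.card : ℝ) ≤ M) (hgood : ∀ z, ((A.filter fun x => good x z).card : ℝ) ≤ N)
    (hbad : ∀ᶠ K in atTop, ∀ x ∈ A,
      Ex (ces f K) (fun y => if ¬ good x (x * y) then 1 else 0) ≤ η) :
    ∑ x ∈ A, Real.negMulLog ((f ^ m).coeff x) - Real.log (2 * N) -
      Real.log (2 * M) * (η * ∑ x ∈ A, (f ^ m).coeff x) -
      (1 - ∑ x ∈ A, (f ^ m).coeff x) ≤ m * hh f := by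
  have lM : 0 ≤ Real.log (2 * M) := Real.log_nonneg (by linarith)
  refine ge_of_tendsto (tendsto_cesaro_diff (tendsto_hh hf) m) ?_
  filter_upwards [hbad, eventually_gt_atTop 0] with K hK hK0
  have hK' : (0 : ℝ) < K := by exact_mod_cast hK0
  have h1 : ∀ k ∈ Finset.range K,
      ∑ x ∈ A, Real.negMulLog ((f ^ m).coeff x) - Real.log (2 * N) -
      Real.log (2 * M) *
        Ex (f ^ m) (fun x => Ex (f ^ k) (fun y => if x ∈ A ∧ ¬ good x (x * y) then 1 else 0)) -
      (1 - ∑ x ∈ A, (f ^ m).coeff x) ≤ Ent (f ^ (m + k)) - Ent (f ^ k) := by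
    intro k _
    rw [pow_add]
    exact Ent_mul_sub_ge_count (hf.pow m) (hf.pow k) A good hN hM hAM hgood
  have h2 := Finset.sum_le_sum h1
  rw [le_div_iff₀ hK']
  refine le_trans ?_ h2
  have h3 : ∑ k ∈ Finset.range K, Ex (f ^ m) (fun x => Ex (f ^ k)
      (fun y => if x ∈ A ∧ ¬ good x (x * y) then 1 else 0)) ≤
      η * K * ∑ x ∈ A, (f ^ m).coeff x := by
    rw [← Ex_sum, ← Ex_ite_mem]
    refine Ex_mono (hf.pow m).nonneg fun x _ => ?_
    by_cases hx : x ∈ A
    · have := hK x hx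
      rw [Ex_ces, div_le_iff₀ hK'] at this
      simpa [hx] using this
    · simp only [hx, false_and, if_false, (hf.pow _).Ex_const, Finset.sum_const_zero, le_refl]
  simp only [Finset.sum_sub_distrib, Finset.sum_const, Finset.card_range, nsmul_eq_mul,
    ← Finset.mul_sum]
  nlinarith [mul_le_mul_of_nonneg_left h3 lM]

open Classical in
lemma hh_ge_count {f : MonoidAlgebra ℝ G} (hf : IsProb f) (m : ℕ)
    (A : Finset G) (good : G → G → Prop) {N M η : ℝ} (hN : 1 ≤ N) (hM : 1 ≤ M) (hη : 0 ≤ η)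
    (hAM : (A.card : ℝ) ≤ M) (hgood : ∀ z, ((A.filter fun x => good x z).card : ℝ) ≤ N)
    (hbad : ∀ᶠ K in atTop, ∀ x ∈ A,
      Ex (ces f K) (fun y => if ¬ good x (x * y) then 1 else 0) ≤ η) :
    ∑ x ∈ A, Real.negMulLog ((f ^ m).coeff x) - Real.log (2 * N) - Real.log (2 * M) * η -
      (1 - ∑ x ∈ A, (f ^ m).coeff x) ≤ m * hh f := by
  have lM : 0 ≤ Real.log (2 * M) := Real.log_nonneg (by linarith)
  have h := hh_ge_count' hf m A good hN hM hAM hgood hbad
  have h1 : η * ∑ x ∈ A, (f ^ m).coeff x ≤ η :=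
    mul_le_of_le_one_right hη ((hf.pow m).sum_le_one A)
  nlinarith [mul_le_mul_of_nonneg_left h1 lM]

end Pool.Agent.MP_56e4d4_pr
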