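import Pool.Agent.MP_56e4d4_pr.Geom

/-!
The projective line: a distance, stretch factors, the counting lemma and commutativity of
point stabilisers in discrete groups.
-/

open Filter Topology Matrix
open scoped MatrixGroups LinearAlgebra.Projectivization

namespace Pool.Agent.MP_56e4d4_pr

/-- The real projective line. -/
abbrev P1 := ℙ ℝ (Fin 2 → ℝ)

/-- A normalised representative. -/
noncomputable def uv (p : P1) : Fin 2 → ℝ := (n1 p.rep)⁻¹ • p.rep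

lemma n1_uv (p : P1) : n1 (uv p) = 1 := by
  have := n1_pos p.rep_nonzero
  rw [uv, n1_smul, abs_of_pos (inv_pos.mpr this), inv_mul_cancel₀ this.ne']

lemma uv_ne (p : P1) : uv p ≠ 0 := by
  intro h
  have := n1_uv p
  rw [h] at this
  simp [n1] at this

lemma mk_uv (p : P1) : Projectivization.mk ℝ (uv p) (uv_ne p) = p := by
  conv_rhs => rw [← p.mk_rep]
  rw [Projectivization.mk_eq_mk_iff']
  exact ⟨_, rfl⟩

lemma exists_smul_uv (v : Fin 2 → ℝ) (hv : v ≠ 0) :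
    ∃ c : ℝ, v = c • uv (Projectivization.mk ℝ v hv) ∧ |c| = n1 v := by
  obtain ⟨c, hc⟩ := (Projectivization.mk_eq_mk_iff' ℝ _ _ hv (uv_ne _)).mp (mk_uv _).symm
  refine ⟨c, hc.symm, ?_⟩
  have := congrArg n1 hc
  rwa [n1_smul, n1_uv, mul_one] at this

lemma mulVec_ne (g : SL(2, ℝ)) {v : Fin 2 → ℝ} (hv : v ≠ 0) : g.1 *ᵥ v ≠ 0 :=
  (smul_ne_zero_iff_ne g).mpr hv

lemma smul_eq_mk (g : SL(2, ℝ)) (p : P1) :
    (g : PSL(2, ℝ)) • p = Projectivization.mk ℝ (g.1 *ᵥ uv p) (mulVec_ne g (uv_ne p)) := by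
  conv_lhs => rw [← mk_uv p]
  rfl

lemma exists_mulVec_uv (g : SL(2, ℝ)) (p : P1) :
    ∃ c : ℝ, g.1 *ᵥ uv p = c • uv ((g : PSL(2, ℝ)) • p) ∧ |c| = n1 (g.1 *ᵥ uv p) := by
  rw [smul_eq_mk]
  exact exists_smul_uv _ _

/-- A distance on the projective line. -/
noncomputable def dd (p q : P1) : ℝ := |dt (uv p) (uv q)|

lemma dd_nonneg (p q : P1) : 0 ≤ dd p q := abs_nonneg _

lemma dd_symm (p q : P1) : dd p q = dd q p := by
  unfold dd
  rw [← abs_neg]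
  congr 1
  unfold dt
  ring

lemma dd_tri (p q r : P1) : dd p r ≤ dd p q + dd q r := by
  have := dt_ineq 1 (uv p) (uv r) (uv q)
  simp only [Matrix.one_mulVec, n1_uv, mul_one] at this
  unfold dd
  linarith

lemma dd_pos (p q : P1) (h : p ≠ q) : 0 < dd p q := by
  refine abs_pos.mpr fun e => h ?_
  rw [← mk_uv p, ← mk_uv q, Projectivization.mk_eq_mk_iff']
  have hq := uv_ne q
  unfold dt at e
  by_cases h0 : uv q 0 = 0
  · have h1 : uv q 1 ≠ 0 := by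
      intro h1
      apply hq
      ext i
      fin_cases i
      · exact h0
      · exact h1
    refine ⟨uv p 1 / uv q 1, ?_⟩
    ext i
    fin_cases i
    · have : uv p 0 * uv q 1 = 0 := by rw [h0] at e; linarith
      simp [h0, (mul_eq_zero.mp this).resolve_right h1]
    · simp [h1]
  · refine ⟨uv p 0 / uv q 0, ?_⟩
    ext i
    fin_cases i
    · simp [h0]
    · simp only [Fin.mk_one, Pi.smul_apply, smul_eq_mul]
      field_simp
      linarith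

lemma dd_mk (v w : Fin 2 → ℝ) (hv : v ≠ 0) (hw : w ≠ 0) :
    dd (Projectivization.mk ℝ v hv) (Projectivization.mk ℝ w hw) * (n1 v * n1 w) = |dt v w| := by
  obtain ⟨a, ha, ha'⟩ := exists_smul_uv v hv
  obtain ⟨b, hb, hb'⟩ := exists_smul_uv w hw
  conv_rhs => rw [ha, hb, dt_smul_smul, abs_mul, abs_mul, ha', hb']
  unfold dd
  ring

lemma dd_cpt (U : Ultrafilter ℕ) (u : ℕ → P1) :
    ∃ p, Tendsto (fun j => dd (u j) p) U (𝓝 0) := by
  have h1 : IsCompact (Set.univ.pi fun _ : Fin 2 => Set.Icc (-1 : ℝ) 1) :=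
    isCompact_univ_pi fun _ => isCompact_Icc
  obtain ⟨v, -, hv⟩ := h1.ultrafilter_le_nhds (U.map fun j => uv (u j)) (by
    rw [Ultrafilter.coe_map, le_principal_iff, Filter.mem_map]
    refine Eventually.of_forall fun j i _ => abs_le.mp ?_
    have := n1_uv (u j)
    unfold n1 at this
    have := abs_nonneg (uv (u j) 0); have := abs_nonneg (uv (u j) 1)
    fin_cases i <;> simp <;> linarith)
  have hv' : Tendsto (fun j => uv (u j)) U (𝓝 v) := hv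
  have hn : n1 v = 1 := by
    have hc : Continuous n1 := by unfold n1; fun_prop
    have := (hc.tendsto v).comp hv'
    simp only [Function.comp_def, n1_uv] at this
    exact tendsto_nhds_unique this tendsto_const_nhds
  have hv0 : v ≠ 0 := by
    rintro rfl
    simp [n1] at hn
  refine ⟨Projectivization.mk ℝ v hv0, ?_⟩
  have hc : Continuous fun w => |dt w v| := by unfold dt; fun_prop
  have := (hc.tendsto v).comp hv'
  have e : |dt v v| = 0 := by simp [dt, mul_comm]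
  rw [e] at this
  refine this.congr fun j => ?_
  have := dd_mk (uv (u j)) v (uv_ne _) hv0
  rw [mk_uv, n1_uv, hn, mul_one, mul_one] at this
  exact this.symm

lemma one_le_mul_n1 (g : SL(2, ℝ)) (p : P1) : 1 ≤ Nm g.1 * n1 (g.1 *ᵥ uv p) := by
  have := n1_mulVec (g⁻¹ : SL(2, ℝ)).1 (g.1 *ᵥ uv p)
  rwa [Matrix.mulVec_mulVec, ← Matrix.SpecialLinearGroup.coe_mul, inv_mul_cancel,
    Matrix.SpecialLinearGroup.coe_one, Matrix.one_mulVec, n1_uv, Nm_inv] at this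

lemma dd_smul_le (g g' : SL(2, ℝ)) (p q : P1) :
    dd ((g : PSL(2, ℝ)) • p) ((g' : PSL(2, ℝ)) • q) ≤
      Nm g.1 * Nm g'.1 * |dt (g.1 *ᵥ uv p) (g'.1 *ᵥ uv q)| := by
  rw [← dd_mk _ _ (mulVec_ne g (uv_ne p)) (mulVec_ne g' (uv_ne q)), ← smul_eq_mk, ← smul_eq_mk]
  have h1 := one_le_mul_n1 g p
  have h2 := one_le_mul_n1 g' q
  have h3 := dd_nonneg ((g : PSL(2, ℝ)) • p) ((g' : PSL(2, ℝ)) • q)
  have h4 : 1 ≤ (Nm g.1 * n1 (g.1 *ᵥ uv p)) * (Nm g'.1 * n1 (g'.1 *ᵥ uv q)) :=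
    one_le_mul_of_one_le_of_one_le h1 h2
  nlinarith

lemma dd_smul_smul (g : SL(2, ℝ)) (p q : P1) :
    dd ((g : PSL(2, ℝ)) • p) ((g : PSL(2, ℝ)) • q) ≤ Nm g.1 * Nm g.1 * dd p q := by
  have := dd_smul_le g g p q
  rwa [dt_mulVec] at this

lemma dd_smul_near (g g' : SL(2, ℝ)) (p : P1) :
    dd ((g : PSL(2, ℝ)) • p) ((g' : PSL(2, ℝ)) • p) ≤
      Nm g.1 * Nm g'.1 * (Nm (g.1 - g'.1) * Nm g'.1) := by
  refine (dd_smul_le g g' p p).trans (mul_le_mul_of_nonneg_left ?_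
    (mul_nonneg (Nm_nonneg _) (Nm_nonneg _)))
  have e : dt (g.1 *ᵥ uv p) (g'.1 *ᵥ uv p) = dt ((g.1 - g'.1) *ᵥ uv p) (g'.1 *ᵥ uv p) := by
    rw [Matrix.sub_mulVec]
    simp only [dt, Pi.sub_apply]
    ring
  rw [e]
  refine (abs_dt_le _ _).trans (mul_le_mul ?_ ?_ (n1_nonneg _) (Nm_nonneg _))
  · simpa [n1_uv] using n1_mulVec (g.1 - g'.1) (uv p)
  · simpa [n1_uv] using n1_mulVec g'.1 (uv p)

lemma smul_cont {x : ℕ → PSL(2, ℝ)} {s : PSL(2, ℝ)} (h : Tendsto x atTop (𝓝 s)) (p : P1)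
    (ρ : ℝ) (hρ : 0 < ρ) :
    ∃ ρ' > 0, ∀ᶠ j in atTop, ∀ q, dd (x j • q) p < ρ' → dd q (s⁻¹ • p) < ρ := by
  induction s using QuotientGroup.induction_on with | H g =>
  obtain ⟨k, hk, hkg⟩ := exists_lift h
  have hinv : Tendsto (fun j => (k j)⁻¹) atTop (𝓝 g⁻¹) := hkg.inv
  have hN : Tendsto (fun j => Nm ((k j)⁻¹ : SL(2, ℝ)).1) atTop (𝓝 (Nm (g⁻¹ : SL(2, ℝ)).1)) :=
    ((continuous_Nm.comp continuous_subtype_val).tendsto _).comp hinv
  set c := Nm (g⁻¹ : SL(2, ℝ)).1 with hc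
  have hc1 : 1 ≤ c := one_le_Nm _
  have h2 : Tendsto (fun j => Nm ((k j)⁻¹ : SL(2, ℝ)).1 * c *
      (Nm (((k j)⁻¹ : SL(2, ℝ)).1 - (g⁻¹ : SL(2, ℝ)).1) * c)) atTop (𝓝 (c * c * (0 * c))) :=
    (hN.mul_const c).mul ((tendsto_SL_iff.mp hinv).mul_const c)
  rw [zero_mul, mul_zero] at h2
  refine ⟨ρ / 2 / ((c + 1) * (c + 1)), by positivity, ?_⟩
  filter_upwards [h2.eventually (gt_mem_nhds (half_pos hρ)),
    hN.eventually (gt_mem_nhds (lt_add_one c))] with j hj1 hj2 q hq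
  have t1 := dd_tri q ((((k j)⁻¹ : SL(2, ℝ)) : PSL(2, ℝ)) • p) ((g : PSL(2, ℝ))⁻¹ • p)
  have t2 := dd_smul_near (k j)⁻¹ g⁻¹ p
  have t3 := dd_smul_smul (k j)⁻¹ (x j • q) p
  rw [QuotientGroup.mk_inv, hk, inv_smul_smul] at t3
  rw [QuotientGroup.mk_inv, hk] at t1
  rw [QuotientGroup.mk_inv, QuotientGroup.mk_inv, hk] at t2
  have t4 : Nm ((k j)⁻¹ : SL(2, ℝ)).1 * Nm ((k j)⁻¹ : SL(2, ℝ)).1 * dd (x j • q) p ≤
      (c + 1) * (c + 1) * (ρ / 2 / ((c + 1) * (c + 1))) := by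
    have := Nm_nonneg ((k j)⁻¹ : SL(2, ℝ)).1
    have := dd_nonneg (x j • q) p
    gcongr
  rw [mul_div_cancel₀ _ (by positivity)] at t4
  linarith

/-- The stretch factor of `x` in the direction `p`. -/
noncomputable def str (x : PSL(2, ℝ)) (p : P1) : ℝ := n1 ((x.out : SL(2, ℝ)).1 *ᵥ uv p)

lemma bad_close {x : PSL(2, ℝ)} {p q : P1} {θ : ℝ} (hp : str x p < θ * NN x)
    (hq : str x q < θ * NN x) : dd p q < 2 * θ := by
  set A := (x.out : SL(2, ℝ)).1 with hA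
  have h0 := dt_ineq A (uv p) (uv q) ![1, 0]
  have h1 := dt_ineq A (uv p) (uv q) ![0, 1]
  have hp1 := n1_uv p
  have hq1 := n1_uv q
  have e1 : |dt ![1, 0] (uv q)| + |dt ![0, 1] (uv q)| = 1 := by
    unfold n1 at hq1; simp [dt]; linarith
  have e2 : |dt (uv p) ![1, 0]| + |dt (uv p) ![0, 1]| = 1 := by
    unfold n1 at hp1; simp [dt]; linarith
  have h2 : dd p q * NN x ≤ str x p + str x q := by
    unfold dd NN str
    rw [← hA, Nm_eq_cols]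
    calc _ ≤ (|dt ![1, 0] (uv q)| + |dt ![0, 1] (uv q)|) * n1 (A *ᵥ uv p) +
          (|dt (uv p) ![1, 0]| + |dt (uv p) ![0, 1]|) * n1 (A *ᵥ uv q) := by linarith
      _ = _ := by rw [e1, e2, one_mul, one_mul]
  have h3 := one_le_NN x
  by_contra hcon
  push Not at hcon
  nlinarith

lemma entry_bound (g g' : SL(2, ℝ)) (v v' η : Fin 2 → ℝ) (c c' : ℝ) (hv : n1 v = 1)
    (hv' : n1 v' = 1) (hη : n1 η = 1) (h : g.1 *ᵥ v = c • η) (h' : g'.1 *ᵥ v' = c' • η)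
    (w t : Fin 2 → ℝ) (hw : n1 w = 1) (ht : n1 t = 1) :
    |dt (g'.1 *ᵥ w) (g.1 *ᵥ t)| * (|c| * |c'|) ≤ |c'| * Nm g'.1 + |c| * Nm g.1 := by
  have h1 := dt_ineq 1 (g'.1 *ᵥ w) (g.1 *ᵥ t) η
  simp only [Matrix.one_mulVec, hη, mul_one] at h1
  have h2 : |c| * |dt η (g.1 *ᵥ t)| ≤ 1 := by
    have e := dt_mulVec g v t
    rw [h, ← one_smul ℝ (g.1 *ᵥ t), dt_smul_smul, mul_one] at e
    rw [← abs_mul, e]
    simpa [hv, ht] using abs_dt_le v t
  have h3 : |c'| * |dt (g'.1 *ᵥ w) η| ≤ 1 := by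
    have e := dt_mulVec g' w v'
    rw [h', ← one_smul ℝ (g'.1 *ᵥ w), dt_smul_smul, one_mul] at e
    rw [← abs_mul, e]
    simpa [hv', hw] using abs_dt_le w v'
  have h4 : n1 (g'.1 *ᵥ w) ≤ Nm g'.1 := by simpa [hw] using n1_mulVec g'.1 w
  have h5 : n1 (g.1 *ᵥ t) ≤ Nm g.1 := by simpa [ht] using n1_mulVec g.1 t
  have := n1_nonneg (g'.1 *ᵥ w)
  have := n1_nonneg (g.1 *ᵥ t)
  calc _ ≤ (|dt η (g.1 *ᵥ t)| * n1 (g'.1 *ᵥ w) + |dt (g'.1 *ᵥ w) η| * n1 (g.1 *ᵥ t)) *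
        (|c| * |c'|) := by gcongr
    _ = |c'| * ((|c| * |dt η (g.1 *ᵥ t)|) * n1 (g'.1 *ᵥ w)) +
        |c| * ((|c'| * |dt (g'.1 *ᵥ w) η|) * n1 (g.1 *ᵥ t)) := by ring
    _ ≤ |c'| * (1 * Nm g'.1) + |c| * (1 * Nm g.1) := by gcongr
    _ = _ := by ring

lemma good_count {x x' : PSL(2, ℝ)} {p p' : P1} {θ : ℝ} (hθ : 0 < θ)
    (hp : θ * NN x ≤ str x p) (hp' : θ * NN x' ≤ str x' p') (e : x • p = x' • p')
    (h1 : NN x ≤ 2 * NN x') (h2 : NN x' ≤ 2 * NN x) : NN (x⁻¹ * x') ≤ 16 / θ := by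
  set g : SL(2, ℝ) := x.out with hg
  set g' : SL(2, ℝ) := x'.out with hg'
  have hx : (g : PSL(2, ℝ)) = x := QuotientGroup.out_eq' x
  have hx' : (g' : PSL(2, ℝ)) = x' := QuotientGroup.out_eq' x'
  obtain ⟨c, hc, hc1⟩ := exists_mulVec_uv g p
  obtain ⟨c', hc', hc1'⟩ := exists_mulVec_uv g' p'
  rw [hx] at hc
  rw [hx', ← e] at hc'
  have hN := one_le_NN x
  have hN' := one_le_NN x'
  have b1 : θ * NN x ≤ |c| := by rw [hc1]; exact hp
  have b2 : θ * NN x' ≤ |c'| := by rw [hc1']; exact hp'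
  have c0 : 0 < |c| := lt_of_lt_of_le (by positivity) b1
  have c0' : 0 < |c'| := lt_of_lt_of_le (by positivity) b2
  have key : ∀ w t : Fin 2 → ℝ, n1 w = 1 → n1 t = 1 →
      |dt ((g⁻¹ * g' : SL(2, ℝ)).1 *ᵥ w) t| ≤ 4 / θ := by
    intro w t hw ht
    have h3 := entry_bound g g' (uv p) (uv p') _ c c' (n1_uv _) (n1_uv _) (n1_uv _) hc hc' w t
      hw ht
    have h4 : dt ((g⁻¹ * g' : SL(2, ℝ)).1 *ᵥ w) t = dt (g'.1 *ᵥ w) (g.1 *ᵥ t) := by
      rw [← dt_mulVec g, Matrix.mulVec_mulVec, ← Matrix.SpecialLinearGroup.coe_mul,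
        mul_inv_cancel_left]
    rw [h4, le_div_iff₀ hθ]
    change _ ≤ |c'| * NN x' + |c| * NN x at h3
    have h5 : θ * (|c'| * NN x' + |c| * NN x) ≤ 4 * (|c| * |c'|) := by
      nlinarith [mul_le_mul_of_nonneg_left b1 c0'.le, mul_le_mul_of_nonneg_left b2 c0.le,
        mul_le_mul_of_nonneg_left h1 (mul_pos hθ c0).le,
        mul_le_mul_of_nonneg_left h2 (mul_pos hθ c0').le]
    have h6 := mul_le_mul_of_nonneg_left h3 hθ.le
    have h7 := mul_pos c0 c0'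
    by_contra hcon
    push Not at hcon
    nlinarith
  rw [← hx, ← hx', ← QuotientGroup.mk_inv, ← QuotientGroup.mk_mul, NN_mk]
  have k1 := key ![1, 0] ![1, 0] (by simp [n1]) (by simp [n1])
  have k2 := key ![1, 0] ![0, 1] (by simp [n1]) (by simp [n1])
  have k3 := key ![0, 1] ![1, 0] (by simp [n1]) (by simp [n1])
  have k4 := key ![0, 1] ![0, 1] (by simp [n1]) (by simp [n1])
  simp only [dt, mulVec_zero', mulVec_one', Matrix.cons_val_zero, Matrix.cons_val_one,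
    mul_one, mul_zero, add_zero, zero_add, sub_zero, zero_sub, abs_neg] at k1 k2 k3 k4
  unfold Nm
  have : 16 / θ = 4 * (4 / θ) := by ring
  linarith

/-- The nilpotent matrix attached to a vector. -/
def nil (v : Fin 2 → ℝ) : Matrix (Fin 2) (Fin 2) ℝ :=
  !![-(v 0 * v 1), v 0 * v 0; -(v 1 * v 1), v 0 * v 1]

lemma eq_of_fix (g : SL(2, ℝ)) {v : Fin 2 → ℝ} (hv : v ≠ 0) (h : g.1 *ᵥ v = v) :
    ∃ τ : ℝ, g.1 = 1 + τ • nil v := by
  have h0 := congrFun h 0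
  have h1 := congrFun h 1
  rw [mulVec_zero'] at h0
  rw [mulVec_one'] at h1
  have hd := det_eq g
  have hpos : 0 < v 0 * v 0 + v 1 * v 1 := by
    by_contra hc
    apply hv
    have a0 : v 0 = 0 := by nlinarith [mul_self_nonneg (v 0), mul_self_nonneg (v 1)]
    have a1 : v 1 = 0 := by nlinarith [mul_self_nonneg (v 0), mul_self_nonneg (v 1)]
    ext i
    fin_cases i
    · exact a0
    · exact a1
  have htr : g.1 0 0 + g.1 1 1 = 2 := by
    have t0 : (g.1 0 0 + g.1 1 1 - 2) * v 0 = 0 := by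
      linear_combination (1 - g.1 1 1) * h0 + g.1 0 1 * h1 + v 0 * hd
    have t1 : (g.1 0 0 + g.1 1 1 - 2) * v 1 = 0 := by
      linear_combination (1 - g.1 0 0) * h1 + g.1 1 0 * h0 + v 1 * hd
    have : (g.1 0 0 + g.1 1 1 - 2) * (v 0 * v 0 + v 1 * v 1) = 0 := by
      linear_combination v 0 * t0 + v 1 * t1
    have := (mul_eq_zero.mp this).resolve_right hpos.ne'
    linarith
  obtain ⟨τ, hτ⟩ : ∃ τ : ℝ, τ * (v 0 * v 0 + v 1 * v 1) = g.1 0 1 - g.1 1 0 :=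
    ⟨_, div_mul_cancel₀ _ hpos.ne'⟩
  refine ⟨τ, ?_⟩
  ext i j
  refine mul_right_cancel₀ hpos.ne' ?_
  fin_cases i <;> fin_cases j <;> simp [nil, -mul_eq_mul_right_iff]
  · linear_combination v 0 * h0 - v 1 * h1 + v 1 * v 1 * htr + v 0 * v 1 * hτ
  · linear_combination v 1 * h0 + v 0 * h1 - v 0 * v 1 * htr - v 0 * v 0 * hτ
  · linear_combination v 1 * h0 + v 0 * h1 - v 0 * v 1 * htr + v 1 * v 1 * hτ
  · linear_combination - v 0 * h0 + v 1 * h1 + v 0 * v 0 * htr - v 0 * v 1 * hτ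

lemma conj_nil (g : SL(2, ℝ)) {v : Fin 2 → ℝ} {a : ℝ} (h : g.1 *ᵥ v = a • v) :
    g.1 * nil v = (a ^ 2 • nil v) * g.1 := by
  have h0 := congrFun h 0
  have h1 := congrFun h 1
  rw [mulVec_zero'] at h0
  rw [mulVec_one'] at h1
  simp only [Pi.smul_apply, smul_eq_mul] at h0 h1
  have hd := det_eq g
  have k0 : g.1 1 1 * v 0 * a - g.1 0 1 * v 1 * a = v 0 := by
    linear_combination (-g.1 1 1) * h0 + g.1 0 1 * h1 + v 0 * hd
  have k1 : g.1 0 0 * v 1 * a - g.1 1 0 * v 0 * a = v 1 := by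
    linear_combination (-g.1 0 0) * h1 + g.1 1 0 * h0 + v 1 * hd
  ext i j
  fin_cases i <;> fin_cases j <;> simp [nil, Matrix.mul_apply, Fin.sum_univ_two]
  · linear_combination (-v 1) * h0 + a * v 0 * k1
  · linear_combination v 0 * h0 - a * v 0 * k0
  · linear_combination (-v 1) * h1 + a * v 1 * k1
  · linear_combination v 0 * h1 - a * v 1 * k0

lemma nil_zero_of_contract (Γ : Subgroup PSL(2, ℝ)) [DiscreteTopology Γ] (g c : SL(2, ℝ))
    (hg : (g : PSL(2, ℝ)) ∈ Γ) (hc : (c : PSL(2, ℝ)) ∈ Γ) {v : Fin 2 → ℝ} {a τ : ℝ}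
    (h : g.1 *ᵥ v = a • v) (ha : a ^ 2 < 1) (hτ : c.1 = 1 + τ • nil v) :
    c = 1 := by
  obtain ⟨δ, hδ, -, hgap⟩ := discrete_gap Γ
  have key : ∀ k : ℕ, (g ^ k * c * (g ^ k)⁻¹).1 = 1 + ((a ^ 2) ^ k * τ) • nil v := by
    intro k
    induction k with
    | zero => simpa using hτ
    | succ k ih =>
      have e : g ^ (k + 1) * c * (g ^ (k + 1))⁻¹ = g * (g ^ k * c * (g ^ k)⁻¹) * g⁻¹ := by group
      have e1 : g.1 * (g⁻¹ : SL(2, ℝ)).1 = 1 := by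
        rw [← Matrix.SpecialLinearGroup.coe_mul, mul_inv_cancel, Matrix.SpecialLinearGroup.coe_one]
      rw [e, Matrix.SpecialLinearGroup.coe_mul, Matrix.SpecialLinearGroup.coe_mul, ih, mul_add,
        mul_one, Matrix.mul_smul, conj_nil g h, add_mul, e1, Matrix.smul_mul, mul_assoc, e1,
        mul_one, smul_smul]
      congr 2
      ring
  have ht : Tendsto (fun k : ℕ => (a ^ 2) ^ k * (|τ| * Nm (nil v))) atTop
      (𝓝 (0 * (|τ| * Nm (nil v)))) :=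
    (tendsto_pow_atTop_nhds_zero_of_lt_one (sq_nonneg a) ha).mul_const _
  rw [zero_mul] at ht
  obtain ⟨k, hk⟩ := (ht.eventually (ge_mem_nhds hδ)).exists
  have h1 := hgap (g ^ k * c * (g ^ k)⁻¹) (by
    rw [QuotientGroup.mk_mul, QuotientGroup.mk_mul, QuotientGroup.mk_inv, QuotientGroup.mk_pow]
    exact Γ.mul_mem (Γ.mul_mem (Γ.pow_mem hg k) hc) (Γ.inv_mem (Γ.pow_mem hg k))) (by
    rw [key, add_sub_cancel_left, Nm_smul, abs_mul, abs_of_nonneg (by positivity), mul_assoc]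
    exact hk)
  have : c = (g ^ k)⁻¹ * (g ^ k * c * (g ^ k)⁻¹) * g ^ k := by group
  rw [this, h1]
  simp

lemma inv_mulVec (g : SL(2, ℝ)) {v : Fin 2 → ℝ} {a : ℝ} (h : g.1 *ᵥ v = a • v) (ha : a ≠ 0) :
    (g⁻¹ : SL(2, ℝ)).1 *ᵥ v = a⁻¹ • v := by
  have := congrArg (fun w => (g⁻¹ : SL(2, ℝ)).1 *ᵥ w) h
  simp only [Matrix.mulVec_mulVec, ← Matrix.SpecialLinearGroup.coe_mul, inv_mul_cancel,
    Matrix.SpecialLinearGroup.coe_one, Matrix.one_mulVec, Matrix.mulVec_smul] at this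
  conv_rhs => rw [this, smul_smul, inv_mul_cancel₀ ha, one_smul]

lemma nil_zero_of_ne (Γ : Subgroup PSL(2, ℝ)) [DiscreteTopology Γ] (g c : SL(2, ℝ))
    (hg : (g : PSL(2, ℝ)) ∈ Γ) (hc : (c : PSL(2, ℝ)) ∈ Γ) {v : Fin 2 → ℝ} {a τ : ℝ}
    (h : g.1 *ᵥ v = a • v) (ha0 : a ≠ 0) (ha : a ^ 2 ≠ 1) (hτ : c.1 = 1 + τ • nil v) :
    c = 1 := by
  rcases lt_or_gt_of_ne ha with h1 | h1
  · exact nil_zero_of_contract Γ g c hg hc h h1 hτ
  · refine nil_zero_of_contract Γ g⁻¹ c (by rw [QuotientGroup.mk_inv]; exact Γ.inv_mem hg) hc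
      (inv_mulVec g h ha0) ?_ hτ
    rw [inv_pow]
    exact inv_lt_one_of_one_lt₀ h1

lemma exists_unip (g : SL(2, ℝ)) {v : Fin 2 → ℝ} (hv : v ≠ 0) {a : ℝ} (h : g.1 *ᵥ v = a • v)
    (ha : a ^ 2 = 1) : ∃ s τ : ℝ, g.1 = s • 1 + τ • nil v := by
  have : (a - 1) * (a + 1) = 0 := by linear_combination ha
  rcases mul_eq_zero.mp this with h2 | h2
  · have : a = 1 := by linarith
    rw [this, one_smul] at h
    obtain ⟨τ, hτ⟩ := eq_of_fix g hv h
    exact ⟨1, τ, by simpa using hτ⟩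
  · have : a = -1 := by linarith
    obtain ⟨τ, hτ⟩ := eq_of_fix (-g) hv (by
      rw [Matrix.SpecialLinearGroup.coe_neg, Matrix.neg_mulVec, h, this]; simp)
    rw [Matrix.SpecialLinearGroup.coe_neg] at hτ
    refine ⟨-1, -τ, ?_⟩
    rw [← neg_neg g.1, hτ]
    simp [add_comm]

theorem stab_comm (Γ : Subgroup PSL(2, ℝ)) [DiscreteTopology Γ] (p : P1) :
    ∀ x ∈ Γ, ∀ y ∈ Γ, x • p = p → y • p = p → x * y = y * x := by
  intro x hx y hy hxp hyp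
  induction x using QuotientGroup.induction_on with | H g =>
  induction y using QuotientGroup.induction_on with | H h =>
  obtain ⟨a, ha, ha1⟩ := exists_mulVec_uv g p
  obtain ⟨b, hb, hb1⟩ := exists_mulVec_uv h p
  rw [hxp] at ha
  rw [hyp] at hb
  have ha0 : a ≠ 0 := abs_pos.mp (ha1 ▸ n1_pos (mulVec_ne g (uv_ne p)))
  have hb0 : b ≠ 0 := abs_pos.mp (hb1 ▸ n1_pos (mulVec_ne h (uv_ne p)))
  suffices H : g * h = h * g by rw [← QuotientGroup.mk_mul, ← QuotientGroup.mk_mul, H]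
  have hfix : (g * h * g⁻¹ * h⁻¹ : SL(2, ℝ)).1 *ᵥ uv p = uv p := by
    simp only [Matrix.SpecialLinearGroup.coe_mul, ← Matrix.mulVec_mulVec, inv_mulVec h hb hb0,
      inv_mulVec g ha ha0, Matrix.mulVec_smul, ha, hb, smul_smul]
    have : b⁻¹ * (a⁻¹ * (b * a)) = 1 := by field_simp
    rw [this, one_smul]
  obtain ⟨τ, hτ⟩ := eq_of_fix _ (uv_ne p) hfix
  have hcmem : ((g * h * g⁻¹ * h⁻¹ : SL(2, ℝ)) : PSL(2, ℝ)) ∈ Γ := by
    simp only [QuotientGroup.mk_mul, QuotientGroup.mk_inv]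
    exact Γ.mul_mem (Γ.mul_mem (Γ.mul_mem hx hy) (Γ.inv_mem hx)) (Γ.inv_mem hy)
  have hfin : g * h * g⁻¹ * h⁻¹ = 1 → g * h = h * g := by
    intro e
    have : g * h = (g * h * g⁻¹ * h⁻¹) * (h * g) := by group
    rw [this, e, one_mul]
  by_cases h1 : a ^ 2 = 1
  · by_cases h2 : b ^ 2 = 1
    · obtain ⟨s, σ, hs⟩ := exists_unip g (uv_ne p) ha h1
      obtain ⟨s', σ', hs'⟩ := exists_unip h (uv_ne p) hb h2
      apply Subtype.ext
      rw [Matrix.SpecialLinearGroup.coe_mul, Matrix.SpecialLinearGroup.coe_mul, hs, hs']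
      simp only [add_mul, mul_add, Matrix.smul_mul, Matrix.mul_smul, one_mul, mul_one,
        smul_smul]
      module
    · exact hfin (nil_zero_of_ne Γ h _ hy hcmem hb hb0 h2 hτ)
  · exact hfin (nil_zero_of_ne Γ g _ hx hcmem ha ha0 h1 hτ)

end Pool.Agent.MP_56e4d4_pr
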