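import Pool.Agent.MP_56e4d4_pr.Defs
import Pool.Agent.MP_56e4d4_pr.Proj

/-!
The modular group is a lattice, and the matrices `L`, `R` generate a free monoid in it.
-/

open Filter Topology MeasureTheory Matrix
open scoped MatrixGroups UpperHalfPlane

namespace Pool.Agent.MP_56e4d4_pr

/-- The natural map from `SL(2, ℤ)` to `PSL(2, ℝ)`. -/
noncomputable def emb : SL(2, ℤ) →* PSL(2, ℝ) :=
  (QuotientGroup.mk' _).comp (Matrix.SpecialLinearGroup.map (Int.castRingHom ℝ))

lemma emb_apply (g : SL(2, ℤ)) :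
    emb g = ((Matrix.SpecialLinearGroup.map (Int.castRingHom ℝ) g : SL(2, ℝ)) : PSL(2, ℝ)) := rfl

lemma eq_of_Nm_lt (A B : Matrix (Fin 2) (Fin 2) ℤ)
    (h : Nm (A.map (Int.castRingHom ℝ) - B.map (Int.castRingHom ℝ)) < 1) : A = B := by
  ext i j
  have := (abs_entry_le _ i j).trans_lt h
  simp only [Matrix.sub_apply, Matrix.map_apply, eq_intCast] at this
  have h2 : |A i j - B i j| < 1 := by exact_mod_cast this
  have := Int.abs_lt_one_iff.mp h2
  omega

instance discrete_modular : DiscreteTopology emb.range := by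
  refine discreteTopology_of_isOpen_singleton_one ?_
  have : ({1} : Set emb.range) = Subtype.val ⁻¹' (DD 1 ⁻¹' Set.Iio 1) := by
    ext ⟨x, g, rfl⟩
    simp only [Set.mem_singleton_iff, Set.mem_preimage, Set.mem_Iio]
    constructor
    · intro e
      have e' : emb g = ((1 : SL(2, ℝ)) : PSL(2, ℝ)) := congrArg Subtype.val e
      rw [e', DD_mk]
      simp
    · intro e
      apply Subtype.ext
      change emb g = 1
      rw [emb_apply, DD_mk, min_lt_iff] at e
      rcases e with e | e
      · have : g = 1 := Subtype.ext (eq_of_Nm_lt g.1 1 (by simpa using e))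
        rw [this, map_one]
      · have : g = -1 := Subtype.ext (eq_of_Nm_lt g.1 (-1) (by
          have h1 : (-1 : Matrix (Fin 2) (Fin 2) ℤ).map (Int.castRingHom ℝ) = -1 := by
            ext i j
            fin_cases i <;> fin_cases j <;> simp
          rw [h1]
          simpa using e))
        rw [this, emb_apply]
        have h2 : Matrix.SpecialLinearGroup.map (Int.castRingHom ℝ) (-1 : SL(2, ℤ)) =
            -(1 : SL(2, ℝ)) := by
          ext i j
          fin_cases i <;> fin_cases j <;> simp
        rw [h2, mk_neg]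
        rfl
  rw [this]
  exact (isOpen_Iio.preimage (continuous_DD 1)).preimage continuous_subtype_val

lemma volume_fd_lt_top : volume ModularGroup.fd < ⊤ := by
  rw [UpperHalfPlane.volume_eq_lintegral]
  have hsub : ((↑) : ℍ → ℂ) '' ModularGroup.fd ⊆
      Complex.measurableEquivRealProd ⁻¹' (Set.Icc (-1) 1 ×ˢ Set.Ioi (1 / 2)) := by
    rintro _ ⟨z, hz, rfl⟩
    have h1 := ModularGroup.three_le_four_mul_im_sq_of_mem_fd hz
    have h2 := abs_le.mp hz.2
    have h3 := z.im_pos
    refine ⟨⟨?_, ?_⟩, ?_⟩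
    · change (-1 : ℝ) ≤ z.re
      linarith [h2.1]
    · change z.re ≤ (1 : ℝ)
      linarith [h2.2]
    · change (1 / 2 : ℝ) < z.im
      by_contra h
      push Not at h
      nlinarith
  refine (lintegral_mono_set hsub).trans_lt ?_
  have h := Complex.volume_preserving_equiv_real_prod.setLIntegral_comp_preimage_emb
    Complex.measurableEquivRealProd.measurableEmbedding
    (fun p : ℝ × ℝ => (((1 / ‖p.2‖₊) ^ 2 : NNReal) : ENNReal))
    (Set.Icc (-1) 1 ×ˢ Set.Ioi (1 / 2))
  refine h.trans_lt ?_
  rw [Measure.volume_eq_prod, ← Measure.prod_restrict,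
    lintegral_prod _ (Measurable.aemeasurable (by fun_prop))]
  simp only [lintegral_const, Measure.restrict_apply MeasurableSet.univ, Set.univ_inter]
  refine ENNReal.mul_lt_top ?_ (by simp)
  have hi : IntegrableOn (fun t : ℝ => t ^ (-2 : ℝ)) (Set.Ioi (1 / 2)) :=
    integrableOn_Ioi_rpow_of_lt (by norm_num) (by norm_num)
  refine lt_of_eq_of_lt ?_ hi.2
  refine setLIntegral_congr_fun measurableSet_Ioi fun t ht => ?_
  have ht' : (0 : ℝ) < t := lt_trans (by norm_num) ht
  simp only [enorm_eq_nnnorm, ENNReal.coe_inj]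
  ext
  simp [Real.rpow_neg ht'.le, abs_of_pos ht']

lemma isLattice_modular : IsLattice emb.range := by
  refine ⟨inferInstance, ModularGroup.fd, ModularGroup.isClosed_fd.measurableSet,
    volume_fd_lt_top, fun z => ?_⟩
  obtain ⟨g, hg⟩ := ModularGroup.exists_smul_mem_fd z
  refine ⟨Matrix.SpecialLinearGroup.map (Int.castRingHom ℝ) g, ⟨g, rfl⟩, ?_⟩
  convert hg using 1
  ext
  rw [UpperHalfPlane.coe_specialLinearGroup_apply, UpperHalfPlane.coe_specialLinearGroup_apply]
  simp

/-- The two letters. -/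
def letter : Bool → SL(2, ℤ)
  | true => ⟨!![1, 1; 0, 1], by simp [Matrix.det_fin_two_of]⟩
  | false => ⟨!![1, 0; 1, 1], by simp [Matrix.det_fin_two_of]⟩

/-- The group element of a word. -/
noncomputable def wd (w : List Bool) : PSL(2, ℝ) := emb (w.map letter).prod

lemma wd_append (w w' : List Bool) : wd (w ++ w') = wd w * wd w' := by
  simp [wd]

lemma wd_nil : wd [] = 1 := by simp [wd]

lemma wd_mem (w : List Bool) : wd w ∈ emb.range := ⟨_, rfl⟩

/-- The image of the vector `(1, 1)`. -/
def vec : List Bool → ℕ × ℕ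
  | [] => (1, 1)
  | true :: w => ((vec w).1 + (vec w).2, (vec w).2)
  | false :: w => ((vec w).1, (vec w).1 + (vec w).2)

lemma vec_pos (w : List Bool) : 0 < (vec w).1 ∧ 0 < (vec w).2 ∧
    w.length + 2 ≤ (vec w).1 + (vec w).2 := by
  induction w with
  | nil => simp [vec]
  | cons b w ih => cases b <;> simp only [vec, List.length_cons] <;> omega

lemma vec_inj : ∀ w w' : List Bool, vec w = vec w' → w = w'
  | [], [], _ => rfl
  | [], b :: w', h => by
    have := vec_pos w'
    cases b <;> simp only [vec, Prod.mk.injEq] at h <;> omega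
  | b :: w, [], h => by
    have := vec_pos w
    cases b <;> simp only [vec, Prod.mk.injEq] at h <;> omega
  | b :: w, b' :: w', h => by
    have := vec_pos w
    have := vec_pos w'
    cases b <;> cases b' <;> simp only [vec, Prod.mk.injEq] at h
    · rw [vec_inj w w' (Prod.ext (by omega) (by omega))]
    · omega
    · omega
    · rw [vec_inj w w' (Prod.ext (by omega) (by omega))]

lemma mulVec_vec (w : List Bool) :
    (Matrix.SpecialLinearGroup.map (Int.castRingHom ℝ) (w.map letter).prod).1 *ᵥ ![1, 1] =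
      ![((vec w).1 : ℝ), ((vec w).2 : ℝ)] := by
  induction w with
  | nil => simp [vec]
  | cons b w ih =>
    rw [List.map_cons, List.prod_cons, map_mul, Matrix.SpecialLinearGroup.coe_mul,
      ← Matrix.mulVec_mulVec, ih]
    ext i
    cases b <;> fin_cases i <;> simp [letter, vec, mulVec_zero', mulVec_one']

lemma wd_inj : Function.Injective wd := by
  intro w w' h
  apply vec_inj
  have h1 := mulVec_vec w
  have h2 := mulVec_vec w'
  rcases mk_eq_mk (show ((Matrix.SpecialLinearGroup.map (Int.castRingHom ℝ)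
    (w.map letter).prod : SL(2, ℝ)) : PSL(2, ℝ)) = (Matrix.SpecialLinearGroup.map
      (Int.castRingHom ℝ) (w'.map letter).prod : SL(2, ℝ)) from h) with e | e
  · rw [e, h2] at h1
    have a := congrFun h1 0
    have b := congrFun h1 1
    simp only [Matrix.cons_val_zero, Matrix.cons_val_one, Nat.cast_inj] at a b
    exact Prod.ext a.symm b.symm
  · rw [e, Matrix.neg_mulVec, h2] at h1
    have a := congrFun h1 0
    simp only [Pi.neg_apply, Matrix.cons_val_zero] at a
    have p1 : (0 : ℝ) < (vec w).1 := by exact_mod_cast (vec_pos w).1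
    have p2 : (0 : ℝ) < (vec w').1 := by exact_mod_cast (vec_pos w').1
    linarith

lemma length_le_NN (w : List Bool) : (w.length : ℝ) ≤ 2 * NN (wd w) := by
  rw [wd, emb_apply, NN_mk]
  have h := n1_mulVec (Matrix.SpecialLinearGroup.map (Int.castRingHom ℝ)
    (w.map letter).prod).1 ![1, 1]
  rw [mulVec_vec] at h
  have p : ((w.length + 2 : ℕ) : ℝ) ≤ (((vec w).1 + (vec w).2 : ℕ) : ℝ) := by
    exact_mod_cast (vec_pos w).2.2
  simp only [n1, Matrix.cons_val_zero, Matrix.cons_val_one, Nat.abs_cast, abs_one] at h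
  push_cast at p
  linarith

lemma closure_eq (T : Set PSL(2, ℝ)) (h1 : wd [false] ∈ T) (h2 : wd [true] ∈ T)
    (h3 : T ⊆ emb.range) : Subgroup.closure T = emb.range := by
  refine le_antisymm ((Subgroup.closure_le _).mpr h3) ?_
  rw [MonoidHom.range_eq_map, ← SpecialLinearGroup.SL2Z_generators, MonoidHom.map_closure,
    Subgroup.closure_le]
  have hL : emb (letter false) ∈ Subgroup.closure T := by
    simpa [wd] using Subgroup.subset_closure h1
  have hR : emb (letter true) ∈ Subgroup.closure T := by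
    simpa [wd] using Subgroup.subset_closure h2
  rintro _ ⟨g, hg, rfl⟩
  rcases hg with rfl | rfl
  · have : ModularGroup.S = (letter true)⁻¹ * letter false * (letter true)⁻¹ := by
      decide
    rw [this, map_mul, map_mul, map_inv]
    exact Subgroup.mul_mem _ (Subgroup.mul_mem _ (Subgroup.inv_mem _ hR) hL)
      (Subgroup.inv_mem _ hR)
  · exact hR

lemma NN_wd_le (w : List Bool) : NN (wd w) ≤ 2 ^ (2 * w.length + 1) := by
  induction w with
  | nil =>
    rw [wd_nil, ← QuotientGroup.mk_one, NN_mk]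
    norm_num [Nm]
  | cons b w ih =>
    have h1 : NN (wd [b]) ≤ 4 := by
      rw [wd, emb_apply, NN_mk]
      cases b <;> simp [letter, Nm] <;> norm_num
    have h2 := NN_mul (wd [b]) (wd w)
    rw [← wd_append] at h2
    refine h2.trans ?_
    have := one_le_NN (wd w)
    calc NN (wd [b]) * NN (wd w) ≤ 4 * 2 ^ (2 * w.length + 1) := by gcongr
      _ = _ := by simp only [List.length_cons]; ring

lemma NN_inv (x : PSL(2, ℝ)) : NN x⁻¹ = NN x := by
  induction x using QuotientGroup.induction_on with | H g =>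
  rw [← QuotientGroup.mk_inv, NN_mk, NN_mk, Nm_inv]

/-- Signed words. -/
noncomputable def sw (a : Bool × List Bool) : PSL(2, ℝ) := if a.1 then wd a.2 else (wd a.2)⁻¹

lemma sw_not (b : Bool) (c : List Bool) : sw (!b, c) = (sw (b, c))⁻¹ := by
  cases b <;> simp [sw]

lemma sw_mem (a : Bool × List Bool) : sw a ∈ emb.range := by
  unfold sw
  split_ifs
  · exact wd_mem _
  · exact Subgroup.inv_mem _ (wd_mem _)

lemma NN_sw (a : Bool × List Bool) : NN (sw a) = NN (wd a.2) := by
  unfold sw
  split_ifs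
  · rfl
  · exact NN_inv _

lemma sw_inj {a a' : Bool × List Bool} (ha : a.2 ≠ []) (h : sw a = sw a') : a = a' := by
  obtain ⟨b, c⟩ := a
  obtain ⟨b', c'⟩ := a'
  have key : ∀ u u' : List Bool, wd u = (wd u')⁻¹ → u = [] ∧ u' = [] := by
    intro u u' e
    rw [eq_inv_iff_mul_eq_one, ← wd_append, ← wd_nil] at e
    exact List.append_eq_nil_iff.mp (wd_inj e)
  cases b <;> cases b' <;> simp only [sw, if_true, Bool.false_eq_true, if_false] at h
  · rw [wd_inj (inv_injective h)]
  · exact absurd (key _ _ h.symm).2 ha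
  · exact absurd (key _ _ h).1 ha
  · rw [wd_inj h]

lemma letter_pow (b : Bool) (k : ℕ) :
    (Matrix.SpecialLinearGroup.map (Int.castRingHom ℝ) (letter b ^ k)).1 =
      if b then !![1, (k : ℝ); 0, 1] else !![1, 0; (k : ℝ), 1] := by
  induction k with
  | zero =>
    ext i j
    cases b <;> fin_cases i <;> fin_cases j <;> simp
  | succ k ih =>
    rw [pow_succ, map_mul, Matrix.SpecialLinearGroup.coe_mul, ih]
    ext i j
    cases b <;> fin_cases i <;> fin_cases j <;>
      simp [letter, Matrix.mul_apply, Fin.sum_univ_two, add_comm]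

lemma no_finite_invariant (F : Finset P1) (hF : F.Nonempty)
    (h : ∀ b : Bool, ∀ p ∈ F, wd [b] • p ∈ F) : False := by
  obtain ⟨p, hp⟩ := hF
  have key : ∀ b : Bool, ∃ k : ℕ, k ≠ 0 ∧ ∃ c : ℝ,
      (if b then !![1, (k : ℝ); 0, 1] else !![1, 0; (k : ℝ), 1]) *ᵥ uv p = c • uv p := by
    intro b
    have h1 : ∀ k : ℕ, wd [b] ^ k • p ∈ (F : Set P1) := by
      intro k
      induction k with
      | zero => simpa using hp
      | succ k ih => rw [pow_succ', mul_smul]; exact h b _ ih
    obtain ⟨i, j, hij, e⟩ := F.finite_toSet.exists_lt_map_eq_of_forall_mem h1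
    obtain ⟨k, rfl⟩ := Nat.exists_eq_add_of_lt hij
    rw [add_assoc, pow_add, mul_smul, smul_left_cancel_iff] at e
    obtain ⟨c, hc, -⟩ := exists_mulVec_uv
      (Matrix.SpecialLinearGroup.map (Int.castRingHom ℝ) (letter b ^ (k + 1))) p
    have e2 : wd [b] ^ (k + 1) = emb (letter b ^ (k + 1)) := by simp [wd]
    rw [← emb_apply, ← e2, ← e, letter_pow] at hc
    exact ⟨k + 1, by omega, c, hc⟩
  obtain ⟨k, hk, c, hc⟩ := key true
  obtain ⟨k', hk', c', hc'⟩ := key false
  have a0 := congrFun hc 0
  have a1 := congrFun hc 1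
  have b0 := congrFun hc' 0
  have b1 := congrFun hc' 1
  simp [mulVec_zero', mulVec_one', -mul_eq_mul_right_iff] at a0 a1 b0 b1
  have hk0 : (k : ℝ) ≠ 0 := by exact_mod_cast hk
  have hk0' : (k' : ℝ) ≠ 0 := by exact_mod_cast hk'
  have v1 : uv p 1 = 0 := by
    have : k * (uv p 1 * uv p 1) = 0 := by linear_combination uv p 1 * a0 - uv p 0 * a1
    simpa [hk0] using this
  have v0 : uv p 0 = 0 := by
    have : k' * (uv p 0 * uv p 0) = 0 := by linear_combination uv p 0 * b1 - uv p 1 * b0
    simpa [hk0'] using this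
  have := n1_uv p
  simp [n1, v0, v1] at this

end Pool.Agent.MP_56e4d4_pr
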