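import Pool.Agent.MP_56e4d4_pr.Bridge
import Pool.Agent.MP_56e4d4_pr.Lattice

/-!
The counterexample: escaping generators of vanishing weight but large entropy.
-/

open Filter Topology Finset
open scoped MatrixGroups

namespace Pool.Agent.MP_56e4d4_pr

open Classical in
/-- The symmetric set of group elements of a set of words. -/
noncomputable def gens (C : Finset (List Bool)) : Finset PSL(2, ℝ) :=
  ((Finset.univ : Finset Bool) ×ˢ C).image sw

/-- The symmetric measure given by weights on words. -/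
noncomputable def meas (C : Finset (List Bool)) (w : List Bool → ℝ) :
    MonoidAlgebra ℝ PSL(2, ℝ) :=
  ∑ a ∈ (Finset.univ : Finset Bool) ×ˢ C, MonoidAlgebra.single (sw a) (w a.2)

lemma Ex_meas (C : Finset (List Bool)) (w : List Bool → ℝ) (φ : PSL(2, ℝ) → ℝ) :
    Ex (meas C w) φ = ∑ a ∈ (Finset.univ : Finset Bool) ×ˢ C, w a.2 * φ (sw a) := by
  simp only [meas, Ex_sum_left, Ex_single]

lemma coeff_meas {C : Finset (List Bool)} (hC : [] ∉ C) (w : List Bool → ℝ) (b : Bool)
    {c : List Bool} (hc : c ∈ C) : (meas C w).coeff (sw (b, c)) = w c := by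
  classical
  rw [coeff_eq_Ex, Ex_meas, Finset.sum_eq_single (b, c)]
  · simp
  · intro a ha hne
    rw [if_neg, mul_zero]
    refine fun e => hne (sw_inj ?_ e)
    intro h
    exact hC (h ▸ (Finset.mem_product.mp ha).2)
  · intro h
    exact absurd (Finset.mem_product.mpr ⟨Finset.mem_univ _, hc⟩) h

lemma coeff_meas_of_not_mem {C : Finset (List Bool)} (w : List Bool → ℝ) {x : PSL(2, ℝ)}
    (hx : x ∉ gens C) : (meas C w).coeff x = 0 := by
  classical
  rw [coeff_eq_Ex, Ex_meas]
  refine Finset.sum_eq_zero fun c hc => ?_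
  rw [if_neg, mul_zero]
  rintro rfl
  exact hx (Finset.mem_image_of_mem _ hc)

lemma mem_gens {C : Finset (List Bool)} {x : PSL(2, ℝ)} :
    x ∈ gens C ↔ ∃ b, ∃ c ∈ C, sw (b, c) = x := by
  simp only [gens, Finset.mem_image, Finset.mem_product, Finset.mem_univ, true_and, Prod.exists]

lemma inv_mem_gens {C : Finset (List Bool)} {x : PSL(2, ℝ)} (hx : x ∈ gens C) : x⁻¹ ∈ gens C := by
  obtain ⟨b, c, hc, rfl⟩ := mem_gens.mp hx
  exact mem_gens.mpr ⟨!b, c, hc, sw_not b c⟩

lemma coeff_meas_inv {C : Finset (List Bool)} (hC : [] ∉ C) (w : List Bool → ℝ)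
    (x : PSL(2, ℝ)) : (meas C w).coeff x⁻¹ = (meas C w).coeff x := by
  by_cases hx : x ∈ gens C
  · obtain ⟨b, c, hc, rfl⟩ := mem_gens.mp hx
    rw [← sw_not, coeff_meas hC w _ hc, coeff_meas hC w _ hc]
  · rw [coeff_meas_of_not_mem w hx, coeff_meas_of_not_mem w
      fun h => hx (by simpa using inv_mem_gens h)]

lemma support_meas {C : Finset (List Bool)} (hC : [] ∉ C) {w : List Bool → ℝ}
    (hw : ∀ c ∈ C, 0 < w c) : (meas C w).coeff.support = gens C := by
  ext x
  rw [Finsupp.mem_support_iff]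
  constructor
  · intro h
    by_contra h'
    exact h (coeff_meas_of_not_mem w h')
  · intro h
    obtain ⟨b, c, hc, rfl⟩ := mem_gens.mp h
    rw [coeff_meas hC w b hc]
    exact (hw c hc).ne'

lemma isProb_meas {C : Finset (List Bool)} (hC : [] ∉ C) {w : List Bool → ℝ}
    (hw : ∀ c ∈ C, 0 < w c) (hs : 2 * ∑ c ∈ C, w c = 1) : IsProb (meas C w) := by
  refine ⟨fun x => ?_, ?_⟩
  · by_cases h : x ∈ gens C
    · obtain ⟨b, c, hc, rfl⟩ := mem_gens.mp h
      rw [coeff_meas hC w b hc]
      exact (hw c hc).le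
    · rw [coeff_meas_of_not_mem w h]
  · have := Ex_meas C w (fun _ => 1)
    rw [Finset.sum_product] at this
    simp only [mul_one, Finset.sum_const, Finset.card_univ, Fintype.card_bool, nsmul_eq_mul,
      Nat.cast_ofNat, hs] at this
    simpa [Ex] using this

/-- The short words. -/
def short : Finset (List Bool) := {[false], [true]}

/-- The long words. -/
def long (l : ℕ) : Finset (List Bool) :=
  (Finset.univ : Finset (Fin l → Bool)).image List.ofFn

lemma card_long (l : ℕ) : (long l).card = 2 ^ l := by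
  rw [long, Finset.card_image_of_injective _ List.ofFn_injective]
  simp

lemma mem_long {l : ℕ} {c : List Bool} (h : c ∈ long l) : c.length = l := by
  obtain ⟨v, -, rfl⟩ := Finset.mem_image.mp h
  simp

lemma mem_short {c : List Bool} : c ∈ short ↔ c = [false] ∨ c = [true] := by
  simp [short]

lemma disjoint_short_long (n : ℕ) : Disjoint short (long ((n + 2) ^ 2)) := by
  rw [Finset.disjoint_left]
  intro c hc hc'
  have := mem_long hc'
  have h2 : 2 ^ 2 ≤ (n + 2) ^ 2 := Nat.pow_le_pow_left (by omega) 2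
  rcases mem_short.mp hc with rfl | rfl <;> simp only [List.length_singleton] at this <;>
    omega

/-- The words used at stage `n`. -/
def code (n : ℕ) : Finset (List Bool) := short ∪ long ((n + 2) ^ 2)

lemma nil_short : [] ∉ short := by decide

lemma nil_code (n : ℕ) : [] ∉ code n := by
  intro h
  rcases Finset.mem_union.mp h with h | h
  · exact nil_short h
  · have := mem_long h
    have h2 : 2 ^ 2 ≤ (n + 2) ^ 2 := Nat.pow_le_pow_left (by omega) 2
    simp only [List.length_nil] at this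
    omega

/-- The weights. -/
noncomputable def wt (n : ℕ) (c : List Bool) : ℝ :=
  if c ∈ short then (1 - 1 / ((n : ℝ) + 2)) / 4
  else 1 / (((n : ℝ) + 2) * 2 ^ ((n + 2) ^ 2 + 1))

lemma wt_pos (n : ℕ) (c : List Bool) : 0 < wt n c := by
  unfold wt
  split_ifs
  · have : 1 / ((n : ℝ) + 2) < 1 := by
      rw [div_lt_one (by positivity)]
      linarith [(Nat.cast_nonneg n : (0 : ℝ) ≤ n)]
    linarith
  · positivity

lemma wt_long (n : ℕ) {c : List Bool} (hc : c ∈ long ((n + 2) ^ 2)) :
    wt n c = 1 / (((n : ℝ) + 2) * 2 ^ ((n + 2) ^ 2 + 1)) :=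
  if_neg (Finset.disjoint_right.mp (disjoint_short_long _) hc)

lemma wt_short (n : ℕ) {c : List Bool} (hc : c ∈ short) :
    wt n c = (1 - 1 / ((n : ℝ) + 2)) / 4 := if_pos hc

lemma sum_wt (n : ℕ) : 2 * ∑ c ∈ code n, wt n c = 1 := by
  rw [code, Finset.sum_union (disjoint_short_long _),
    Finset.sum_congr rfl fun c hc => wt_long n hc,
    Finset.sum_congr rfl fun c hc => wt_short n hc]
  have : short.card = 2 := by decide
  simp only [Finset.sum_const, card_long, this, nsmul_eq_mul]
  push_cast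
  field_simp
  ring

lemma isProb_code (n : ℕ) : IsProb (meas (code n) (wt n)) :=
  isProb_meas (nil_code n) (fun c _ => wt_pos n c) (sum_wt n)

lemma isProb_short : IsProb (meas short fun _ => 1 / 4) :=
  isProb_meas nil_short (fun _ _ => by norm_num) (by
    have : short.card = 2 := by decide
    simp only [Finset.sum_const, this, nsmul_eq_mul]
    norm_num)

lemma support_short : (meas short fun _ => 1 / 4).coeff.support = gens short :=
  support_meas nil_short fun _ _ => by norm_num

lemma tendsto_wt : Tendsto (fun n : ℕ => (1 - 1 / ((n : ℝ) + 2)) / 4) atTop (𝓝 (1 / 4)) := by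
  have h1 : Tendsto (fun n : ℕ => (1 - 1 / ((n : ℝ) + 2)) / 4) atTop (𝓝 ((1 - 0) / 4)) := by
    refine (tendsto_const_nhds.sub ?_).div_const 4
    exact tendsto_const_nhds.div_atTop
      (tendsto_atTop_add_const_right _ _ tendsto_natCast_atTop_atTop)
  rwa [sub_zero] at h1

theorem tendsto_hh_code : Tendsto (fun n => hh (meas (code n) (wt n))) atTop atTop := by
  classical
  have hasym : Asym emb.range fun _ y => y :=
    ⟨fun _ _ _ _ => Eventually.of_forall fun _ => rfl,
      fun _ _ => Eventually.of_forall fun _ => Set.injOn_id _⟩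
  have hfΓ : ∀ y ∈ (meas short fun _ => 1 / 4).coeff.support, y ∈ emb.range := by
    intro y hy
    rw [support_short] at hy
    obtain ⟨b, c, -, rfl⟩ := mem_gens.mp hy
    exact sw_mem _
  have hconv : Conv emb.range (fun _ y => y) (fun n => meas (code n) (wt n))
      (meas short fun _ => 1 / 4) := by
    refine conv_of_lower hasym isProb_code isProb_short hfΓ
      (fun n y => (meas (code n) (wt n)).coeff y) (fun y hy => ?_)
      fun y _ => Eventually.of_forall fun n => le_rfl
    rw [support_short] at hy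
    obtain ⟨b, c, hc, rfl⟩ := mem_gens.mp hy
    rw [coeff_meas nil_short _ b hc]
    refine tendsto_wt.congr fun n => ?_
    rw [coeff_meas (nil_code n) _ b (Finset.mem_union_left _ hc), wt_short n hc]
  obtain ⟨ξ⟩ : Nonempty P1 := ⟨Projectivization.mk ℝ ![1, 0] (by simp)⟩
  obtain ⟨δ, hδ, hNC⟩ := nonconcentration hasym (fun _ _ => tendsto_const_nhds) isProb_code
    isProb_short hfΓ hconv (by
      rintro ⟨F, hF, hinv⟩
      refine no_finite_invariant F hF fun b p hp => ?_
      have := hinv (sw (false, [b])) (by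
        rw [support_short]
        exact mem_gens.mpr ⟨false, [b], by cases b <;> simp [short], rfl⟩) p hp
      simpa [sw] using this) ξ (show (0 : ℝ) < 1 / 2 by norm_num)
  have hθ : 0 < δ / 2 := half_pos hδ
  obtain ⟨B, hBdef⟩ : ∃ B, B = (finite_ball emb.range (16 / (δ / 2))).toFinset := ⟨_, rfl⟩
  have hl2 : 0 < Real.log 2 := Real.log_pos one_lt_two
  have hlog := (tendsto_log_poly (20 * (B.card + 1)) 2 (by positivity)).eventually
    (gt_mem_nhds (show 0 < Real.log 2 / 8 by positivity))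
  refine tendsto_atTop_mono' _ (f₁ := fun n : ℕ => Real.log 2 / 8 * n + -1) ?_
    (tendsto_atTop_add_const_right _ _
      (tendsto_natCast_atTop_atTop.const_mul_atTop (by positivity)))
  filter_upwards [hNC, hlog, eventually_gt_atTop 0] with n hNC hlog hn0
  have hn0' : (0 : ℝ) < n := by exact_mod_cast hn0
  rw [div_lt_iff₀ hn0'] at hlog
  obtain ⟨l, hl⟩ : ∃ l, l = (n + 2) ^ 2 := ⟨_, rfl⟩
  set A : Finset PSL(2, ℝ) := (long l).image wd with hA
  have hAcard : A.card = 2 ^ l := by
    rw [hA, Finset.card_image_of_injective _ wd_inj, card_long]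
  obtain ⟨p, hp⟩ : ∃ p : ℝ, p = 1 / (((n : ℝ) + 2) * 2 ^ (l + 1)) := ⟨_, rfl⟩
  have hAw : ∀ x ∈ A, (meas (code n) (wt n) ^ 1).coeff x = p := by
    intro x hx
    obtain ⟨c, hc, rfl⟩ := Finset.mem_image.mp hx
    rw [hl] at hc
    rw [pow_one, hp, hl, ← wt_long n hc]
    exact coeff_meas (nil_code n) _ true (Finset.mem_union_right _ hc)
  have hcount := card_good_le A B id hθ (2 * l + 2) (by
    intro y hy
    obtain ⟨c, hc, rfl⟩ := Finset.mem_image.mp hy
    refine (NN_wd_le c).trans_lt ?_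
    rw [mem_long hc]
    exact pow_lt_pow_right₀ one_lt_two (by omega)) (by
    intro y hy y' hy' h
    obtain ⟨c, -, rfl⟩ := Finset.mem_image.mp hy
    obtain ⟨c', -, rfl⟩ := Finset.mem_image.mp hy'
    rw [hBdef, Set.Finite.mem_toFinset]
    exact ⟨Subgroup.mul_mem _ (Subgroup.inv_mem _ (wd_mem c)) (wd_mem c'), h⟩) ξ
  rw [Finset.image_id] at hcount
  have key := hh_ge_count' (isProb_code n) 1 A
    (fun x z => δ / 2 * NN x ≤ str x ((x⁻¹ * z) • ξ))
    (N := ((10 * (B.card + 1) * (n + 1) ^ 2 : ℕ) : ℝ)) (M := (2 : ℝ) ^ l) (η := 1 / 2)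
    (by exact_mod_cast Nat.succ_le_of_lt (by positivity))
    (one_le_pow₀ one_le_two) (by rw [hAcard]; push_cast; exact le_rfl)
    (by
      intro z
      have h2 : (2 * l + 2) * B.card ≤ 10 * (B.card + 1) * (n + 1) ^ 2 := by
        have : 2 * l + 2 ≤ 10 * (n + 1) ^ 2 := by rw [hl]; nlinarith
        calc _ ≤ (10 * (n + 1) ^ 2) * (B.card + 1) := Nat.mul_le_mul this (Nat.le_succ _)
          _ = _ := by ring
      have h4 := (Nat.cast_le (α := ℝ)).mpr ((hcount z).trans h2)
      convert h4)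
    (by
      filter_upwards [hNC, eventually_gt_atTop 0] with K hK hK0 x _
      exact bad_le (isProb_ces (isProb_code n) hK0.ne') ξ (by norm_num) hK x)
  rw [Finset.sum_congr rfl fun x hx => congrArg Real.negMulLog (hAw x hx),
    Finset.sum_congr rfl hAw, Finset.sum_const, Finset.sum_const, hAcard, nsmul_eq_mul,
    nsmul_eq_mul, Nat.cast_one, one_mul] at key
  have t0 : ((2 ^ l : ℕ) : ℝ) * p = 1 / (2 * ((n : ℝ) + 2)) := by
    rw [hp]
    push_cast
    field_simp
    ring
  have t1 : ((l : ℝ) + 1) * Real.log 2 / (2 * ((n : ℝ) + 2)) ≤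
      ((2 ^ l : ℕ) : ℝ) * Real.negMulLog p := by
    rw [Real.negMulLog, neg_mul, ← mul_neg, ← mul_assoc, t0, hp, one_div (_ * _ ^ _), Real.log_inv,
      neg_neg, Real.log_mul (by positivity) (by positivity), Real.log_pow, div_eq_mul_one_div,
      mul_comm]
    have h1 : 0 ≤ Real.log ((n : ℝ) + 2) := Real.log_nonneg (by linarith)
    gcongr
    push_cast
    linarith
  have t2 : Real.log (2 * (2 : ℝ) ^ l) = ((l : ℝ) + 1) * Real.log 2 := by
    rw [← pow_succ', Real.log_pow]
    push_cast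
    ring
  have t3 : Real.log (2 * ((10 * (B.card + 1) * (n + 1) ^ 2 : ℕ) : ℝ)) < Real.log 2 / 8 * n := by
    refine lt_of_eq_of_lt ?_ hlog
    congr 1
    push_cast
    ring
  have t4 : Real.log 2 / 4 * n ≤ ((l : ℝ) + 1) * Real.log 2 / (2 * ((n : ℝ) + 2)) / 2 := by
    rw [hl, le_div_iff₀ two_pos, le_div_iff₀ (by positivity)]
    push_cast
    nlinarith
  rw [t0, t2] at key
  have t5 : ((l : ℝ) + 1) * Real.log 2 * (1 / 2 * (1 / (2 * ((n : ℝ) + 2)))) =
      ((l : ℝ) + 1) * Real.log 2 / (2 * ((n : ℝ) + 2)) / 2 := by ring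
  have t6 : 0 ≤ 1 / (2 * ((n : ℝ) + 2)) := by positivity
  linarith

lemma eventually_mem_short {φ : ℕ → ℕ} (hφ : Tendsto φ atTop atTop) {a : ℕ → PSL(2, ℝ)}
    {b : PSL(2, ℝ)} (ha : ∀ k, a k ∈ gens (code (φ k))) (hb : Tendsto a atTop (𝓝 b)) :
    ∀ᶠ k in atTop, a k ∈ gens short := by
  have h1 := ((continuous_NN.tendsto b).comp hb).eventually (gt_mem_nhds (lt_add_one (NN b)))
  have h2 := (tendsto_natCast_atTop_atTop (R := ℝ).comp hφ).eventually_ge_atTop (2 * (NN b + 1))
  filter_upwards [h1, h2] with k h1 h2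
  obtain ⟨s, c, hc, e⟩ := mem_gens.mp (ha k)
  rcases Finset.mem_union.mp hc with hc | hc
  · exact mem_gens.mpr ⟨s, c, hc, e⟩
  · have h3 := length_le_NN c
    have h4 := NN_sw (s, c)
    rw [e] at h4
    simp only [mem_long hc, Function.comp] at h1 h2 h3 h4
    push_cast at h3
    nlinarith [(Nat.cast_nonneg (φ k) : (0 : ℝ) ≤ φ k)]

theorem counterexample : ∃ (Ss : ℕ → Finset PSL(2, ℝ)) (S : Finset PSL(2, ℝ))
    (μs : ℕ → PMF PSL(2, ℝ)) (μ : PMF PSL(2, ℝ)),
    IsData (fun _ => emb.range) emb.range Ss S μs μ ∧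
    (∀ n, (μs n).support = (Ss n : Set PSL(2, ℝ))) ∧ μ.support = (S : Set PSL(2, ℝ)) ∧
    (∀ n g, μs n g⁻¹ = μs n g) ∧ (∀ g, μ g⁻¹ = μ g) ∧
    Tendsto (fun n => avez (μs n)) atTop atTop := by
  choose μs hμs using fun n => exists_pmf _ (isProb_code n)
  obtain ⟨μ, hμ⟩ := exists_pmf _ isProb_short
  have s1 : ∀ n, (μs n).support = (gens (code n) : Set PSL(2, ℝ)) := fun n => by
    rw [(hμs n).support_eq (isProb_code n), support_meas (nil_code n) fun c _ => wt_pos n c]
  have s2 : μ.support = (gens short : Set PSL(2, ℝ)) := by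
    rw [hμ.support_eq isProb_short, support_short]
  have hgen : ∀ C : Finset (List Bool), short ⊆ C →
      Subgroup.closure (gens C : Set PSL(2, ℝ)) = emb.range := by
    intro C hC
    refine closure_eq _ (mem_gens.mpr ⟨true, _, hC (by simp [short]), rfl⟩)
      (mem_gens.mpr ⟨true, _, hC (by simp [short]), rfl⟩) fun x hx => ?_
    obtain ⟨b, c, -, rfl⟩ := mem_gens.mp hx
    exact sw_mem _
  have hcl : IsClosed (gens short : Set PSL(2, ℝ)) := (gens short).finite_toSet.isClosed
  refine ⟨fun n => gens (code n), gens short, μs, μ, ⟨fun _ => inferInstance, inferInstance,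
    ⟨fun b hb => ⟨fun _ => b, fun _ => hb, tendsto_const_nhds⟩, fun φ a b _ ha hb => ?_⟩,
    fun n => hgen _ Finset.subset_union_left, hgen _ le_rfl,
    ⟨fun b hb => ⟨fun _ => b, fun n => ?_, tendsto_const_nhds⟩, fun φ a b hφ ha hb => ?_⟩,
    fun n => (s1 n).le, s2.le, fun s t hs ht hst => ?_⟩, s1, s2, fun n g => ?_, fun g => ?_, ?_⟩
  · exact (Subgroup.isClosed_of_discrete (H := emb.range)).mem_of_tendsto hb
      (Eventually.of_forall ha)
  · obtain ⟨s, c, hc, rfl⟩ := mem_gens.mp hb
    exact mem_gens.mpr ⟨s, c, Finset.mem_union_left _ hc, rfl⟩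
  · exact hcl.mem_of_tendsto hb (eventually_mem_short hφ.tendsto_atTop ha hb)
  · obtain ⟨b, c, hc, rfl⟩ := mem_gens.mp ht
    rw [hμ, coeff_meas nil_short _ b hc]
    refine (ENNReal.tendsto_ofReal tendsto_wt).congr' ?_
    filter_upwards [eventually_mem_short tendsto_id hs hst] with n hn
    obtain ⟨b', c', hc', e⟩ := mem_gens.mp hn
    rw [hμs n, ← e, coeff_meas (nil_code n) _ b' (Finset.mem_union_left _ hc'), wt_short n hc']
  · rw [hμs n, hμs n, coeff_meas_inv (nil_code n)]
  · rw [hμ, hμ, coeff_meas_inv nil_short]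
  · simp only [fun n => (hμs n).avez_eq (isProb_code n)]
    exact tendsto_hh_code

end Pool.Agent.MP_56e4d4_pr
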