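import Mathlib

/-!
Elementary geometry of `PSL(2, ℝ)` acting on the projective line.
-/

open Filter Topology Matrix
open scoped MatrixGroups LinearAlgebra.Projectivization

namespace Pool.Agent.MP_56e4d4_pr

/-- The `l¹` norm of a vector. -/
def n1 (v : Fin 2 → ℝ) : ℝ := |v 0| + |v 1|

/-- The determinant of two vectors. -/
def dt (v w : Fin 2 → ℝ) : ℝ := v 0 * w 1 - v 1 * w 0

/-- The sum of the absolute values of the entries. -/
def Nm (A : Matrix (Fin 2) (Fin 2) ℝ) : ℝ := |A 0 0| + |A 0 1| + |A 1 0| + |A 1 1|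

lemma n1_nonneg (v : Fin 2 → ℝ) : 0 ≤ n1 v := by unfold n1; positivity

lemma Nm_nonneg (A : Matrix (Fin 2) (Fin 2) ℝ) : 0 ≤ Nm A := by unfold Nm; positivity

lemma n1_pos {v : Fin 2 → ℝ} (hv : v ≠ 0) : 0 < n1 v := by
  refine lt_of_le_of_ne (n1_nonneg v) fun h => hv ?_
  unfold n1 at h
  have h0 : |v 0| = 0 := by linarith [abs_nonneg (v 0), abs_nonneg (v 1)]
  have h1 : |v 1| = 0 := by linarith [abs_nonneg (v 0), abs_nonneg (v 1)]
  ext i
  fin_cases i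
  · simpa using h0
  · simpa using h1

lemma n1_smul (c : ℝ) (v : Fin 2 → ℝ) : n1 (c • v) = |c| * n1 v := by
  simp [n1, abs_mul, mul_add]

lemma n1_neg (v : Fin 2 → ℝ) : n1 (-v) = n1 v := by simp [n1]

lemma n1_add_le (v w : Fin 2 → ℝ) : n1 (v + w) ≤ n1 v + n1 w := by
  simp only [n1, Pi.add_apply]
  linarith [abs_add_le (v 0) (w 0), abs_add_le (v 1) (w 1)]

lemma mulVec_zero' (A : Matrix (Fin 2) (Fin 2) ℝ) (v : Fin 2 → ℝ) :
    (A *ᵥ v) 0 = A 0 0 * v 0 + A 0 1 * v 1 := by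
  simp [Matrix.mulVec, dotProduct, Fin.sum_univ_two]

lemma mulVec_one' (A : Matrix (Fin 2) (Fin 2) ℝ) (v : Fin 2 → ℝ) :
    (A *ᵥ v) 1 = A 1 0 * v 0 + A 1 1 * v 1 := by
  simp [Matrix.mulVec, dotProduct, Fin.sum_univ_two]

lemma n1_mulVec (A : Matrix (Fin 2) (Fin 2) ℝ) (v : Fin 2 → ℝ) :
    n1 (A *ᵥ v) ≤ Nm A * n1 v := by
  simp only [n1, Nm, mulVec_zero', mulVec_one']
  have h1 := abs_add_le (A 0 0 * v 0) (A 0 1 * v 1)
  have h2 := abs_add_le (A 1 0 * v 0) (A 1 1 * v 1)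
  simp only [abs_mul] at h1 h2
  have := abs_nonneg (A 0 0); have := abs_nonneg (A 0 1); have := abs_nonneg (A 1 0)
  have := abs_nonneg (A 1 1); have := abs_nonneg (v 0); have := abs_nonneg (v 1)
  nlinarith [mul_nonneg (abs_nonneg (A 0 0)) (abs_nonneg (v 1)),
    mul_nonneg (abs_nonneg (A 0 1)) (abs_nonneg (v 0)),
    mul_nonneg (abs_nonneg (A 1 0)) (abs_nonneg (v 1)),
    mul_nonneg (abs_nonneg (A 1 1)) (abs_nonneg (v 0))]

lemma Nm_eq_cols (A : Matrix (Fin 2) (Fin 2) ℝ) :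
    Nm A = n1 (A *ᵥ ![1, 0]) + n1 (A *ᵥ ![0, 1]) := by
  simp only [n1, Nm, mulVec_zero', mulVec_one']
  simp
  ring

lemma Nm_mul (A B : Matrix (Fin 2) (Fin 2) ℝ) : Nm (A * B) ≤ Nm A * Nm B := by
  rw [Nm_eq_cols (A * B), Nm_eq_cols B, ← Matrix.mulVec_mulVec, ← Matrix.mulVec_mulVec, mul_add]
  exact add_le_add (n1_mulVec _ _) (n1_mulVec _ _)

lemma Nm_neg (A : Matrix (Fin 2) (Fin 2) ℝ) : Nm (-A) = Nm A := by simp [Nm]

lemma Nm_smul (c : ℝ) (A : Matrix (Fin 2) (Fin 2) ℝ) : Nm (c • A) = |c| * Nm A := by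
  simp [Nm, abs_mul, mul_add]

lemma Nm_add_le (A B : Matrix (Fin 2) (Fin 2) ℝ) : Nm (A + B) ≤ Nm A + Nm B := by
  simp only [Nm, Matrix.add_apply]
  linarith [abs_add_le (A 0 0) (B 0 0), abs_add_le (A 0 1) (B 0 1), abs_add_le (A 1 0) (B 1 0),
    abs_add_le (A 1 1) (B 1 1)]

@[simp] lemma Nm_zero : Nm 0 = 0 := by simp [Nm]

lemma Nm_eq_zero {A : Matrix (Fin 2) (Fin 2) ℝ} (h : Nm A = 0) : A = 0 := by
  unfold Nm at h
  have := abs_nonneg (A 0 0); have := abs_nonneg (A 0 1); have := abs_nonneg (A 1 0)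
  have := abs_nonneg (A 1 1)
  have h00 : |A 0 0| = 0 := by linarith
  have h01 : |A 0 1| = 0 := by linarith
  have h10 : |A 1 0| = 0 := by linarith
  have h11 : |A 1 1| = 0 := by linarith
  ext i j
  fin_cases i <;> fin_cases j
  · simpa using h00
  · simpa using h01
  · simpa using h10
  · simpa using h11

lemma abs_entry_le (A : Matrix (Fin 2) (Fin 2) ℝ) (i j : Fin 2) : |A i j| ≤ Nm A := by
  unfold Nm
  have := abs_nonneg (A 0 0); have := abs_nonneg (A 0 1); have := abs_nonneg (A 1 0)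
  have := abs_nonneg (A 1 1)
  fin_cases i <;> fin_cases j <;> simp <;> linarith

@[fun_prop]
lemma continuous_Nm : Continuous Nm := by
  unfold Nm
  fun_prop

lemma det_eq (g : SL(2, ℝ)) : g.1 0 0 * g.1 1 1 - g.1 0 1 * g.1 1 0 = 1 := by
  have := g.2
  rwa [Matrix.det_fin_two] at this

lemma Nm_inv (g : SL(2, ℝ)) : Nm (g⁻¹ : SL(2, ℝ)).1 = Nm g.1 := by
  rw [Matrix.SpecialLinearGroup.coe_inv, Matrix.adjugate_fin_two]
  simp [Nm]
  ring

lemma one_le_Nm (g : SL(2, ℝ)) : 1 ≤ Nm g.1 := by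
  have h := det_eq g
  have h1 : (1 : ℝ) ≤ |g.1 0 0| * |g.1 1 1| + |g.1 0 1| * |g.1 1 0| := by
    rw [← abs_mul, ← abs_mul]
    linarith [le_abs_self (g.1 0 0 * g.1 1 1), neg_abs_le (g.1 0 1 * g.1 1 0)]
  unfold Nm
  have := abs_nonneg (g.1 0 0); have := abs_nonneg (g.1 0 1); have := abs_nonneg (g.1 1 0)
  have := abs_nonneg (g.1 1 1)
  by_contra hlt
  push Not at hlt
  nlinarith

lemma dt_mulVec (g : SL(2, ℝ)) (v w : Fin 2 → ℝ) : dt (g.1 *ᵥ v) (g.1 *ᵥ w) = dt v w := by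
  simp only [dt, mulVec_zero', mulVec_one']
  linear_combination (v 0 * w 1 - v 1 * w 0) * det_eq g

lemma abs_dt_le (v w : Fin 2 → ℝ) : |dt v w| ≤ n1 v * n1 w := by
  unfold dt n1
  have h := abs_sub (v 0 * w 1) (v 1 * w 0)
  simp only [abs_mul] at h
  nlinarith [mul_nonneg (abs_nonneg (v 0)) (abs_nonneg (w 0)),
    mul_nonneg (abs_nonneg (v 1)) (abs_nonneg (w 1))]

lemma dt_smul_smul (a b : ℝ) (v w : Fin 2 → ℝ) : dt (a • v) (b • w) = a * b * dt v w := by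
  simp only [dt, Pi.smul_apply, smul_eq_mul]
  ring

lemma dt_identity (v v' w : Fin 2 → ℝ) : dt v v' • w = dt w v' • v + dt v w • v' := by
  ext i
  fin_cases i <;> simp [dt] <;> ring

lemma dt_ineq (A : Matrix (Fin 2) (Fin 2) ℝ) (v v' w : Fin 2 → ℝ) :
    |dt v v'| * n1 (A *ᵥ w) ≤ |dt w v'| * n1 (A *ᵥ v) + |dt v w| * n1 (A *ᵥ v') := by
  rw [← n1_smul, ← n1_smul, ← n1_smul, ← Matrix.mulVec_smul, dt_identity, Matrix.mulVec_add,
    Matrix.mulVec_smul, Matrix.mulVec_smul]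
  exact n1_add_le _ _

lemma mk_eq_mk {g h : SL(2, ℝ)} (e : (g : PSL(2, ℝ)) = h) : g.1 = h.1 ∨ g.1 = -h.1 := by
  rw [QuotientGroup.eq, Matrix.SpecialLinearGroup.mem_center_iff] at e
  obtain ⟨r, hr, he⟩ := e
  have h1 : h.1 = g.1 * Matrix.scalar (Fin 2) r := by
    rw [he, ← Matrix.SpecialLinearGroup.coe_mul]
    simp
  rw [Fintype.card_fin] at hr
  have : (r - 1) * (r + 1) = 0 := by linear_combination hr
  rcases mul_eq_zero.mp this with h2 | h2
  · left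
    have : r = 1 := by linarith
    simp [h1, this]
  · right
    have : r = -1 := by linarith
    rw [h1, this, map_neg, map_one]
    simp

lemma mk_neg (g : SL(2, ℝ)) : ((-g : SL(2, ℝ)) : PSL(2, ℝ)) = g := by
  rw [QuotientGroup.eq, Matrix.SpecialLinearGroup.mem_center_iff]
  refine ⟨-1, by simp, ?_⟩
  rw [map_neg, map_one]
  simp

/-- The size of an element of `PSL(2, ℝ)`. -/
noncomputable def NN (x : PSL(2, ℝ)) : ℝ := Nm (x.out : SL(2, ℝ)).1

lemma NN_mk (g : SL(2, ℝ)) : NN (g : PSL(2, ℝ)) = Nm g.1 := by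
  unfold NN
  rcases mk_eq_mk (QuotientGroup.out_eq' (g : PSL(2, ℝ))) with h | h
  · rw [h]
  · rw [h, Nm_neg]

lemma one_le_NN (x : PSL(2, ℝ)) : 1 ≤ NN x := one_le_Nm _

lemma NN_mul (x y : PSL(2, ℝ)) : NN (x * y) ≤ NN x * NN y := by
  induction x using QuotientGroup.induction_on with | H g =>
  induction y using QuotientGroup.induction_on with | H h =>
  rw [← QuotientGroup.mk_mul, NN_mk, NN_mk, NN_mk]
  exact Nm_mul _ _

lemma continuous_NN : Continuous NN := by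
  rw [(QuotientGroup.isQuotientMap_mk _).continuous_iff]
  have : NN ∘ (QuotientGroup.mk : SL(2, ℝ) → PSL(2, ℝ)) = fun g => Nm g.1 := funext NN_mk
  rw [this]
  exact continuous_Nm.comp continuous_subtype_val

lemma tendsto_SL_iff {ι : Type*} {l : Filter ι} {g : ι → SL(2, ℝ)} {h : SL(2, ℝ)} :
    Tendsto g l (𝓝 h) ↔ Tendsto (fun i => Nm ((g i).1 - h.1)) l (𝓝 0) := by
  constructor
  · intro H
    have hc : Continuous fun x : SL(2, ℝ) => Nm (x.1 - h.1) :=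
      continuous_Nm.comp (continuous_subtype_val.sub continuous_const)
    have := (hc.tendsto h).comp H
    simpa [Function.comp_def] using this
  · intro H
    refine Matrix.SpecialLinearGroup.isClosedEmbedding_val.isEmbedding.tendsto_nhds_iff.mpr ?_
    refine tendsto_pi_nhds.mpr fun i => tendsto_pi_nhds.mpr fun j => ?_
    rw [tendsto_iff_norm_sub_tendsto_zero]
    exact squeeze_zero (fun _ => norm_nonneg _) (fun k => abs_entry_le ((g k).1 - h.1) i j) H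

/-- Distance of a class to the class of `g`. -/
noncomputable def DD (g : SL(2, ℝ)) (x : PSL(2, ℝ)) : ℝ :=
  min (Nm ((x.out : SL(2, ℝ)).1 - g.1)) (Nm ((x.out : SL(2, ℝ)).1 + g.1))

lemma DD_mk (g h : SL(2, ℝ)) : DD g (h : PSL(2, ℝ)) = min (Nm (h.1 - g.1)) (Nm (h.1 + g.1)) := by
  unfold DD
  rcases mk_eq_mk (QuotientGroup.out_eq' (h : PSL(2, ℝ))) with e | e
  · rw [e]
  · rw [e, min_comm, ← Nm_neg (h.1 - g.1), ← Nm_neg (h.1 + g.1)]
    congr 2 <;> abel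

lemma continuous_DD (g : SL(2, ℝ)) : Continuous (DD g) := by
  rw [(QuotientGroup.isQuotientMap_mk _).continuous_iff]
  have : DD g ∘ (QuotientGroup.mk : SL(2, ℝ) → PSL(2, ℝ)) =
      fun h => min (Nm (h.1 - g.1)) (Nm (h.1 + g.1)) := funext (DD_mk g)
  rw [this]
  exact (continuous_Nm.comp (continuous_subtype_val.sub continuous_const)).min
    (continuous_Nm.comp (continuous_subtype_val.add continuous_const))

lemma exists_lift {ι : Type*} {l : Filter ι} {x : ι → PSL(2, ℝ)} {g : SL(2, ℝ)}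
    (h : Tendsto x l (𝓝 (g : PSL(2, ℝ)))) :
    ∃ g' : ι → SL(2, ℝ), (∀ i, (g' i : PSL(2, ℝ)) = x i) ∧ Tendsto g' l (𝓝 g) := by
  have h1 : ∀ y : PSL(2, ℝ), ∃ k : SL(2, ℝ), (k : PSL(2, ℝ)) = y ∧ Nm (k.1 - g.1) = DD g y := by
    intro y
    unfold DD
    rcases le_total (Nm ((y.out : SL(2, ℝ)).1 - g.1)) (Nm ((y.out : SL(2, ℝ)).1 + g.1)) with e | e
    · exact ⟨y.out, QuotientGroup.out_eq' y, (min_eq_left e).symm⟩
    · refine ⟨-y.out, by rw [mk_neg, QuotientGroup.out_eq'], ?_⟩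
      rw [min_eq_right e, ← Nm_neg, Matrix.SpecialLinearGroup.coe_neg]
      congr 1
      abel
  choose k hk hk' using h1
  refine ⟨fun i => k (x i), fun i => hk _, tendsto_SL_iff.mpr ?_⟩
  simp only [hk']
  have := ((continuous_DD g).tendsto _).comp h
  rw [DD_mk, sub_self, Nm_zero, min_eq_left (Nm_nonneg _)] at this
  exact this

instance : T2Space PSL(2, ℝ) := by
  have : T1Space PSL(2, ℝ) := by
    refine IsTopologicalGroup.t1Space _ ?_
    have : ({1} : Set PSL(2, ℝ)) = DD 1 ⁻¹' {0} := by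
      ext x
      induction x using QuotientGroup.induction_on with | H g =>
      simp only [Set.mem_singleton_iff, Set.mem_preimage, DD_mk]
      constructor
      · intro e
        rcases mk_eq_mk (h := 1) e with e | e
        · rw [e, sub_self, Nm_zero, min_eq_left (Nm_nonneg _)]
        · rw [e, neg_add_cancel, Nm_zero, min_eq_right (Nm_nonneg _)]
      · intro e
        rcases min_eq_iff.mp e with ⟨e, -⟩ | ⟨e, -⟩
        · have : g = 1 := Subtype.ext (sub_eq_zero.mp (Nm_eq_zero e))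
          rw [this]
          rfl
        · have : g = -1 := Subtype.ext (eq_neg_of_add_eq_zero_left (Nm_eq_zero e))
          rw [this, mk_neg]
          rfl
    rw [this]
    exact isClosed_singleton.preimage (continuous_DD 1)
  infer_instance

lemma isCompact_ball (R : ℝ) : IsCompact {g : SL(2, ℝ) | Nm g.1 ≤ R} := by
  refine Matrix.SpecialLinearGroup.isClosedEmbedding_val.isCompact_preimage
    (K := {A | Nm A ≤ R}) ?_
  have h1 : IsCompact (Set.univ.pi fun _ : Fin 2 => Set.univ.pi fun _ : Fin 2 => Set.Icc (-R) R) :=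
    isCompact_univ_pi fun _ => isCompact_univ_pi fun _ => isCompact_Icc
  refine h1.of_isClosed_subset (isClosed_le continuous_Nm continuous_const) ?_
  intro A hA i _ j _
  exact abs_le.mp ((abs_entry_le A i j).trans hA)

lemma finite_ball (Γ : Subgroup PSL(2, ℝ)) [DiscreteTopology Γ] (R : ℝ) :
    {x | x ∈ Γ ∧ NN x ≤ R}.Finite := by
  have h1 : IsCompact ((QuotientGroup.mk : SL(2, ℝ) → PSL(2, ℝ)) '' {g | Nm g.1 ≤ R}) :=
    (isCompact_ball R).image QuotientGroup.continuous_mk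
  have h2 : IsClosed (Γ : Set PSL(2, ℝ)) := Subgroup.isClosed_of_discrete
  have h3 := (h1.inter_right h2).finite
    ((isDiscrete_iff_discreteTopology.mpr ‹_›).mono Set.inter_subset_right)
  refine h3.subset ?_
  rintro x ⟨hx, hR⟩
  exact ⟨⟨x.out, hR, QuotientGroup.out_eq' x⟩, hx⟩

lemma discrete_gap (Γ : Subgroup PSL(2, ℝ)) [DiscreteTopology Γ] :
    ∃ δ > 0, δ ≤ 1 ∧ ∀ g : SL(2, ℝ), (g : PSL(2, ℝ)) ∈ Γ → Nm (g.1 - 1) ≤ δ → g = 1 := by
  by_contra hcon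
  push Not at hcon
  have h1 : ∀ n : ℕ, ∃ g : SL(2, ℝ), (g : PSL(2, ℝ)) ∈ Γ ∧ Nm (g.1 - 1) ≤ 1 / ((n : ℝ) + 1) ∧
      g ≠ 1 := fun n => hcon _ (by positivity)
        (by rw [div_le_one (by positivity)]; linarith [(Nat.cast_nonneg n : (0 : ℝ) ≤ n)])
  choose g hg hg1 hg2 using h1
  have h2 : Tendsto g atTop (𝓝 1) :=
    tendsto_SL_iff.mpr (squeeze_zero (fun _ => Nm_nonneg _) hg1
      tendsto_one_div_add_atTop_nhds_zero_nat)
  have h3 : Tendsto (fun n => (⟨g n, hg n⟩ : Γ)) atTop (𝓝 1) :=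
    tendsto_subtype_rng.mpr ((QuotientGroup.continuous_mk.tendsto 1).comp h2)
  rw [nhds_discrete, tendsto_pure] at h3
  obtain ⟨n, hn⟩ := h3.exists
  rcases mk_eq_mk (h := 1) (congrArg Subtype.val hn) with e | e
  · exact hg2 n (Subtype.ext e)
  · have h4 := hg1 n
    rw [e] at h4
    have h5 : 1 / ((n : ℝ) + 1) ≤ 1 := by
      rw [div_le_one (by positivity)]; linarith [(Nat.cast_nonneg n : (0 : ℝ) ≤ n)]
    norm_num [Nm] at h4
    rw [one_div] at h5
    linarith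

lemma exists_pow_annulus {δ : ℝ} (hδ : 0 < δ) (hδ1 : δ ≤ 1) (n : ℕ) :
    ∀ g : SL(2, ℝ), δ * (2 / 3) ^ n ≤ Nm (g.1 - 1) → Nm (g.1 - 1) ≤ δ →
      ∃ k : ℕ, δ / 3 ≤ Nm ((g ^ k).1 - 1) ∧ Nm ((g ^ k).1 - 1) ≤ δ := by
  induction n with
  | zero => exact fun g h1 h2 => ⟨1, by simp only [pow_zero, pow_one] at h1 ⊢; linarith,
      by simpa using h2⟩
  | succ n ih =>
    intro g h1 h2
    by_cases h3 : δ / 3 ≤ Nm (g.1 - 1)
    · exact ⟨1, by simpa using h3, by simpa using h2⟩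
    · push Not at h3
      have e : (g ^ 2).1 - 1 = (2 : ℝ) • (g.1 - 1) + (g.1 - 1) * (g.1 - 1) := by
        rw [pow_two, Matrix.SpecialLinearGroup.coe_mul, two_smul]
        noncomm_ring
      have e' : (2 : ℝ) • (g.1 - 1) = ((g ^ 2).1 - 1) + -((g.1 - 1) * (g.1 - 1)) := by
        rw [e]; abel
      have t0 := Nm_nonneg (g.1 - 1)
      have t1 := Nm_mul (g.1 - 1) (g.1 - 1)
      have t2 := Nm_add_le ((2 : ℝ) • (g.1 - 1)) ((g.1 - 1) * (g.1 - 1))
      have t3 := Nm_add_le ((g ^ 2).1 - 1) (-((g.1 - 1) * (g.1 - 1)))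
      rw [← e', Nm_neg] at t3
      rw [← e] at t2
      rw [Nm_smul, abs_two] at t2 t3
      have t4 : Nm (g.1 - 1) * Nm (g.1 - 1) ≤ Nm (g.1 - 1) * (1 / 3) :=
        mul_le_mul_of_nonneg_left (by linarith) t0
      obtain ⟨k, hk⟩ := ih (g ^ 2) (by rw [pow_succ] at h1; linarith) (by linarith)
      exact ⟨2 * k, by rwa [pow_mul]⟩

/-- Uniform discreteness of groups converging geometrically to a discrete group. -/
lemma eventually_eq_one (Γ : Subgroup PSL(2, ℝ)) [DiscreteTopology Γ]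
    (Γs : ℕ → Subgroup PSL(2, ℝ))
    (hlim : ∀ (φ : ℕ → ℕ) (a : ℕ → PSL(2, ℝ)) (b : PSL(2, ℝ)), StrictMono φ →
      (∀ k, a k ∈ Γs (φ k)) → Tendsto a atTop (𝓝 b) → b ∈ Γ)
    (γ : ℕ → PSL(2, ℝ)) (hγ : ∀ n, γ n ∈ Γs n) (h1 : Tendsto γ atTop (𝓝 1)) :
    ∀ᶠ n in atTop, γ n = 1 := by
  by_contra hcon
  obtain ⟨δ, hδ, hδ1, hgap⟩ := discrete_gap Γ
  obtain ⟨g, hg, hg1⟩ := exists_lift (g := 1) h1
  have h2 : ∀ᶠ n in atTop, Nm ((g n).1 - 1) ≤ δ :=
    (tendsto_SL_iff.mp hg1).eventually (ge_mem_nhds hδ)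
  have h3 : ∃ᶠ n in atTop, γ n ≠ 1 ∧ Nm ((g n).1 - 1) ≤ δ :=
    (not_eventually.mp hcon).and_eventually h2
  obtain ⟨φ, hφ, hφ'⟩ := extraction_of_frequently_atTop h3
  have h4 : ∀ j, ∃ k : ℕ, δ / 3 ≤ Nm ((g (φ j) ^ k).1 - 1) ∧ Nm ((g (φ j) ^ k).1 - 1) ≤ δ := by
    intro j
    have hpos : 0 < Nm ((g (φ j)).1 - 1) := by
      refine lt_of_le_of_ne (Nm_nonneg _) fun e => (hφ' j).1 ?_
      have : g (φ j) = 1 := Subtype.ext (sub_eq_zero.mp (Nm_eq_zero e.symm))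
      rw [← hg, this]
      rfl
    obtain ⟨n, hn⟩ := exists_pow_lt_of_lt_one (div_pos hpos hδ) (show (2 / 3 : ℝ) < 1 by norm_num)
    rw [lt_div_iff₀ hδ] at hn
    exact exists_pow_annulus hδ hδ1 n _ (by linarith) (hφ' j).2
  choose k hk1 hk2 using h4
  have : FirstCountableTopology (Matrix (Fin 2) (Fin 2) ℝ) :=
    inferInstanceAs (FirstCountableTopology (Fin 2 → Fin 2 → ℝ))
  have : FirstCountableTopology SL(2, ℝ) :=
    Matrix.SpecialLinearGroup.isClosedEmbedding_val.isEmbedding.firstCountableTopology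
  obtain ⟨h, -, ψ, hψ, hlim'⟩ := (isCompact_ball 3).tendsto_subseq
    (x := fun j => g (φ j) ^ k j) (fun j => by
      have t := Nm_add_le ((g (φ j) ^ k j).1 - 1) 1
      rw [sub_add_cancel] at t
      have : Nm 1 = 2 := by norm_num [Nm]
      have := hk2 j
      change Nm _ ≤ 3
      linarith)
  have hmem : (h : PSL(2, ℝ)) ∈ Γ := by
    refine hlim (φ ∘ ψ) (fun j => ((g (φ (ψ j)) ^ k (ψ j) : SL(2, ℝ)) : PSL(2, ℝ))) h
      (hφ.comp hψ) (fun j => ?_) ((QuotientGroup.continuous_mk.tendsto h).comp hlim')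
    rw [QuotientGroup.mk_pow, hg]
    exact Subgroup.pow_mem _ (hγ _) _
  have hc : Continuous fun x : SL(2, ℝ) => Nm (x.1 - 1) :=
    continuous_Nm.comp (continuous_subtype_val.sub continuous_const)
  have h5 := (hc.tendsto h).comp hlim'
  have h6 : Nm (h.1 - 1) ≤ δ := le_of_tendsto' h5 fun j => hk2 _
  have h7 : δ / 3 ≤ Nm (h.1 - 1) := ge_of_tendsto' h5 fun j => hk1 _
  rw [hgap h hmem h6] at h7
  simp [Nm] at h7
  linarith

end Pool.Agent.MP_56e4d4_pr
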